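import Pool.Agent.Work.MP_6bf1e5_an.B.Defs

/-!
Dissipation given by an elliptic matrix symbol of order two.
-/

open scoped ContDiff

namespace Pool.Agent.Work.MP_6bf1e5_an.B

noncomputable section

/-- Real three by three matrices. -/
abbrev M3 := Fin 3 → Fin 3 → ℝ

/-- `D` is a smooth, even, symmetric, uniformly elliptic matrix symbol of order two which
dominates the symbol `|ξ|²` of `-Δ` and obeys the symbol estimates of the class `S²₁,₀`. -/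
structure IsEllipticSymbol (D : R3 → M3) : Prop where
  smooth : ContDiff ℝ ∞ D
  symm : ∀ ξ i j, D ξ i j = D ξ j i
  even : ∀ ξ, D (-ξ) = D ξ
  lower : ∀ ξ v : R3, (∑ i, ξ i ^ 2) * ∑ i, v i ^ 2 ≤ ∑ i, ∑ j, v i * D ξ i j * v j
  upper : ∃ C : ℝ, ∀ ξ v : R3, ∑ i, ∑ j, v i * D ξ i j * v j ≤ C * (∑ i, ξ i ^ 2) * ∑ i, v i ^ 2
  deriv : ∀ n : ℕ, ∃ C : ℝ, ∀ ξ, ‖iteratedFDeriv ℝ n D ξ‖ ≤ C * (1 + ‖ξ‖) ^ (2 - n : ℝ)

/-- The operator `-ν D(∇/i)`: the Fourier multiplier with matrix symbol `-ν D(2 π k)`. -/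
def symDiss (ν : ℝ) (D : R3 → M3) (v : R3 → R3) (x : R3) : R3 := fun i =>
  -(ν * (∑' k : Z3, ek k x * ∑ j, (D (fun l => 2 * Real.pi * k l) i j : ℂ) * fc v k j).re)

/-- The energy `∑ |v_k|²`. -/
def energy (v : R3 → R3) : ℝ := ∑' k, ‖fc v k‖ ^ 2

/-- The dissipation `∑ Re ⟨v_k, D(2 π k) v_k⟩`. -/
def dissip (D : R3 → M3) (v : R3 → R3) : ℝ :=
  ∑' k : Z3, (∑ i, ∑ j,
    (starRingEnd ℂ) (fc v k i) * (D (fun l => 2 * Real.pi * k l) i j : ℂ) * fc v k j).re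

end

end Pool.Agent.Work.MP_6bf1e5_an.B
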