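import Pool.Agent.Work.MP_6bf1e5_an.Sym.SDefs
import Pool.Agent.Work.MP_6bf1e5_an.Dec.Extra

/-!
The system with a matrix symbol: Fourier side, classical side, scaling of the viscosity.
-/

open Set Filter Topology MeasureTheory Complex
open scoped InnerProductSpace ComplexConjugate ContDiff

namespace Pool.Agent.Work.MP_6bf1e5_an.B.Sy

noncomputable section

/-- A real matrix acting on complex vectors. -/
def mL (M : M3) : C3 →L[ℂ] C3 :=
  LinearMap.toContinuousLinearMap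
    { toFun := fun v => WithLp.toLp 2 fun i => ∑ j, (M i j : ℂ) * v j
      map_add' := fun u v => by ext i; simp [mul_add, Finset.sum_add_distrib]
      map_smul' := fun c v => by ext i; simp [Finset.mul_sum, mul_left_comm] }

lemma mL_apply (M : M3) (v : C3) (i : Fin 3) : mL M v i = ∑ j, (M i j : ℂ) * v j := rfl

lemma mL_cj (M : M3) (v : C3) : mL M (cj v) = cj (mL M v) := by
  ext i; simp [mL_apply]

lemma inner_mL (M : M3) (u v : C3) :
    ⟪u, mL M v⟫_ℂ = ∑ i, ∑ j, conj (u i) * (M i j : ℂ) * v j := by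
  simp only [PiLp.inner_apply, mL_apply, RCLike.inner_apply, Finset.sum_mul]
  exact Finset.sum_congr rfl fun i _ => Finset.sum_congr rfl fun j _ => by ring

lemma re_inner_mL (M : M3) (v : C3) : (⟪v, mL M v⟫_ℂ).re =
    ∑ i, ∑ j, (v i).re * M i j * (v j).re + ∑ i, ∑ j, (v i).im * M i j * (v j).im := by
  rw [inner_mL]
  simp only [re_sum, ← Finset.sum_add_distrib]
  refine Finset.sum_congr rfl fun i _ => Finset.sum_congr rfl fun j _ => ?_
  simp

lemma normsq_C3 (v : C3) : ‖v‖ ^ 2 = ∑ i, (v i).re ^ 2 + ∑ i, (v i).im ^ 2 := by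
  rw [EuclideanSpace.norm_sq_eq, ← Finset.sum_add_distrib]
  refine Finset.sum_congr rfl fun i _ => ?_
  rw [Complex.sq_norm, Complex.normSq_apply]; ring

lemma norm_mL_le (M : M3) (v : C3) : ‖mL M v‖ ≤ 9 * ‖M‖ * ‖v‖ := by
  have h : ∀ i, ‖mL M v i‖ ≤ 3 * (‖M‖ * ‖v‖) := fun i => by
    rw [mL_apply]
    refine (norm_sum_le _ _).trans ?_
    have : ∀ j, ‖(M i j : ℂ) * v j‖ ≤ ‖M‖ * ‖v‖ := fun j => by
      rw [norm_mul, Complex.norm_real]
      exact mul_le_mul ((norm_le_pi_norm (M i) j).trans (norm_le_pi_norm M i))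
        (PiLp.norm_apply_le v j) (norm_nonneg _) (norm_nonneg _)
    simp only [Fin.sum_univ_three]
    linarith [this 0, this 1, this 2]
  refine (norm_C3_le_sum _).trans ?_
  simp only [Fin.sum_univ_three]
  linarith [h 0, h 1, h 2]

/-- The frequency `2 π k`. -/
def fq (k : Z3) : R3 := fun l => 2 * Real.pi * k l

lemma fq_neg (k : Z3) : fq (-k) = -fq k := by ext l; simp [fq]

lemma sum_fq_sq (k : Z3) : ∑ i, fq k i ^ 2 = ax k ^ 2 := (ax_sq k).symm

lemma norm_fq_le (k : Z3) : ‖fq k‖ ≤ ax k :=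
  (pi_norm_le_iff_of_nonneg (ax_nonneg k)).mpr fun j => abs_xi_le k j

/-- The symbol `ν D(2 π k)`. -/
def DS (ν : ℝ) (D : R3 → M3) (k : Z3) : C3 →L[ℂ] C3 := (ν : ℂ) • mL (D (fq k))

/-- The projected symbol. -/
def AS (ν : ℝ) (D : R3 → M3) (k : Z3) : C3 →L[ℂ] C3 := (LP k).comp (DS ν D k)

variable {ν : ℝ} {D : R3 → M3}

lemma DS_apply (k : Z3) (v : C3) : DS ν D k v = (ν : ℂ) • mL (D (fq k)) v := rfl

lemma AS_apply (k : Z3) (v : C3) : AS ν D k v = LP k (DS ν D k v) := rfl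

lemma DS_real (hD : IsEllipticSymbol D) (k : Z3) (v : C3) :
    DS ν D (-k) (cj v) = cj (DS ν D k v) := by
  rw [DS_apply, DS_apply, fq_neg, hD.even, mL_cj, cj_smul, conj_ofReal]

lemma DS_growth (hD : IsEllipticSymbol D) (ν : ℝ) :
    ∃ C : ℝ, 0 ≤ C ∧ ∀ k v, ‖DS ν D k v‖ ≤ C * w k ^ 2 * ‖v‖ := by
  obtain ⟨C, hC⟩ := hD.deriv 0
  have C0 : 0 ≤ C := by
    have := (norm_nonneg _).trans (hC 0)
    simpa using this
  refine ⟨|ν| * (9 * C), by positivity, fun k v => ?_⟩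
  have h1 := hC (fq k)
  rw [norm_iteratedFDeriv_zero] at h1
  have h2 : (1 + ‖fq k‖) ^ (2 - (0 : ℕ) : ℝ) ≤ w k ^ 2 := by
    have : (2 - (0 : ℕ) : ℝ) = (2 : ℕ) := by norm_num
    rw [this, Real.rpow_natCast]
    exact pow_le_pow_left₀ (by positivity) (by unfold w; linarith [norm_fq_le k]) 2
  rw [DS_apply, norm_smul, Complex.norm_real, Real.norm_eq_abs, mul_assoc, mul_assoc]
  refine mul_le_mul_of_nonneg_left ((norm_mL_le _ _).trans ?_) (abs_nonneg _)
  have := h1.trans (mul_le_mul_of_nonneg_left h2 C0)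
  nlinarith [norm_nonneg v]

lemma DS_coer (hD : IsEllipticSymbol D) (hν : 0 ≤ ν) (k : Z3) (v : C3) :
    ν * ax k ^ 2 * ‖v‖ ^ 2 ≤ (⟪v, DS ν D k v⟫_ℂ).re := by
  rw [DS_apply, inner_smul_right, re_ofReal_mul, re_inner_mL, normsq_C3, mul_assoc, mul_add,
    ← sum_fq_sq]
  exact mul_le_mul_of_nonneg_left
    (add_le_add (hD.lower _ fun i => (v i).re) (hD.lower _ fun i => (v i).im)) hν

theorem diss_AS (hD : IsEllipticSymbol D) (hν : 0 < ν) : Diss ν (AS ν D) := by
  obtain ⟨C, C0, hC⟩ := DS_growth hD ν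
  exact ⟨hν, fun k v hv => by rw [AS_apply, inner_LP hv]; exact DS_coer hD hν.le k v,
    ⟨C, 2, C0, fun k v => (norm_LP_le _ _).trans (hC k v)⟩, fun k v _ => dt_LP _ _,
    fun k v => by rw [AS_apply, AS_apply, DS_real hD, LP_cj]⟩

lemma hasSum_symDiss (hD : IsEllipticSymbol D) (ν : ℝ) {v : R3 → R3} (hv : IsData v) (x : R3)
    (i : Fin 3) : HasSum (fun k => ek k x * (-(DS ν D k (fc v k))) i)
      ((symDiss ν D v x i : ℝ) : ℂ) := by
  obtain ⟨rp, re, -, -⟩ := hv.fourier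
  obtain ⟨C, C0, hC⟩ := DS_growth hD 1
  have s := ((hasSum_real (c := fun k => DS 1 D k (fc v k)) (rp.map C0 hC)
    (fun k => by beta_reduce; rw [re k]; exact DS_real hD k _) x i).mul_left (ν : ℂ)).neg
  unfold symDiss
  push_cast
  simp only [DS_apply, ofReal_one, one_smul, mL_apply] at s
  refine s.congr_fun fun k => ?_
  simp only [DS_apply, PiLp.neg_apply, PiLp.smul_apply, mL_apply, smul_eq_mul]
  ring

lemma fc_symDiss (hD : IsEllipticSymbol D) (ν : ℝ) {v : R3 → R3} (hv : IsData v) :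
    fc (symDiss ν D v) = fun k => -(DS ν D k (fc v k)) := by
  obtain ⟨C, C0, hC⟩ := DS_growth hD ν
  refine fc_of_hasSum ?_ (hasSum_symDiss hD ν hv)
  simpa using (hv.fourier.1.map C0 hC).summable_norm

/-- Classical solutions are Fourier-side solutions. -/
theorem isSol_symDiss (hD : IsEllipticSymbol D) {u0 : R3 → R3} {J : Set ℝ} {u : R3 → ℝ → R3}
    {p : R3 → ℝ → ℝ} (h : IsSolutionOn (symDiss ν D) u0 J u p) (hJ : UniqueDiffOn ℝ J)
    {a b : ℝ} (hab : Icc a b ⊆ J) : IsSol (AS ν D) (fun s => fc fun x => u x s) a b := by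
  have hdiv : ∀ s ∈ Icc a b, DivFree (fc fun x => u x s) := fun s hs =>
    (h.isData_slice (hab hs)).fourier.2.2.1
  refine ⟨bd_fc_of_JS hJ isCompact_Icc hab h.js h.periodic_u, fun s _ => isReal_fc _, hdiv,
    fun k s hs => ?_⟩
  have h1 : HasDerivWithinAt (fun s => fc (fun x => u x s) k)
      (fc (fun x i => derivWithin (fun s => u x s i) J s) k) (Icc a b) s :=
    hasDerivWithinAt_C3 fun i => (h.js i).hasDerivWithinAt_sc hJ hab k hs
  have h2 := ((LP k).restrictScalars ℝ).hasFDerivAt.comp_hasDerivWithinAt s h1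
  have e : (LP k).restrictScalars ℝ (fc (fun x i => derivWithin (fun s => u x s i) J s) k)
      = FF (AS ν D) (fc fun x => u x s) k := by
    rw [h.fourier_momentum hJ (hab hs), fc_symDiss hD ν (h.isData_slice (hab hs)),
      ContinuousLinearMap.coe_restrictScalars', map_add, map_sub, map_neg, map_smul, LP_cxi,
      smul_zero, sub_zero, map_neg, FF, sub_eq_add_neg, AS_apply]
  rw [e] at h2
  exact h2.congr (fun r hr => (LP_of_div (hdiv r hr k)).symm) (LP_of_div (hdiv s hs k)).symm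

/-- Fourier-side solutions are classical solutions. -/
theorem classical (hD : IsEllipticSymbol D) (hν : 0 < ν) {a : ℝ → Z3 → C3}
    {J : Set ℝ} (hI0 : J ⊆ Ici 0) (hI : ∀ t ∈ J, ∃ T, t < T ∧ Icc 0 T ⊆ J)
    (ha : ∀ T ∈ J, IsSol (AS ν D) a 0 T) :
    ∃ (u : R3 → ℝ → R3) (p : R3 → ℝ → ℝ), (∀ t ∈ J, (fc fun x => u x t) = a t) ∧
      IsSolutionOn (symDiss ν D) (fun x => u x 0) J u p := by
  have hA := diss_AS hD hν
  obtain ⟨C, C0, hC⟩ := DS_growth hD ν
  have hJ : UniqueDiffOn ℝ J := fun t ht => by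
    obtain ⟨T, hT, hTI⟩ := hI t ht
    have h0 : (0 : ℝ) ≤ t := hI0 ht
    exact (uniqueDiffOn_Icc (h0.trans_lt hT) t ⟨h0, hT.le⟩).mono hTI
  have tm : ∀ t ∈ J, t ∈ Icc 0 t := fun t ht => ⟨hI0 ht, le_rfl⟩
  have s1 : ∀ i, ∀ T ∈ J, ∀ n, Sm T n fun t k => a t k i := fun i T hT n =>
    Sm.map (Φ := fun _ => (EuclideanSpace.proj (𝕜 := ℂ) i).restrictScalars ℝ) (C := 1) (m := 0)
      zero_le_one (fun k v => by simpa using PiLp.norm_apply_le v i) ((ha T hT).sm hA n)
  have s2 : ∀ T ∈ J, ∀ n, Sm T n fun t k => pS k (BB (a t) (a t) k + DS ν D k (a t k)) :=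
    fun T hT n => Sm.map zero_le_one norm_pS_le ((((ha T hT).sm hA n).bb ((ha T hT).sm hA n)).add
      (Sm.map (Φ := fun k => (DS ν D k).restrictScalars ℝ) C0 hC ((ha T hT).sm hA n)))
  set u : R3 → ℝ → R3 := fun x t i => (ser (fun t k => a t k i) (x, t)).re with hu
  set p : R3 → ℝ → ℝ := fun x t =>
    (ser (fun t k => pS k (BB (a t) (a t) k + DS ν D k (a t k))) (x, t)).re with hp
  have ju : ∀ i, JS J fun x t => u x t i := fun i => js_ser hI0 hI (s1 i)
  have jp : JS J p := js_ser hI0 hI s2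
  have su : ∀ t ∈ J, ∀ x i, HasSum (fun k => ek k x * a t k i) ((u x t i : ℝ) : ℂ) := by
    intro t ht x i
    obtain ⟨M, hM⟩ := (s1 i t ht 0).1 4
    exact hasSum_re (hM t (tm t ht))
      (fun k => by beta_reduce; rw [(ha t ht).real t (tm t ht) k]; simp) x
  have sp : ∀ t ∈ J, sc (fun x => p x t) = fun k => pS k (BB (a t) (a t) k + DS ν D k (a t k)) := by
    intro t ht
    obtain ⟨M, hM⟩ := (s2 t ht 0).1 4
    obtain ⟨N, hN⟩ := (ha t ht).rapid (tm t ht) 1
    have r := (ha t ht).real t (tm t ht)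
    refine sc_of_hasSum (hM t (tm t ht)).summable_norm fun x =>
      hasSum_re (hM t (tm t ht)) (fun k => ?_) x
    beta_reduce
    rw [BB_real (hN.mono (Nat.zero_le 1)) hN r r k, r k, DS_real hD, ← map_add, pS_apply, pS_apply,
      dt_neg_right, dt_cj, ax_neg]
    simp
  have pu : ∀ t, Periodic3 fun x => u x t := fun t j x => by
    funext i; simp only [hu, ser, ek_periodic _ j x]
  have pp : ∀ t, Periodic3 fun x => p x t := fun t j x => by
    simp only [hp, ser, ek_periodic _ j x]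
  have fu : ∀ t ∈ J, (fc fun x => u x t) = a t := fun t ht =>
    fc_of_hasSum ((ha t ht).rapid (tm t ht)).summable_norm (su t ht)
  have cu : ∀ t ∈ J, ContDiff ℝ ∞ fun x => u x t := fun t ht =>
    contDiff_pi.mpr fun i => (ju i).slice ht
  have pui : ∀ t i, Periodic3 fun x => u x t i := fun t i j x => congrFun (pu t j x) i
  have du : ∀ x, ∀ t ∈ J, ∑ i, pd i (fun y => u y t i) x = 0 := by
    intro x t ht
    have c1 : ∀ i, ContDiff ℝ ∞ (pd i fun y => u y t i) := fun i => contDiff_pd ((ju i).slice ht) i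
    have h1 := hasSum_sc_smooth (g := fun x => ∑ i, pd i (fun y => u y t i) x)
      (ContDiff.sum fun i _ => c1 i)
      (fun j x => Finset.sum_congr rfl fun i _ => (pui t i).pd i j x) x
    have h2 : ∀ k, sc (fun x => ∑ i, pd i (fun y => u y t i) x) k = 0 := fun k => by
      rw [sc_sum fun i => (c1 i).continuous]
      simp only [sc_pd ((ju _).slice ht) (pui t _), ← fc_apply (fun x => u x t), fu t ht]
      have := (ha t ht).div t (tm t ht) k
      rw [dt_eq] at this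
      rw [← mul_zero I, ← this, Finset.mul_sum]
      exact Finset.sum_congr rfl fun j _ => by ring
    simp only [h2, mul_zero] at h1
    exact_mod_cast h1.unique hasSum_zero
  refine ⟨u, p, fu,
    ⟨contDiffOn_pi.mpr ju, jp, fun t _ => pu t, fun t _ => pp t, fun x t ht i => ?_, du,
      fun _ => rfl⟩⟩
  have c1 : ContDiff ℝ ∞ fun x => derivWithin (fun s => u x s i) J t := ((ju i).time hJ).slice ht
  have c2 : ContDiff ℝ ∞ fun x => ∑ j, u x t j * pd j (fun y => u y t i) x :=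
    ContDiff.sum fun j _ => ((ju j).slice ht).mul (contDiff_pd ((ju i).slice ht) j)
  have c3 : ContDiff ℝ ∞ (pd i fun y => p y t) := contDiff_pd (jp.slice ht) i
  have h1 := hasSum_sc_smooth (g := fun x => derivWithin (fun s => u x s i) J t +
      ∑ j, u x t j * pd j (fun y => u y t i) x + pd i (fun y => p y t) x)
    ((c1.add c2).add c3) (fun j x => by
      have e1 : (fun s => u (x + Pi.single j 1) s i) = fun s => u x s i := funext fun s => pui s i j x
      simp only [e1, (pp t).pd i j x, (pui t i).pd _ j x]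
      congr 2
      exact Finset.sum_congr rfl fun l _ => congrArg (· * _) (pui t l j x)) x
  have h2 : ∀ k, sc (fun x => derivWithin (fun s => u x s i) J t +
      ∑ j, u x t j * pd j (fun y => u y t i) x + pd i (fun y => p y t) x) k =
      (-(DS ν D k (a t k))) i := fun k => by
    obtain ⟨T, hT, hTI⟩ := hI t ht
    have h0 : (0 : ℝ) ≤ t := hI0 ht
    have tT : t ∈ Icc 0 T := ⟨h0, hT.le⟩
    have d1 := (ju i).hasDerivWithinAt_sc hJ hTI k tT
    have d2 : HasDerivWithinAt (fun s => a s k i) (FF (AS ν D) (a t) k i) (Icc 0 T) t :=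
      ((EuclideanSpace.proj (𝕜 := ℂ) i).restrictScalars ℝ).hasFDerivAt.comp_hasDerivWithinAt t
        ((ha T (hTI ⟨h0.trans hT.le, le_rfl⟩)).deriv k t tT)
    have ee : ∀ s ∈ Icc 0 T, sc (fun x => u x s i) k = a s k i := fun s hs => by
      rw [← fu s (hTI hs), fc_apply]
    have e1 := (uniqueDiffOn_Icc (h0.trans_lt hT) t tT).eq_deriv _ d1 (d2.congr ee (ee t tT))
    have e2 := congrArg (fun v : C3 => v i) (fc_transport (cu t ht) (pu t) (cu t ht) (pu t) k)
    simp only [fc_apply, fu t ht] at e2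
    rw [sc_add (c1.add c2).continuous c3.continuous, sc_add c1.continuous c2.continuous, e1, e2,
      sc_pd (jp.slice ht) (pp t), sp t ht, FF, AS_apply, LP_apply, LP_apply]
    simp only [pS_apply, PiLp.sub_apply, PiLp.neg_apply, PiLp.smul_apply, smul_eq_mul, cxi,
      dt_add_left]
    push_cast
    linear_combination (2 * Real.pi * (k i : ℂ) * ((ax k : ℂ) ^ 2)⁻¹ *
      (dt (BB (a t) (a t) k) k + dt (DS ν D k (a t k)) k)) * I_mul_I
  simp only [h2] at h1
  have hd : IsData fun x => u x t := ⟨cu t ht, pu t, fun x => du x t ht⟩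
  have h3 := hasSum_symDiss hD ν hd x i
  rw [fu t ht] at h3
  exact_mod_cast h1.unique h3

lemma H1_sup {A : Z3 → C3 →L[ℂ] C3} (hA : Diss ν A) {v : R3 → R3} (hv : IsData v) {M : ℝ}
    (hM : ∀ x, ‖v x‖ ≤ M) :
    2 * QQ H1 (fc v) (FF A (fc v)) + ν * hq 2 (fc v) ≤ 3 * M ^ 2 / ν * QQ H1 (fc v) (fc v) := by
  have hν := hA.pos
  obtain ⟨rp, re, dv, -⟩ := hv.fourier
  obtain ⟨X, hX, hX'⟩ := G.bessel_transport hv hM
  obtain ⟨a, ha⟩ : ∃ a, a = fc v := ⟨_, rfl⟩
  rw [← ha] at rp re dv hX hX' ⊢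
  have rF : Rapid (FF A a) := fun s => by
    obtain ⟨C, m, hC, hg⟩ := hA.growth
    obtain ⟨N, hN⟩ := rp (s + 1)
    obtain ⟨N', hN'⟩ := rp.map hC hg s
    exact ⟨_, (Bd_BB (hN.mono (Nat.le_succ s)) hN).LP.neg.sub hN'⟩
  have e0 : QQ I1 a (FF A a) ≤ 0 := by
    rw [energy_eq hA rp dv re]
    exact neg_nonpos.mpr (QQ_I1_nonneg hA dv)
  have e1 := hasSum_le (fun k => ?_) (((mult_H1.summable rp rF).hasSum.mul_left 2).add
    ((rp.summable_ht 2).hasSum.mul_left ν))
    (((mult_I1.summable rp rF).hasSum.mul_left 2).add (hX.div_const ν))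
  · have e2 : hq 1 a ≤ QQ H1 a a := by
      refine (rp.summable_ht 1).tsum_le_tsum (fun k => ?_) (mult_H1.summable rp rp)
      rw [H1, re_inner_scalar, re_inner_self]
      by_cases hk : k = 0
      · simp [ht, hk]
      · rw [ht_nat 2 (by norm_num) a hk]
        nlinarith [sq_nonneg ‖a k‖]
    have e3 : X / ν ≤ 3 * M ^ 2 / ν * QQ H1 a a := by
      rw [div_mul_eq_mul_div]
      exact div_le_div_of_nonneg_right
        (hX'.trans (mul_le_mul_of_nonneg_left e2 (by positivity))) hν.le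
    change 2 * QQ H1 a _ + ν * hq 2 a ≤ 2 * QQ I1 a _ + _ at e1
    linarith
  · rw [H1, I1, re_inner_scalar, re_inner_scalar, G.hq_two, FF, inner_sub_right, inner_neg_right,
      inner_LP (dv k), sub_re, neg_re]
    have b0 := mul_le_mul_of_nonneg_left (hA.coer k _ (dv k)) (sq_nonneg (ax k))
    have b1 : -(⟪a k, BB a a k⟫_ℂ).re ≤ ‖a k‖ * ‖BB a a k‖ :=
      (neg_le_abs _).trans ((abs_re_le_norm _).trans (norm_inner_le_norm _ _))
    have b2 := mul_le_mul_of_nonneg_left b1 (sq_nonneg (ax k))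
    have b3 : 2 * (ax k ^ 2 * (‖a k‖ * ‖BB a a k‖)) ≤
        ν * (ax k ^ 4 * ‖a k‖ ^ 2) + ‖BB a a k‖ ^ 2 / ν := by
      rw [← sub_nonneg]
      have : ν * (ax k ^ 4 * ‖a k‖ ^ 2) + ‖BB a a k‖ ^ 2 / ν -
          2 * (ax k ^ 2 * (‖a k‖ * ‖BB a a k‖)) = (ν * (ax k ^ 2 * ‖a k‖) - ‖BB a a k‖) ^ 2 / ν := by
        field_simp; ring
      rw [this]; positivity
    nlinarith

/-- If there is no global Fourier-side solution then the classical solution blows up. -/
theorem blowup (hD : IsEllipticSymbol D) (hν : 0 < ν) {a0 : Z3 → C3}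
    (fin : {k | a0 k ≠ 0}.Finite) (re : IsReal a0) (dv : DivFree a0)
    (H : ¬∃ a : ℝ → Z3 → C3, a 0 = a0 ∧ ∀ T, IsSol (AS ν D) a 0 T) :
    ∃ u0 : R3 → R3, IsData u0 ∧ {k | fc u0 k ≠ 0}.Finite ∧
      (∃ T > 0, ∃ u p, IsSolutionOn (symDiss ν D) u0 (Ico 0 T) u p ∧
        (∀ t ∈ Ico 0 T, HasDerivWithinAt (fun s => energy fun x => u x s)
          (-(2 * ν * dissip D fun x => u x t)) (Ico 0 T) t) ∧
        ∀ M : ℝ, ∃ t ∈ Ico 0 T, ∃ x, M < ‖u x t‖) ∧
      ¬∃ u p, IsSolutionOn (symDiss ν D) u0 (Ici 0) u p := by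
  have hA := diss_AS hD hν
  obtain ⟨a, a00, ha⟩ := hA.maximal dv re (G.rapid_of_finite fin)
  obtain ⟨Ts, hTs, ha, hl⟩ := ha.resolve_left fun h => H ⟨a, a00, h⟩
  obtain ⟨u, p, fu, hu⟩ := classical hD hν (J := Ico 0 Ts) Ico_subset_Ici_self Ico_extend
    fun S hS => ha S hS.2
  have z : (0 : ℝ) ∈ Ico 0 Ts := ⟨le_rfl, hTs⟩
  have f0 : (fc fun x => u x 0) = a0 := (fu 0 z).trans a00
  refine ⟨fun x => u x 0, hu.isData_slice z, by rwa [f0],
    ⟨Ts, hTs, u, p, hu, fun t ht => ?_, fun M => ?_⟩, ?_⟩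
  · obtain ⟨T, tT, hT⟩ := exists_between ht.2
    have s := ha T hT
    have tm : t ∈ Icc 0 T := ⟨ht.1, tT.le⟩
    have nb : Icc 0 T ∈ 𝓝[Ico 0 Ts] t :=
      mem_nhdsWithin.mpr ⟨Iio T, isOpen_Iio, tT, fun r hr => ⟨hr.2.1, hr.1.le⟩⟩
    have d := (s.hasDeriv_QQ hA mult_I1 tm).mono_of_mem_nhdsWithin nb
    have hF : ∀ v, energy v = QQ I1 (fc v) (fc v) := fun v => tsum_congr fun k => by
      rw [I1, re_inner_scalar, re_inner_self]; simp
    have hE : -(2 * ν * dissip D fun x => u x t) = 2 * QQ I1 (a t) (FF (AS ν D) (a t)) := by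
      rw [energy_eq hA (s.rapid tm) (s.div t tm) (s.real t tm), dissip, fu t ht, QQ, mul_neg,
        mul_assoc, ← tsum_mul_left]
      congr 2
      refine tsum_congr fun k => ?_
      rw [I1, re_inner_scalar, AS_apply, inner_LP (s.div t tm k), DS_apply, inner_smul_right,
        re_ofReal_mul, inner_mL, one_mul]
      rfl
    rw [hE]
    exact d.congr (fun r hr => by rw [hF, fu r hr]) (by rw [hF, fu t ht])
  · by_contra hc
    push Not at hc
    obtain ⟨Bd, B0, hBd⟩ := osgood (QQ H1 (a 0) (a 0)) (3 * M ^ 2 / ν * Ts) (by positivity)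
    refine hA.no_blowup hTs (K := Bd / ν) (by positivity) ha hl fun T hT => ?_
    have s := ha T hT.2
    have y0 : ∀ t ∈ Icc 0 T, 0 ≤ QQ H1 (a t) (a t) := fun t ht =>
      (sq_nonneg _).trans (QQ_H1_ge (s.rapid ht))
    have k := (hBd T _ _ _ (fun _ => 3 * M ^ 2 / ν) hT.1 rfl
      (fun t ht => s.hasDeriv_QQ hA mult_H1 ht)
      (s.continuousOn_QQ_FF hA mult_H1) (continuousOn_const.mul (s.continuousOn_hq 2)) y0
      (fun t _ => mul_nonneg hν.le (hq_nonneg _ _)) (fun t _ => by positivity) (fun t ht => ?_) ?_).2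
    · rw [div_eq_inv_mul Bd, ENNReal.ofReal_mul (by positivity)]
      refine le_trans ?_ (mul_le_mul_right k _)
      rw [← lintegral_const_mul' _ _ ENNReal.ofReal_ne_top]
      refine setLIntegral_mono' measurableSet_Ioo fun t ht => ?_
      rw [← ENNReal.ofReal_mul (by positivity), Pi.mul_apply, inv_mul_cancel_left₀ hν.ne']
      exact ENNReal.ofReal_le_ofReal ((s.rapid (Ioo_subset_Icc_self ht)).hq_mono (by norm_num))
    · have tm : t ∈ Ico 0 Ts := ⟨ht.1, ht.2.trans_lt hT.2⟩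
      have := H1_sup hA (hu.isData_slice tm) (hc t tm)
      rw [fu t tm] at this
      exact this.trans (mul_le_mul_of_nonneg_left (le_log_form (y0 t ht)) (by positivity))
    · rw [setLIntegral_const, Real.volume_Ioo, ← ENNReal.ofReal_mul (by positivity), sub_zero]
      exact ENNReal.ofReal_le_ofReal (mul_le_mul_of_nonneg_left hT.2.le (by positivity))
  · rintro ⟨u', p', h'⟩
    refine H ⟨fun s => fc fun x => u' x s, ?_, fun T =>
      isSol_symDiss hD h' (uniqueDiffOn_Ici 0) Icc_subset_Ici_self⟩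
    have e : (fun x => u' x 0) = fun x => u x 0 := funext h'.initial
    beta_reduce
    rw [e, f0]

lemma BB_smul (c : ℝ) (a : Z3 → C3) (k : Z3) :
    BB (fun k => (c : ℂ) • a k) (fun k => (c : ℂ) • a k) k = ((c : ℂ) * c) • BB a a k := by
  unfold BB
  rw [← tsum_const_smul'']
  refine tsum_congr fun p => ?_
  rw [dt_smul_left, smul_smul, smul_smul]
  congr 1; ring

/-- Scaling of the viscosity. -/
theorem isSol_scale (hν : 0 < ν) {a : ℝ → Z3 → C3} (ha : ∀ T, IsSol (AS ν D) a 0 T) (T : ℝ) :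
    IsSol (AS 1 D) (fun t k => ((ν⁻¹ : ℝ) : ℂ) • a (ν⁻¹ * t) k) 0 T := by
  have hi : 0 < ν⁻¹ := inv_pos.mpr hν
  have s := ha (ν⁻¹ * T)
  have m : ∀ t ∈ Icc 0 T, ν⁻¹ * t ∈ Icc 0 (ν⁻¹ * T) := fun t ht =>
    ⟨mul_nonneg hi.le ht.1, mul_le_mul_of_nonneg_left ht.2 hi.le⟩
  refine ⟨fun n => ?_, fun t ht k => ?_, fun t ht k => ?_, fun k t ht => ?_⟩
  · obtain ⟨M, hM⟩ := s.bd n
    exact ⟨_, fun t ht => Bd.of_growth (s := n) (m := 0) (C := ν⁻¹) (hM _ (m t ht)) hi.le
      fun k => by simp [norm_smul, abs_of_pos hν]⟩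
  · beta_reduce
    rw [s.real _ (m t ht) k, cj_smul, conj_ofReal]
  · beta_reduce
    rw [dt_smul_left, s.div _ (m t ht) k, mul_zero]
  · have d1 : HasDerivWithinAt (fun t : ℝ => ν⁻¹ * t) ν⁻¹ (Icc 0 T) t := by
      simpa using ((hasDerivAt_id t).const_mul ν⁻¹).hasDerivWithinAt
    have d2 := ((s.deriv k _ (m t ht)).scomp t d1 m).const_smul ((ν⁻¹ : ℝ) : ℂ)
    refine d2.congr_deriv ?_
    have e : ((ν⁻¹ : ℝ) : ℂ) * ν = 1 := by
      rw [← ofReal_mul, inv_mul_cancel₀ hν.ne', ofReal_one]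
    rw [FF, FF, BB_smul, AS_apply, AS_apply, DS_apply, DS_apply, map_smul, map_smul, map_smul,
      map_smul, map_smul, ← Complex.coe_smul, smul_smul, smul_sub, smul_neg, smul_smul, mul_assoc,
      e, mul_one, ofReal_one, one_smul]

/-- The final reduction: it suffices to exclude global Fourier-side solutions for `ν = 1`. -/
theorem blowup_all (hD : IsEllipticSymbol D) {a0 : Z3 → C3} (fin : {k | a0 k ≠ 0}.Finite)
    (re : IsReal a0) (dv : DivFree a0)
    (H : ¬∃ a : ℝ → Z3 → C3, a 0 = a0 ∧ ∀ T, IsSol (AS 1 D) a 0 T) (ν : ℝ) (hν : 0 < ν) :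
    ∃ u0 : R3 → R3, IsData u0 ∧ {k | fc u0 k ≠ 0}.Finite ∧
      (∃ T > 0, ∃ u p, IsSolutionOn (symDiss ν D) u0 (Ico 0 T) u p ∧
        (∀ t ∈ Ico 0 T, HasDerivWithinAt (fun s => energy fun x => u x s)
          (-(2 * ν * dissip D fun x => u x t)) (Ico 0 T) t) ∧
        ∀ M : ℝ, ∃ t ∈ Ico 0 T, ∃ x, M < ‖u x t‖) ∧
      ¬∃ u p, IsSolutionOn (symDiss ν D) u0 (Ici 0) u p := by
  refine blowup hD hν (a0 := fun k => (ν : ℂ) • a0 k) (fin.subset fun k hk h0 => hk ?_)
    (fun k => ?_) (fun k => ?_) ?_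
  · simp [h0]
  · beta_reduce
    rw [re k, cj_smul, conj_ofReal]
  · rw [dt_smul_left, dv k, mul_zero]
  · rintro ⟨a, a0', ha⟩
    refine H ⟨_, ?_, isSol_scale hν ha⟩
    funext k
    rw [mul_zero, a0', smul_smul, ← ofReal_mul, inv_mul_cancel₀ hν.ne', ofReal_one, one_smul]

end

end Pool.Agent.Work.MP_6bf1e5_an.B.Sy
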