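import Pool.Agent.Work.MP_6bf1e5_an.Sym.SDefs

/-!
Elliptic matrix symbols of order `2 α`.
-/

open scoped ContDiff

namespace Pool.Agent.Work.MP_6bf1e5_an.B

noncomputable section

/-- `D` is a smooth, even, symmetric matrix symbol of order `2 α` vanishing at the origin, with
`|ξ|^(2α) ≤ D(ξ)` everywhere, `D(ξ) ≤ C |ξ|^(2α)` for `|ξ| ≥ 1`, and the symbol estimates of the
class `S^(2α)₁,₀`. -/
structure IsSymbol (α C : ℝ) (D : R3 → M3) : Prop where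
  smooth : ContDiff ℝ ∞ D
  symm : ∀ ξ i j, D ξ i j = D ξ j i
  even : ∀ ξ, D (-ξ) = D ξ
  zero : D 0 = 0
  lower : ∀ ξ v : R3, (∑ i, ξ i ^ 2) ^ α * ∑ i, v i ^ 2 ≤ ∑ i, ∑ j, v i * D ξ i j * v j
  upper : ∀ ξ v : R3, 1 ≤ ∑ i, ξ i ^ 2 →
    ∑ i, ∑ j, v i * D ξ i j * v j ≤ C * (∑ i, ξ i ^ 2) ^ α * ∑ i, v i ^ 2
  deriv : ∀ n : ℕ, ∃ K : ℝ, ∀ ξ, ‖iteratedFDeriv ℝ n D ξ‖ ≤ K * (1 + ‖ξ‖) ^ (2 * α - n)

end

end Pool.Agent.Work.MP_6bf1e5_an.B
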