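import Pool.Agent.Work.MP_6bf1e5_an.Hyp.GapB
import Mathlib
import Pool.Agent.Work.MP_6bf1e5_an.Sym.HDefs

-- merged part: Pool.Agent.Work.MP_6bf1e5_an.B.Scheme
section
/-!
A semi-implicit time discretisation of the Fourier-side system and its uniform bounds.
-/

open Set Complex Filter Topology
open scoped InnerProductSpace ComplexConjugate

namespace Pool.Agent.Work.MP_6bf1e5_an.B

noncomputable section

/-- Admissible dissipation operators. -/
structure Diss (ν : ℝ) (A : Z3 → C3 →L[ℂ] C3) : Prop where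
  pos : 0 < ν
  coer : ∀ k v, dt v k = 0 → ν * ax k ^ 2 * ‖v‖ ^ 2 ≤ (⟪v, A k v⟫_ℂ).re
  growth : ∃ (C : ℝ) (m : ℕ), 0 ≤ C ∧ ∀ k v, ‖A k v‖ ≤ C * w k ^ m * ‖v‖
  div : ∀ k v, dt v k = 0 → dt (A k v) k = 0
  real : ∀ k v, A (-k) (cj v) = cj (A k v)

/-- The right-hand side of the Fourier-side system. -/
def FF (A : Z3 → C3 →L[ℂ] C3) (a : Z3 → C3) (k : Z3) : C3 := -(LP k (BB a a k)) - A k (a k)

/-- Rapidly decreasing families. -/
def Rapid {E : Type*} [NormedAddCommGroup E] (a : Z3 → E) : Prop := ∀ s, ∃ M, Bd s a M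

variable {ν : ℝ} {A : Z3 → C3 →L[ℂ] C3}

lemma Diss.res_norm (hA : Diss ν A) {h : ℝ} (hh : 0 ≤ h) {k : Z3} {x : C3} (hx : dt x k = 0) :
    (1 + h * ν * ax k ^ 2) * ‖x‖ ≤ ‖x + (h : ℂ) • A k x‖ := by
  have h1 := hA.coer k x hx
  have h2 : (⟪x, x + (h : ℂ) • A k x⟫_ℂ).re = ‖x‖ ^ 2 + h * (⟪x, A k x⟫_ℂ).re := by
    rw [inner_add_right, inner_smul_right, inner_self_eq_norm_sq_to_K]
    simp [← Complex.ofReal_pow]
  have h3 : (⟪x, x + (h : ℂ) • A k x⟫_ℂ).re ≤ ‖x‖ * ‖x + (h : ℂ) • A k x‖ :=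
    (Complex.re_le_norm _).trans (norm_inner_le_norm _ _)
  rcases (norm_nonneg x).eq_or_lt with h0 | h0
  · rw [← h0, mul_zero]; exact norm_nonneg _
  · have : ‖x‖ * ((1 + h * ν * ax k ^ 2) * ‖x‖) ≤ ‖x‖ * ‖x + (h : ℂ) • A k x‖ := by
      linarith [mul_le_mul_of_nonneg_left h1 hh]
    exact le_of_mul_le_mul_left this h0

lemma Diss.res_inj (hA : Diss ν A) {h : ℝ} (hh : 0 ≤ h) {k : Z3} {x y : C3} (hx : dt x k = 0)
    (hy : dt y k = 0) (e : x + (h : ℂ) • A k x = y + (h : ℂ) • A k y) : x = y := by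
  have hd : dt (x - y) k = 0 := by rw [dt_sub_left, hx, hy, sub_zero]
  have h1 := hA.res_norm hh hd
  have h2 : x - y + (h : ℂ) • A k (x - y) = 0 := by
    rw [map_sub, smul_sub]
    calc x - y + ((h : ℂ) • A k x - (h : ℂ) • A k y)
        = (x + (h : ℂ) • A k x) - (y + (h : ℂ) • A k y) := by abel
      _ = 0 := by rw [e, sub_self]
  rw [h2, norm_zero] at h1
  have hp : 0 < 1 + h * ν * ax k ^ 2 := by have := hA.pos; positivity
  have : ‖x - y‖ ≤ 0 := by
    by_contra hc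
    push Not at hc
    have := mul_pos hp hc
    linarith
  exact sub_eq_zero.mp (norm_le_zero_iff.mp this)

lemma Diss.res_exists (hA : Diss ν A) {h : ℝ} (hh : 0 ≤ h) (k : Z3) {y : C3} (hy : dt y k = 0) :
    ∃ x : C3, dt x k = 0 ∧ x + (h : ℂ) • A k x = y := by
  let S : Submodule ℂ C3 := LinearMap.ker (innerSL ℂ (cxi k) : C3 →L[ℂ] ℂ).toLinearMap
  have hS : ∀ v, v ∈ S ↔ dt v k = 0 := fun v => by simp [S, dt]
  let T : C3 →ₗ[ℂ] C3 := LinearMap.id + (h : ℂ) • (A k).toLinearMap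
  have hT : ∀ v, T v = v + (h : ℂ) • A k v := fun v => by simp [T]
  have hTS : ∀ v ∈ S, T v ∈ S := fun v hv => by
    rw [hS] at hv ⊢
    rw [hT, dt_add_left, dt_smul_left, hv, hA.div k v hv]; simp
  have hinj : Function.Injective (T.restrict hTS) := by
    intro x y e
    apply Subtype.ext
    have e' := congrArg Subtype.val e
    simp only [LinearMap.restrict_apply, hT] at e'
    exact hA.res_inj hh ((hS _).mp x.2) ((hS _).mp y.2) e'
  obtain ⟨x, hx⟩ := (LinearMap.injective_iff_surjective.mp hinj) ⟨y, (hS y).mpr hy⟩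
  refine ⟨x, (hS _).mp x.2, ?_⟩
  have e' := congrArg Subtype.val hx
  simpa only [LinearMap.restrict_apply, hT] using e'

/-- The resolvent on divergence-free vectors. -/
def JJ (A : Z3 → C3 →L[ℂ] C3) (h : ℝ) (k : Z3) (y : C3) : C3 :=
  Classical.epsilon fun x => dt x k = 0 ∧ x + (h : ℂ) • A k x = y

lemma Diss.JJ_spec (hA : Diss ν A) {h : ℝ} (hh : 0 ≤ h) (k : Z3) {y : C3} (hy : dt y k = 0) :
    dt (JJ A h k y) k = 0 ∧ JJ A h k y + (h : ℂ) • A k (JJ A h k y) = y :=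
  Classical.epsilon_spec (hA.res_exists hh k hy)

/-- One step of the scheme. -/
def step (A : Z3 → C3 →L[ℂ] C3) (h : ℝ) (a : Z3 → C3) (k : Z3) : C3 :=
  JJ A h k (a k - (h : ℂ) • LP k (BB a a k))

lemma Diss.step_spec (hA : Diss ν A) {h : ℝ} (hh : 0 ≤ h) {a : Z3 → C3} (da : DivFree a) (k : Z3) :
    dt (step A h a k) k = 0 ∧
      step A h a k + (h : ℂ) • A k (step A h a k) = a k - (h : ℂ) • LP k (BB a a k) :=
  hA.JJ_spec hh k (by rw [dt_sub_left, dt_smul_left, dt_LP, da k]; simp)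

lemma Diss.step_norm (hA : Diss ν A) {h : ℝ} (hh : 0 ≤ h) {a : Z3 → C3} (da : DivFree a) (k : Z3) :
    (1 + h * ν * ax k ^ 2) * ‖step A h a k‖ ≤ ‖a k‖ + h * ‖BB a a k‖ := by
  obtain ⟨h1, h2⟩ := hA.step_spec hh da k
  refine (hA.res_norm hh h1).trans ?_
  rw [h2]
  refine (norm_sub_le _ _).trans ?_
  rw [norm_smul, Complex.norm_real, Real.norm_of_nonneg hh]
  gcongr
  exact norm_LP_le _ _

lemma Diss.step_real (hA : Diss ν A) {h : ℝ} (hh : 0 ≤ h) {a : Z3 → C3} (da : DivFree a)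
    (ra : IsReal a) (hr : Rapid a) : IsReal (step A h a) := by
  intro k
  obtain ⟨M, hM⟩ := hr 1
  obtain ⟨h1, h2⟩ := hA.step_spec hh da k
  obtain ⟨h3, h4⟩ := hA.step_spec hh da (-k)
  refine hA.res_inj hh h3 (by rw [dt_neg_right, dt_cj, h1]; simp) ?_
  rw [h4, hA.real, ra k, BB_real (hM.mono (Nat.zero_le 1)) hM ra ra k, LP_cj]
  have := congrArg cj h2
  simpa [cj_smul] using this.symm

/-- The family weighted by half of the implicit factor. -/
def wt (c : ℝ) (a : Z3 → C3) (k : Z3) : C3 := ((1 + c * ax k ^ 2 : ℝ) : ℂ) • a k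

lemma norm_wt {c : ℝ} (hc : 0 ≤ c) (a : Z3 → C3) (k : Z3) :
    ‖wt c a k‖ = (1 + c * ax k ^ 2) * ‖a k‖ := by
  rw [wt, norm_smul, Complex.norm_real, Real.norm_of_nonneg (by positivity)]

lemma Bd.of_wt {c : ℝ} (hc : 0 ≤ c) {a : Z3 → C3} {s : ℕ} {M : ℝ} (h : Bd s (wt c a) M) :
    Bd s a M := fun F => by
  refine le_trans (Finset.sum_le_sum fun k _ => ?_) (h F)
  rw [norm_wt hc]
  have := w_pos k
  have : 0 ≤ c * ax k ^ 2 := by positivity
  gcongr
  exact le_mul_of_one_le_left (norm_nonneg _) (by linarith)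

lemma Bd.to_wt {c : ℝ} (hc : 0 ≤ c) {a : Z3 → C3} {s : ℕ} {M N : ℝ} (h : Bd s a M)
    (h' : Bd (s + 2) a N) : Bd s (wt c a) (M + c * N) := fun F => by
  calc ∑ k ∈ F, w k ^ s * ‖wt c a k‖
      ≤ ∑ k ∈ F, (w k ^ s * ‖a k‖ + c * (w k ^ (s + 2) * ‖a k‖)) := by
        refine Finset.sum_le_sum fun k _ => ?_
        rw [norm_wt hc]
        have := w_pos k
        have := ax_nonneg k
        have e : ax k ^ 2 ≤ w k ^ 2 := pow_le_pow_left₀ (ax_nonneg k) (ax_le_w k) 2
        calc w k ^ s * ((1 + c * ax k ^ 2) * ‖a k‖) ≤ w k ^ s * ((1 + c * w k ^ 2) * ‖a k‖) := by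
              gcongr
          _ = _ := by ring
    _ ≤ M + c * N := by
        rw [Finset.sum_add_distrib, ← Finset.mul_sum]
        exact add_le_add (h F) (mul_le_mul_of_nonneg_left (h' F) hc)

/-- Growth rate in the discrete Gronwall inequality. -/
def rate (ν : ℝ) (s : ℕ) (M : ℝ) : ℝ := 3 * 2 ^ s * M + (3 * 2 ^ s * M) ^ 2 / (2 * ν)

lemma rate_nonneg (hν : 0 < ν) (s : ℕ) {M : ℝ} (hM : 0 ≤ M) : 0 ≤ rate ν s M := by
  unfold rate; positivity

lemma Diss.step_bd (hA : Diss ν A) {h : ℝ} (hh : 0 ≤ h) {a : Z3 → C3} (da : DivFree a)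
    (hr : Rapid a) {s : ℕ} {M U : ℝ} (h0 : Bd 0 a M) (hU : Bd s (wt (h * ν / 2) a) U) :
    Bd s (wt (h * ν / 2) (step A h a)) ((1 + h * rate ν s M) * U) := by
  have hν := hA.pos
  have hc : 0 ≤ h * ν / 2 := by positivity
  obtain ⟨N, hN⟩ := hr (s + 1)
  have hB := Bd_BB_tame h0 (Bd.of_tsum hN.summable le_rfl)
  have hs : Summable fun k => w k ^ s * ‖a k‖ := (hN.mono (Nat.le_succ s)).summable
  set K := 3 * 2 ^ s * M with hK
  have hK0 : 0 ≤ K := by have := h0.nonneg; positivity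
  intro F
  calc ∑ k ∈ F, w k ^ s * ‖wt (h * ν / 2) (step A h a) k‖
      ≤ ∑ k ∈ F, (w k ^ s * ‖a k‖ + h * (w k ^ s * ‖BB a a k‖)) := by
        refine Finset.sum_le_sum fun k _ => ?_
        rw [norm_wt hc]
        have := w_pos k
        have e := hA.step_norm hh da k
        have e2 : (1 + h * ν / 2 * ax k ^ 2) * ‖step A h a k‖ ≤
            (1 + h * ν * ax k ^ 2) * ‖step A h a k‖ := by
          gcongr; linarith
        calc w k ^ s * ((1 + h * ν / 2 * ax k ^ 2) * ‖step A h a k‖)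
            ≤ w k ^ s * (‖a k‖ + h * ‖BB a a k‖) := by gcongr; exact e2.trans e
          _ = _ := by ring
    _ ≤ (∑' k, w k ^ s * ‖a k‖) + h * (K * ∑' k, w k ^ (s + 1) * ‖a k‖) := by
        rw [Finset.sum_add_distrib, ← Finset.mul_sum]
        exact add_le_add (hs.sum_le_tsum F fun k _ => wn_nonneg s a k)
          (mul_le_mul_of_nonneg_left (hB F) hh)
    _ = ∑' k, (w k ^ s * ‖a k‖ + h * (K * (w k ^ (s + 1) * ‖a k‖))) := by
        rw [hs.tsum_add ((hN.summable.mul_left K).mul_left h), tsum_mul_left, tsum_mul_left]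
    _ ≤ ∑' k, (1 + h * rate ν s M) * (w k ^ s * ‖wt (h * ν / 2) a k‖) := by
        refine (hs.add ((hN.summable.mul_left K).mul_left h)).tsum_le_tsum (fun k => ?_)
          (hU.summable.mul_left _)
        rw [norm_wt hc]
        have hw := w_pos k
        have hx := ax_nonneg k
        have e1 : K * ax k ≤ ν / 2 * ax k ^ 2 + K ^ 2 / (2 * ν) := by
          have : ν / 2 * ax k ^ 2 + K ^ 2 / (2 * ν) - K * ax k = (ν * ax k - K) ^ 2 / (2 * ν) := by
            field_simp; ring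
          have : 0 ≤ (ν * ax k - K) ^ 2 / (2 * ν) := by positivity
          linarith
        have hr0 : 0 ≤ rate ν s M := rate_nonneg hν s h0.nonneg
        have e2 : 1 + h * (K * w k) ≤ (1 + h * rate ν s M) * (1 + h * ν / 2 * ax k ^ 2) := by
          have e3 : rate ν s M = K + K ^ 2 / (2 * ν) := rfl
          have e4 : 0 ≤ h * rate ν s M * (h * ν / 2 * ax k ^ 2) := by positivity
          have e5 : h * (K * w k) ≤ h * (rate ν s M + ν / 2 * ax k ^ 2) := by
            refine mul_le_mul_of_nonneg_left ?_ hh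
            rw [e3, w]; linarith only [e1]
          linarith only [e4, e5]
        calc w k ^ s * ‖a k‖ + h * (K * (w k ^ (s + 1) * ‖a k‖))
            = (1 + h * (K * w k)) * (w k ^ s * ‖a k‖) := by ring
          _ ≤ ((1 + h * rate ν s M) * (1 + h * ν / 2 * ax k ^ 2)) * (w k ^ s * ‖a k‖) := by
              gcongr
          _ = _ := by ring
    _ ≤ (1 + h * rate ν s M) * U := by
        rw [tsum_mul_left]
        have hr0 : 0 ≤ rate ν s M := rate_nonneg hν s h0.nonneg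
        exact mul_le_mul_of_nonneg_left hU.tsum_le (by positivity)

lemma Diss.step_rapid (hA : Diss ν A) {h : ℝ} (hh : 0 ≤ h) {a : Z3 → C3} (da : DivFree a)
    (hr : Rapid a) : Rapid (step A h a) := by
  intro s
  have hc : 0 ≤ h * ν / 2 := by have := hA.pos; positivity
  obtain ⟨M, hM⟩ := hr 0
  obtain ⟨M1, hM1⟩ := hr s
  obtain ⟨M2, hM2⟩ := hr (s + 2)
  exact ⟨_, (hA.step_bd hh da hr hM (hM1.to_wt hc hM2)).of_wt hc⟩

/-- The iterates of the scheme. -/
def sq (A : Z3 → C3 →L[ℂ] C3) (h : ℝ) (a : Z3 → C3) (n : ℕ) : Z3 → C3 := (step A h)^[n] a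

lemma sq_succ (h : ℝ) (a : Z3 → C3) (n : ℕ) : sq A h a (n + 1) = step A h (sq A h a n) :=
  Function.iterate_succ_apply' _ _ _

lemma Diss.sq_props (hA : Diss ν A) {h : ℝ} (hh : 0 ≤ h) {a : Z3 → C3} (da : DivFree a)
    (ra : IsReal a) (hr : Rapid a) (n : ℕ) :
    DivFree (sq A h a n) ∧ IsReal (sq A h a n) ∧ Rapid (sq A h a n) := by
  induction n with
  | zero => exact ⟨da, ra, hr⟩
  | succ n ih =>
    obtain ⟨h1, h2, h3⟩ := ih
    rw [sq_succ]
    exact ⟨fun k => (hA.step_spec hh h1 k).1, hA.step_real hh h1 h2 h3, hA.step_rapid hh h1 h3⟩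

lemma Diss.sq_bd_zero (hA : Diss ν A) {h : ℝ} (hh : 0 ≤ h) {a : Z3 → C3} (da : DivFree a)
    (ra : IsReal a) (hr : Rapid a) {M : ℝ} (hM : Bd 0 (wt (h * ν / 2) a) M) (n : ℕ)
    (hn : n * h * rate ν 0 (2 * M) ≤ 1 / 2) :
    Bd 0 (wt (h * ν / 2) (sq A h a n)) (Real.exp (n * h * rate ν 0 (2 * M)) * M) := by
  have hν := hA.pos
  have hc : 0 ≤ h * ν / 2 := by positivity
  have hM0 := hM.nonneg
  have hr0 : 0 ≤ rate ν 0 (2 * M) := rate_nonneg hν 0 (by positivity)
  induction n with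
  | zero => simpa [sq] using hM
  | succ n ih =>
    have hn' : n * h * rate ν 0 (2 * M) ≤ 1 / 2 := by
      refine le_trans ?_ hn
      push_cast
      gcongr
      linarith only []
    have ih' := ih hn'
    obtain ⟨h1, -, h3⟩ := hA.sq_props hh da ra hr n
    have e : Real.exp (n * h * rate ν 0 (2 * M)) ≤ 2 := by
      calc Real.exp (n * h * rate ν 0 (2 * M)) ≤ Real.exp (1 / 2) := Real.exp_le_exp.mpr hn'
        _ ≤ 2 := by
          have := Real.exp_bound_div_one_sub_of_interval (x := 1 / 2) (by norm_num) (by norm_num)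
          norm_num at this ⊢; exact this
    have h0 : Bd 0 (sq A h a n) (2 * M) := (ih'.of_wt hc).mono_right (by gcongr)
    rw [sq_succ]
    refine (hA.step_bd hh h1 h3 h0 ih').mono_right ?_
    rw [← mul_assoc]
    gcongr
    calc (1 + h * rate ν 0 (2 * M)) * Real.exp (n * h * rate ν 0 (2 * M))
        ≤ Real.exp (h * rate ν 0 (2 * M)) * Real.exp (n * h * rate ν 0 (2 * M)) := by
          gcongr
          linarith only [Real.add_one_le_exp (h * rate ν 0 (2 * M))]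
      _ = _ := by rw [← Real.exp_add]; congr 1; push_cast; ring

lemma Diss.sq_bd_zero' (hA : Diss ν A) {h : ℝ} (hh : 0 ≤ h) {a : Z3 → C3} (da : DivFree a)
    (ra : IsReal a) (hr : Rapid a) {M : ℝ} (hM : Bd 0 (wt (h * ν / 2) a) M) (n : ℕ)
    (hn : n * h * rate ν 0 (2 * M) ≤ 1 / 2) : Bd 0 (sq A h a n) (2 * M) := by
  have hc : 0 ≤ h * ν / 2 := by have := hA.pos; positivity
  refine ((hA.sq_bd_zero hh da ra hr hM n hn).of_wt hc).mono_right ?_
  have hM0 := hM.nonneg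
  gcongr
  calc Real.exp (n * h * rate ν 0 (2 * M)) ≤ Real.exp (1 / 2) := Real.exp_le_exp.mpr hn
    _ ≤ 2 := by
      have := Real.exp_bound_div_one_sub_of_interval (x := 1 / 2) (by norm_num) (by norm_num)
      norm_num at this ⊢; exact this

lemma Diss.sq_bd (hA : Diss ν A) {h : ℝ} (hh : 0 ≤ h) {a : Z3 → C3} (da : DivFree a)
    (ra : IsReal a) (hr : Rapid a) {M : ℝ} (hM : Bd 0 (wt (h * ν / 2) a) M) {s : ℕ} {U : ℝ}
    (hU : Bd s (wt (h * ν / 2) a) U) (n : ℕ) (hn : n * h * rate ν 0 (2 * M) ≤ 1 / 2) :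
    Bd s (wt (h * ν / 2) (sq A h a n)) (Real.exp (n * h * rate ν s (2 * M)) * U) := by
  have hν := hA.pos
  have hM0 := hM.nonneg
  have hr0 : 0 ≤ rate ν 0 (2 * M) := rate_nonneg hν 0 (by positivity)
  induction n with
  | zero => simpa [sq] using hU
  | succ n ih =>
    have hn' : n * h * rate ν 0 (2 * M) ≤ 1 / 2 := by
      refine le_trans ?_ hn
      push_cast
      gcongr
      linarith only []
    have ih' := ih hn'
    obtain ⟨h1, -, h3⟩ := hA.sq_props hh da ra hr n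
    have h0 := hA.sq_bd_zero' hh da ra hr hM n hn'
    rw [sq_succ]
    refine (hA.step_bd hh h1 h3 h0 ih').mono_right ?_
    rw [← mul_assoc]
    have := hU.nonneg
    gcongr
    calc (1 + h * rate ν s (2 * M)) * Real.exp (n * h * rate ν s (2 * M))
        ≤ Real.exp (h * rate ν s (2 * M)) * Real.exp (n * h * rate ν s (2 * M)) := by
          gcongr
          linarith only [Real.add_one_le_exp (h * rate ν s (2 * M))]
      _ = _ := by rw [← Real.exp_add]; congr 1; push_cast; ring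

/-- The guaranteed existence time for data of Wiener norm at most `X`. -/
def life (ν X : ℝ) : ℝ := 1 / (4 * rate ν 0 (2 * (X + 1)))

lemma rate_pos (hν : 0 < ν) {X : ℝ} (hX : 0 ≤ X) : 0 < rate ν 0 (2 * (X + 1)) := by
  unfold rate; positivity

lemma life_pos (hν : 0 < ν) {X : ℝ} (hX : 0 ≤ X) : 0 < life ν X := by
  have := rate_pos hν hX
  unfold life; positivity

/-- Uniform bounds for the scheme on the time interval `[0, 2 * life]`. -/
lemma Diss.scheme_bounds (hA : Diss ν A) {a : Z3 → C3} (da : DivFree a) (ra : IsReal a)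
    (hr : Rapid a) {X : ℝ} (hX : Bd 0 a X) :
    ∃ h0 : ℝ, 0 < h0 ∧ ∃ M : ℕ → ℝ, ∀ s, ∀ h, 0 ≤ h → h ≤ h0 → ∀ n : ℕ, n * h ≤ 2 * life ν X →
      Bd s (sq A h a n) (M s) := by
  have hν := hA.pos
  choose N hN using hr
  have hN2 := (hN 2).nonneg
  have hX0 := hX.nonneg
  have hrp := rate_pos hν hX0
  set h0 := 1 / (ν * (N 2 + 1)) with hh0
  have h0pos : 0 < h0 := by positivity
  refine ⟨h0, h0pos, fun s => Real.exp (2 * life ν X * rate ν s (2 * (X + 1))) *
    (N s + h0 * ν / 2 * N (s + 2)), fun s h hh hle n hn => ?_⟩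
  have hc : 0 ≤ h * ν / 2 := by positivity
  have hM : Bd 0 (wt (h * ν / 2) a) (X + 1) := by
    refine (hX.to_wt hc (hN 2)).mono_right ?_
    have : h * ν / 2 * N 2 ≤ h0 * ν / 2 * (N 2 + 1) := by gcongr; linarith only []
    have e : h0 * ν / 2 * (N 2 + 1) = 1 / 2 := by rw [hh0]; field_simp
    linarith only [this, e]
  have hn' : n * h * rate ν 0 (2 * (X + 1)) ≤ 1 / 2 := by
    calc n * h * rate ν 0 (2 * (X + 1)) ≤ 2 * life ν X * rate ν 0 (2 * (X + 1)) := by gcongr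
      _ = 1 / 2 := by unfold life; field_simp; norm_num
  refine ((hA.sq_bd hh da ra (fun s => ⟨_, hN s⟩) hM ((hN s).to_wt hc (hN (s + 2))) n hn').of_wt
    hc).mono_right ?_
  have := (hN s).nonneg
  have := (hN (s + 2)).nonneg
  have := rate_nonneg hν s (M := 2 * (X + 1)) (by positivity)
  change Real.exp (n * h * rate ν s (2 * (X + 1))) * (N s + h * ν / 2 * N (s + 2)) ≤
    Real.exp (2 * life ν X * rate ν s (2 * (X + 1))) * (N s + h0 * ν / 2 * N (s + 2))
  gcongr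

end

end Pool.Agent.Work.MP_6bf1e5_an.B
end

-- merged part: Pool.Agent.Work.MP_6bf1e5_an.B.Local
section
/-!
Local existence of rapidly decreasing solutions of the Fourier-side system, with a lifespan
that depends only on the Wiener norm of the data.
-/

open Set Complex Filter Topology
open scoped InnerProductSpace ComplexConjugate

namespace Pool.Agent.Work.MP_6bf1e5_an.B

noncomputable section

variable {ν : ℝ} {A : Z3 → C3 →L[ℂ] C3}

/-- Solutions of the Fourier-side system on a compact interval. -/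
structure IsSol (A : Z3 → C3 →L[ℂ] C3) (a : ℝ → Z3 → C3) (t0 t1 : ℝ) : Prop where
  bd : ∀ s, ∃ M, ∀ t ∈ Icc t0 t1, Bd s (a t) M
  real : ∀ t ∈ Icc t0 t1, IsReal (a t)
  div : ∀ t ∈ Icc t0 t1, DivFree (a t)
  deriv : ∀ k, ∀ t ∈ Icc t0 t1, HasDerivWithinAt (fun t => a t k) (FF A (a t) k) (Icc t0 t1) t

/-- The increment of the scheme. -/
def GG (A : Z3 → C3 →L[ℂ] C3) (h : ℝ) (a : Z3 → C3) (n : ℕ) (k : Z3) : C3 :=
  -(LP k (BB (sq A h a n) (sq A h a n) k)) - A k (sq A h a (n + 1) k)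

lemma Diss.sq_incr (hA : Diss ν A) {h : ℝ} (hh : 0 ≤ h) {a : Z3 → C3} (da : DivFree a)
    (ra : IsReal a) (hr : Rapid a) (n : ℕ) (k : Z3) :
    sq A h a (n + 1) k - sq A h a n k = h • GG A h a n k := by
  obtain ⟨h1, -, -⟩ := hA.sq_props hh da ra hr n
  have := (hA.step_spec hh h1 k).2
  rw [← sq_succ] at this
  rw [GG, smul_sub, smul_neg, ← Complex.coe_smul, ← Complex.coe_smul]
  linear_combination (norm := abel1) this

lemma Bd.LP {s : ℕ} {a : Z3 → C3} {M : ℝ} (h : Bd s a M) : Bd s (fun k => LP k (a k)) M := by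
  have := Bd.of_growth (s := s) (m := 0) (C := 1) (b := fun k => B.LP k (a k)) h zero_le_one
    (fun k => by simpa using norm_LP_le k (a k))
  simpa using this

lemma Bd.smul_real {s : ℕ} {a : Z3 → C3} {M : ℝ} (h : Bd s a M) {c : ℝ} (hc : 0 ≤ c) :
    Bd s (fun k => c • a k) (c * M) :=
  Bd.of_growth (s := s) (m := 0) h hc fun k => by
    simp [norm_smul, abs_of_nonneg hc]

lemma Bd.zero (s : ℕ) : Bd s (fun _ : Z3 => (0 : C3)) 0 := fun F => by simp

section Incr

variable (hA : Diss ν A) {h : ℝ} (hh : 0 ≤ h) {a : Z3 → C3} (da : DivFree a)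
  (ra : IsReal a) (hr : Rapid a) {T : ℝ} {M : ℕ → ℝ}
  (hM : ∀ s, ∀ n : ℕ, n * h ≤ T → Bd s (sq A h a n) (M s))
  {C : ℝ} {m : ℕ} (hC : 0 ≤ C) (hg : ∀ k v, ‖A k v‖ ≤ C * w k ^ m * ‖v‖)

include hh hM hC hg in
lemma GG_bd (s n : ℕ) (hn : (n + 1 : ℕ) * h ≤ T) :
    Bd s (GG A h a n) (M s * M (s + 1) + C * M (s + m)) := by
  have hn' : n * h ≤ T := le_trans (by push_cast; linarith) hn
  exact (Bd_BB (hM s n hn') (hM (s + 1) n hn')).LP.neg.sub
    (Bd.of_growth (hM (s + m) (n + 1) hn) hC fun k => hg k _)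

include hA hh da ra hr hM hC hg in
lemma sq_diff_bd (s n d : ℕ) (hn : (n + d : ℕ) * h ≤ T) :
    Bd s (fun k => sq A h a (n + d) k - sq A h a n k)
      (d * h * (M s * M (s + 1) + C * M (s + m))) := by
  induction d with
  | zero => simpa using Bd.zero s
  | succ d ih =>
    have hn' : (n + d : ℕ) * h ≤ T := le_trans (by push_cast; linarith) hn
    have h1 := (GG_bd hh hM hC hg s (n + d) hn).smul_real hh
    have h2 := (ih hn').add h1
    have e : (fun k => sq A h a (n + (d + 1)) k - sq A h a n k) =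
        fun k => (sq A h a (n + d) k - sq A h a n k) + h • GG A h a (n + d) k := by
      funext k
      rw [← hA.sq_incr hh da ra hr, ← add_assoc]; abel
    rw [e]
    refine h2.mono_right (le_of_eq ?_)
    push_cast; ring

include hA hh da ra hr hM hC hg in
lemma GG_diff (n d : ℕ) (hn : (n + d + 1 : ℕ) * h ≤ T) (k : Z3) :
    ‖GG A h a (n + d) k - GG A h a n k‖ ≤
      (2 * M 1 * (M 1 * M 2 + C * M (1 + m)) + C * (M m * M (m + 1) + C * M (m + m))) * (d * h) := by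
  have hn1 : (n + d : ℕ) * h ≤ T := le_trans (by push_cast; linarith) hn
  have hd : (0 : ℝ) ≤ d * h := by positivity
  have hn2 : (n : ℕ) * h ≤ T := le_trans (by push_cast; linarith) hn1
  have hn3 : (n + 1 + d : ℕ) * h ≤ T := by rw [add_right_comm]; exact hn
  have b1 := sq_diff_bd hA hh da ra hr hM hC hg 1 n d hn1
  have b2 := sq_diff_bd hA hh da ra hr hM hC hg m (n + 1) d hn3
  have e : GG A h a (n + d) k - GG A h a n k =
      -(LP k (BB (sq A h a (n + d)) (sq A h a (n + d)) k - BB (sq A h a n) (sq A h a n) k)) -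
        A k (sq A h a (n + 1 + d) k - sq A h a (n + 1) k) := by
    simp only [GG, map_sub, add_right_comm n 1 d]; abel
  rw [e, BB_sub_self (hM 1 _ hn1) (hM 1 _ hn2)]
  have c1 := norm_BB_le (b1.mono (Nat.zero_le 1)) (hM 1 _ hn1) k
  have c2 := norm_BB_le ((hM 1 _ hn2).mono (Nat.zero_le 1)) b1 k
  have c3 := b2.pt k
  have c4 := hg k (sq A h a (n + 1 + d) k - sq A h a (n + 1) k)
  have c5 : C * w k ^ m * ‖sq A h a (n + 1 + d) k - sq A h a (n + 1) k‖ ≤
      C * (d * h * (M m * M (m + 1) + C * M (m + m))) := by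
    rw [mul_assoc]; exact mul_le_mul_of_nonneg_left c3 hC
  refine (norm_sub_le _ _).trans ?_
  rw [norm_neg]
  have c6 := (norm_LP_le k _).trans ((norm_add_le _ _).trans (add_le_add c1 c2))
  have : (1 + 1 : ℕ) = 2 := rfl
  rw [this] at c6
  linarith only [c4, c5, c6]

include hA hh da ra hr hM hC hg in
lemma sq_taylor {L : ℝ}
    (hL : L = 2 * M 1 * (M 1 * M 2 + C * M (1 + m)) + C * (M m * M (m + 1) + C * M (m + m)))
    (n d j : ℕ) (hj : j ≤ d) (hn : (n + d + 1 : ℕ) * h ≤ T) (k : Z3) (i : ℕ) (hi : i ≤ d) :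
    ‖sq A h a (n + j) k - sq A h a n k - (j * h) • GG A h a (n + i) k‖ ≤ L * (d * h) * (j * h) := by
  have h00 : (0 : ℕ) * h ≤ T := le_trans (by gcongr; omega) hn
  have hL0 : 0 ≤ L := by
    have := (hM 1 0 h00).nonneg
    have := (hM 2 0 h00).nonneg
    have := (hM m 0 h00).nonneg
    have := (hM (1 + m) 0 h00).nonneg
    have := (hM (m + 1) 0 h00).nonneg
    have := (hM (m + m) 0 h00).nonneg
    rw [hL]; positivity
  induction j with
  | zero => simp
  | succ j ih =>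
    have ih' := ih (by omega)
    have e : sq A h a (n + (j + 1)) k - sq A h a n k - (((j + 1 : ℕ) : ℝ) * h) • GG A h a (n + i) k =
        (sq A h a (n + j) k - sq A h a n k - (j * h) • GG A h a (n + i) k) +
          h • (GG A h a (n + j) k - GG A h a (n + i) k) := by
      have := hA.sq_incr hh da ra hr (n + j) k
      rw [smul_sub, ← this, ← add_assoc]
      push_cast
      rw [add_mul, add_smul, one_mul]
      abel
    have hG : ‖GG A h a (n + j) k - GG A h a (n + i) k‖ ≤ L * (d * h) := by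
      rcases le_total i j with hij | hij
      · obtain ⟨e', rfl⟩ := Nat.exists_eq_add_of_le hij
        have := GG_diff hA hh da ra hr hM hC hg (n + i) e'
          (le_trans (mul_le_mul_of_nonneg_right (Nat.cast_le.mpr (by omega)) hh) hn) k
        rw [← hL, add_assoc] at this
        refine this.trans ?_
        gcongr; omega
      · obtain ⟨e', rfl⟩ := Nat.exists_eq_add_of_le hij
        have := GG_diff hA hh da ra hr hM hC hg (n + j) e'
          (le_trans (mul_le_mul_of_nonneg_right (Nat.cast_le.mpr (by omega)) hh) hn) k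
        rw [← hL, add_assoc, norm_sub_rev] at this
        refine this.trans ?_
        gcongr; omega
    rw [e]
    refine (norm_add_le _ _).trans ?_
    rw [norm_smul, Real.norm_of_nonneg hh]
    have := mul_le_mul_of_nonneg_left hG hh
    push_cast
    linarith only [ih', this]

include hA hh da ra hr hM hC hg in
lemma sq_taylor' {L : ℝ}
    (hL : L = 2 * M 1 * (M 1 * M 2 + C * M (1 + m)) + C * (M m * M (m + 1) + C * M (m + m)))
    (i j : ℕ) (hi : (i + 1 : ℕ) * h ≤ T) (hj : (j + 1 : ℕ) * h ≤ T) (k : Z3) :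
    ‖sq A h a j k - sq A h a i k - (j * h - i * h) • GG A h a i k‖ ≤ L * (j * h - i * h) ^ 2 := by
  rcases le_total i j with hij | hij
  · obtain ⟨d, rfl⟩ := Nat.exists_eq_add_of_le hij
    have := sq_taylor hA hh da ra hr hM hC hg hL i d d le_rfl hj k 0 (Nat.zero_le d)
    have e : ((i + d : ℕ) : ℝ) * h - i * h = d * h := by push_cast; ring
    rw [e]
    simpa [sq, mul_assoc, pow_two] using this
  · obtain ⟨d, rfl⟩ := Nat.exists_eq_add_of_le hij
    have := sq_taylor hA hh da ra hr hM hC hg hL j d d le_rfl hi k d le_rfl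
    have e : (j : ℝ) * h - ((j + d : ℕ) : ℝ) * h = -(d * h) := by push_cast; ring
    rw [e, ← norm_neg]
    have e2 : -(sq A h a j k - sq A h a (j + d) k - -((d : ℝ) * h) • GG A h a (j + d) k) =
        sq A h a (j + d) k - sq A h a j k - ((d : ℝ) * h) • GG A h a (j + d) k := by
      rw [neg_smul]; abel
    rw [e2]
    refine this.trans (le_of_eq ?_)
    ring

end Incr

lemma Bd.of_tendsto {ι : Type*} {l : Filter ι} [l.NeBot] {s : ℕ} {f : ι → Z3 → C3} {a : Z3 → C3}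
    {M : ℝ} (hf : ∀ k, Tendsto (fun i => f i k) l (𝓝 (a k))) (hb : ∀ᶠ i in l, Bd s (f i) M) :
    Bd s a M := fun F =>
  le_of_tendsto (tendsto_finsetSum F fun k _ => (hf k).norm.const_mul (w k ^ s))
    (hb.mono fun _ hi => hi F)

lemma tendsto_BB {ι : Type*} {l : Filter ι} {f g : ι → Z3 → C3} {a b : Z3 → C3} {M N : ℝ}
    (hf : ∀ k, Tendsto (fun i => f i k) l (𝓝 (a k)))
    (hg : ∀ k, Tendsto (fun i => g i k) l (𝓝 (b k)))
    (hb : ∀ᶠ i in l, Bd 4 (f i) M ∧ Bd 1 (g i) N) (k : Z3) :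
    Tendsto (fun i => BB (f i) (g i) k) l (𝓝 (BB a b k)) := by
  unfold BB
  refine tendsto_tsum_of_dominated_convergence (bound := fun p => M * (w p ^ 4)⁻¹ * N)
    ((summable_w_inv.mul_left M).mul_right N) (fun p => ?_) (hb.mono fun i hi p => ?_)
  · exact ((((continuous_dt (k - p)).tendsto _).comp (hf p)).const_mul I).smul (hg (k - p))
  · refine (norm_BB_term_le _ _ _ _).trans ?_
    have h1 := Bd.decay (s := 0) hi.1 p
    rw [pow_zero, one_mul] at h1
    have := hi.1.nonneg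
    have := w_pos p
    exact mul_le_mul h1 (ax_mul_le hi.2 _) (mul_nonneg (ax_nonneg _) (norm_nonneg _))
      (by positivity)

/-- Local existence starting at time zero. -/
theorem Diss.local_exists_zero (hA : Diss ν A) {a0 : Z3 → C3} (da : DivFree a0) (ra : IsReal a0)
    (hr : Rapid a0) {X : ℝ} (hX : Bd 0 a0 X) :
    ∃ a, IsSol A a 0 (life ν X) ∧ a 0 = a0 := by
  obtain ⟨h0, h0pos, M, hM⟩ := hA.scheme_bounds da ra hr hX
  obtain ⟨C, m, hC, hg⟩ := hA.growth
  set T := life ν X with hT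
  have Tpos : 0 < T := life_pos hA.pos hX.nonneg
  set hs : ℕ → ℝ := fun N => T / (N + 1) with hhs
  have hspos : ∀ N, 0 < hs N := fun N => by simp only [hhs]; positivity
  let U : Filter ℕ := hyperfilter ℕ
  have hU : U ≤ atTop := Nat.hyperfilter_le_atTop
  have hs0 : Tendsto hs U (𝓝 0) := by
    have : Tendsto hs atTop (𝓝 0) := by
      have := tendsto_one_div_add_atTop_nhds_zero_nat (𝕜 := ℝ).const_mul T
      simpa [hhs, div_eq_mul_inv] using this
    exact this.mono_left hU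
  have hev : ∀ᶠ N in U, hs N ≤ h0 := hs0.eventually (ge_mem_nhds h0pos)
  set nn : ℕ → ℝ → ℕ := fun N t => ⌊t / hs N⌋₊ with hnn
  have n1 : ∀ N, ∀ t ∈ Icc 0 T, nn N t * hs N ≤ t := fun N t ht => by
    have := Nat.floor_le (div_nonneg ht.1 (hspos N).le)
    rwa [le_div_iff₀ (hspos N)] at this
  have n2 : ∀ N t, t < (nn N t + 1) * hs N := fun N t => by
    have := Nat.lt_floor_add_one (t / hs N)
    rwa [div_lt_iff₀ (hspos N)] at this
  have hsT : ∀ N, hs N ≤ T := fun N => by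
    simp only [hhs]
    exact div_le_self Tpos.le (by linarith only [Nat.cast_nonneg (α := ℝ) N])
  have n3 : ∀ N, ∀ t ∈ Icc 0 T, ((nn N t + 1 : ℕ) : ℝ) * hs N ≤ 2 * T := fun N t ht => by
    have := n1 N t ht
    have := hsT N
    have := ht.2
    push_cast; linarith
  have n4 : ∀ N, ∀ t ∈ Icc 0 T, (nn N t : ℝ) * hs N ≤ 2 * T := fun N t ht => by
    have := n1 N t ht
    have := ht.2
    linarith
  have n5 : ∀ t ∈ Icc 0 T, Tendsto (fun N => (nn N t : ℝ) * hs N) U (𝓝 t) := fun t ht => by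
    have l : Tendsto (fun N => t - hs N) U (𝓝 t) := by simpa using tendsto_const_nhds.sub hs0
    refine tendsto_of_tendsto_of_tendsto_of_le_of_le l tendsto_const_nhds (fun N => ?_)
      (fun N => n1 N t ht)
    have := n2 N t
    simp only; linarith only [this]
  set f : ℕ → ℝ → Z3 → C3 := fun N t => sq A (hs N) a0 (nn N t) with hf
  have fb : ∀ s, ∀ t ∈ Icc 0 T, ∀ᶠ N in U, Bd s (f N t) (M s) := fun s t ht =>
    hev.mono fun N hN => hM s _ (hspos N).le hN _ (n4 N t ht)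
  have lim : ∀ t k, ∃ x : C3, t ∈ Icc 0 T → Tendsto (fun N => f N t k) U (𝓝 x) := by
    intro t k
    by_cases ht : t ∈ Icc 0 T
    · obtain ⟨x, -, hx⟩ := (isCompact_closedBall (0 : C3) (M 0)).ultrafilter_le_nhds'
        ((hyperfilter ℕ).map fun N => f N t k) (by
          rw [Ultrafilter.mem_map]
          exact (fb 0 t ht).mono fun N hN => by simpa using hN.norm_le k)
      exact ⟨x, fun _ => hx⟩
    · exact ⟨0, fun h => absurd h ht⟩
  choose a ha using lim
  have props := fun N n => hA.sq_props (hspos N).le da ra hr n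
  have abd : ∀ s, ∀ t ∈ Icc 0 T, Bd s (a t) (M s) := fun s t ht =>
    Bd.of_tendsto (fun k => ha t k ht) (fb s t ht)
  have Glim : ∀ t ∈ Icc 0 T, ∀ k,
      Tendsto (fun N => GG A (hs N) a0 (nn N t) k) U (𝓝 (FF A (a t) k)) := by
    intro t ht k
    have l1 := tendsto_BB (fun k => ha t k ht) (fun k => ha t k ht)
      ((fb 4 t ht).and (fb 1 t ht)) k
    have l2 : Tendsto (fun N => sq A (hs N) a0 (nn N t + 1) k) U (𝓝 (a t k)) := by
      have l3 : Tendsto (fun N => sq A (hs N) a0 (nn N t + 1) k - f N t k) U (𝓝 0) := by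
        have l4 := hs0.mul_const (M 0 * M (0 + 1) + C * M (0 + m))
        rw [zero_mul] at l4
        refine squeeze_zero_norm' (hev.mono fun N hN => ?_) l4
        have := sq_diff_bd hA (hspos N).le da ra hr (fun s n hn => hM s _ (hspos N).le hN n hn)
          hC hg 0 (nn N t) 1 (n3 N t ht)
        simpa using this.norm_le k
      simpa using l3.add (ha t k ht)
    exact (((LP k).continuous.tendsto _).comp l1).neg.sub (((A k).continuous.tendsto _).comp l2)
  set L := 2 * M 1 * (M 1 * M 2 + C * M (1 + m)) + C * (M m * M (m + 1) + C * M (m + m)) with hL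
  have tay : ∀ t ∈ Icc 0 T, ∀ t' ∈ Icc 0 T, ∀ k,
      ‖a t' k - a t k - (t' - t) • FF A (a t) k‖ ≤ L * (t' - t) ^ 2 := by
    intro t ht t' ht' k
    have l1 := (((ha t' k ht').sub (ha t k ht)).sub
      (((n5 t' ht').sub (n5 t ht)).smul (Glim t ht k))).norm
    have l2 := (((n5 t' ht').sub (n5 t ht)).pow 2).const_mul L
    exact le_of_tendsto_of_tendsto l1 l2 (hev.mono fun N hN =>
      sq_taylor' hA (hspos N).le da ra hr (fun s n hn => hM s _ (hspos N).le hN n hn) hC hg hL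
        _ _ (n3 N t ht) (n3 N t' ht') k)
  refine ⟨a, ⟨fun s => ⟨M s, abd s⟩, fun t ht k => ?_, fun t ht k => ?_, fun k t ht => ?_⟩, ?_⟩
  · refine tendsto_nhds_unique (ha t (-k) ht) ?_
    have := (cj.continuous.tendsto _).comp (ha t k ht)
    refine this.congr fun N => ?_
    exact ((props N _).2.1 k).symm
  · have := ((continuous_dt k).tendsto _).comp (ha t k ht)
    refine tendsto_nhds_unique this ?_
    refine tendsto_const_nhds.congr fun N => ?_
    exact ((props N _).1 k).symm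
  · rw [hasDerivWithinAt_iff_isLittleO]
    refine Asymptotics.IsBigO.trans_isLittleO (g := fun t' => ‖t' - t‖ ^ 2) ?_
      ((Asymptotics.isLittleO_pow_sub_sub t one_lt_two).mono nhdsWithin_le_nhds)
    refine Asymptotics.IsBigO.of_bound L ?_
    filter_upwards [self_mem_nhdsWithin] with t' ht'
    simpa using tay t ht t' ht' k
  · funext k
    have h0 : (0 : ℝ) ∈ Icc 0 T := ⟨le_rfl, Tpos.le⟩
    refine tendsto_nhds_unique (ha 0 k h0) ?_
    refine tendsto_const_nhds.congr fun N => ?_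
    simp [hf, hnn, sq]

/-- Local existence starting at an arbitrary time. -/
theorem Diss.local_exists (hA : Diss ν A) {a0 : Z3 → C3} (da : DivFree a0) (ra : IsReal a0)
    (hr : Rapid a0) {X : ℝ} (hX : Bd 0 a0 X) (t0 : ℝ) :
    ∃ a, IsSol A a t0 (t0 + life ν X) ∧ a t0 = a0 := by
  obtain ⟨a, ha, h0⟩ := hA.local_exists_zero da ra hr hX
  have hm : ∀ t ∈ Icc t0 (t0 + life ν X), t - t0 ∈ Icc 0 (life ν X) := fun t ht =>
    ⟨by linarith [ht.1], by linarith [ht.2]⟩
  refine ⟨fun t => a (t - t0), ⟨fun s => ?_, fun t ht => ha.real _ (hm t ht),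
    fun t ht => ha.div _ (hm t ht), fun k t ht => ?_⟩, by simpa using h0⟩
  · obtain ⟨M, hM⟩ := ha.bd s
    exact ⟨M, fun t ht => hM _ (hm t ht)⟩
  · have := (ha.deriv k _ (hm t ht)).scomp t ((hasDerivWithinAt_id t _).sub_const t0) hm
    rw [one_smul] at this
    exact this

end

end Pool.Agent.Work.MP_6bf1e5_an.B
end

-- merged part: Pool.Agent.Work.MP_6bf1e5_an.B.Tri
section
/-!
The trilinear form, conservation of energy and helicity by the nonlinearity, and termwise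
differentiation of series on convex sets.
-/

open Set Complex Filter Topology
open scoped InnerProductSpace ComplexConjugate

namespace Pool.Agent.Work.MP_6bf1e5_an.B

noncomputable section

theorem hasFDerivWithinAt_tsum_convex {ι E F : Type*} [NormedAddCommGroup E] [NormedSpace ℝ E]
    [NormedAddCommGroup F] [NormedSpace ℝ F] [CompleteSpace F] {s : Set E} (hs : Convex ℝ s)
    {f : ι → E → F} {f' : ι → E → E →L[ℝ] F} {u : ι → ℝ} (hu : Summable u)
    (hf : ∀ i, ∀ x ∈ s, HasFDerivWithinAt (f i) (f' i x) s x)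
    (hf' : ∀ i, ∀ x ∈ s, ‖f' i x‖ ≤ u i) (hsum : ∀ x ∈ s, Summable fun i => f i x)
    {x : E} (hx : x ∈ s) : HasFDerivWithinAt (fun y => ∑' i, f i y) (∑' i, f' i x) s x := by
  have hs' : Summable fun i => f' i x := .of_norm_bounded hu fun i => hf' i x hx
  rw [hasFDerivWithinAt_iff_tendsto]
  have key : Tendsto (fun y => ∑' i, ‖y - x‖⁻¹ • (f i y - f i x - f' i x (y - x))) (𝓝[s] x)
      (𝓝 (∑' _ : ι, (0 : F))) := by
    refine tendsto_tsum_of_dominated_convergence (bound := fun i => 2 * u i) (hu.mul_left 2)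
      (fun i => ?_) ?_
    · have := hasFDerivWithinAt_iff_tendsto.mp (hf i x hx)
      rw [tendsto_zero_iff_norm_tendsto_zero]
      simpa [norm_smul] using this
    · filter_upwards [self_mem_nhdsWithin] with y hy i
      have h1 := hs.norm_image_sub_le_of_norm_hasFDerivWithin_le (hf i) (hf' i) hx hy
      have h2 : ‖f' i x (y - x)‖ ≤ u i * ‖y - x‖ :=
        ((f' i x).le_opNorm _).trans (mul_le_mul_of_nonneg_right (hf' i x hx) (norm_nonneg _))
      have h3 := (norm_sub_le _ _).trans (add_le_add h1 h2)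
      have hu0 : 0 ≤ u i := (norm_nonneg _).trans (hf' i x hx)
      rw [norm_smul, norm_inv, norm_norm]
      rcases (norm_nonneg (y - x)).eq_or_lt with h0 | h0
      · rw [← h0]; simp; positivity
      · rw [inv_mul_le_iff₀ h0]; linarith
  rw [tsum_zero, tendsto_zero_iff_norm_tendsto_zero] at key
  refine key.congr' ?_
  filter_upwards [self_mem_nhdsWithin] with y hy
  have e : ∑' i, f' i x (y - x) = (∑' i, f' i x) (y - x) :=
    ((ContinuousLinearMap.apply ℝ F (y - x)).map_tsum hs').symm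
  have hs2 : Summable fun i => f' i x (y - x) :=
    (ContinuousLinearMap.apply ℝ F (y - x)).summable hs'
  rw [(((hsum y hy).sub (hsum x hx)).sub hs2).tsum_const_smul,
    ((hsum y hy).sub (hsum x hx)).tsum_sub hs2, (hsum y hy).tsum_sub (hsum x hx), e, norm_smul,
    norm_inv, norm_norm]

theorem hasDerivWithinAt_tsum_convex {ι F : Type*}
    [NormedAddCommGroup F] [NormedSpace ℝ F] [CompleteSpace F] {s : Set ℝ} (hs : Convex ℝ s)
    {f : ι → ℝ → F} {f' : ι → ℝ → F} {u : ι → ℝ} (hu : Summable u)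
    (hf : ∀ i, ∀ x ∈ s, HasDerivWithinAt (f i) (f' i x) s x)
    (hf' : ∀ i, ∀ x ∈ s, ‖f' i x‖ ≤ u i) (hsum : ∀ x ∈ s, Summable fun i => f i x)
    {x : ℝ} (hx : x ∈ s) : HasDerivWithinAt (fun y => ∑' i, f i y) (∑' i, f' i x) s x := by
  have hs' : Summable fun i => ContinuousLinearMap.toSpanSingleton ℝ (f' i x) :=
    .of_norm_bounded hu fun i => by simpa using hf' i x hx
  have := (hasFDerivWithinAt_tsum_convex hs
    (f' := fun i x => ContinuousLinearMap.toSpanSingleton ℝ (f' i x)) hu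
    (fun i y hy => (hf i y hy).hasFDerivWithinAt) (fun i y hy => by simpa using hf' i y hy)
    hsum hx).hasDerivWithinAt
  have e : (∑' i, ContinuousLinearMap.toSpanSingleton ℝ (f' i x)) 1 = ∑' i, f' i x := by
    have := (ContinuousLinearMap.apply ℝ F (1 : ℝ)).map_tsum hs'
    simpa using this
  rwa [e] at this

/-- One term of the trilinear form. -/
def tt (a b c : Z3 → C3) (z : Z3 × Z3) : ℂ := I * dt (a z.1) z.2 * ⟪c (z.1 + z.2), b z.2⟫_ℂ

/-- The trilinear form `⟪w, (u·∇) v⟫`. -/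
def TT (a b c : Z3 → C3) : ℂ := ∑' z, tt a b c z

lemma norm_tt_le (a b c : Z3 → C3) (z : Z3 × Z3) :
    ‖tt a b c z‖ ≤ ‖a z.1‖ * (ax z.2 * ‖b z.2‖) * ‖c (z.1 + z.2)‖ := by
  rw [tt, norm_mul, norm_mul, Complex.norm_I, one_mul]
  calc ‖dt (a z.1) z.2‖ * ‖⟪c (z.1 + z.2), b z.2⟫_ℂ‖
      ≤ (‖a z.1‖ * ax z.2) * (‖c (z.1 + z.2)‖ * ‖b z.2‖) :=
        mul_le_mul (norm_dt_le _ _) (norm_inner_le_norm _ _) (norm_nonneg _)
          (mul_nonneg (norm_nonneg _) (ax_nonneg _))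
    _ = _ := by ring

lemma Bd.summable_ax {b : Z3 → C3} {N : ℝ} (hb : Bd 1 b N) : Summable fun q => ax q * ‖b q‖ :=
  Summable.of_nonneg_of_le (fun q => mul_nonneg (ax_nonneg _) (norm_nonneg _))
    (fun q => by rw [pow_one]; exact mul_le_mul_of_nonneg_right (ax_le_w q) (norm_nonneg _))
    hb.summable

lemma Bd.tsum_ax_le {b : Z3 → C3} {N : ℝ} (hb : Bd 1 b N) : ∑' q, ax q * ‖b q‖ ≤ N :=
  (hb.summable_ax.tsum_le_tsum
    (fun q => by rw [pow_one]; exact mul_le_mul_of_nonneg_right (ax_le_w q) (norm_nonneg _))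
    hb.summable).trans hb.tsum_le

lemma summable_norm_tt {a b c : Z3 → C3} {M N K : ℝ} (ha : Bd 0 a M) (hb : Bd 1 b N)
    (hc : ∀ k, ‖c k‖ ≤ K) : Summable fun z => ‖tt a b c z‖ := by
  have h := (ha.summable_norm.mul_of_nonneg hb.summable_ax (fun _ => norm_nonneg _)
    (fun q => mul_nonneg (ax_nonneg _) (norm_nonneg _))).mul_right K
  refine Summable.of_nonneg_of_le (fun _ => norm_nonneg _) (fun z => ?_) h
  exact (norm_tt_le a b c z).trans (mul_le_mul_of_nonneg_left (hc _)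
    (mul_nonneg (norm_nonneg _) (mul_nonneg (ax_nonneg _) (norm_nonneg _))))

lemma summable_tt {a b c : Z3 → C3} {M N K : ℝ} (ha : Bd 0 a M) (hb : Bd 1 b N)
    (hc : ∀ k, ‖c k‖ ≤ K) : Summable (tt a b c) := (summable_norm_tt ha hb hc).of_norm

lemma hasSum_inner_BB {a b c : Z3 → C3} {M N K : ℝ} (ha : Bd 0 a M) (hb : Bd 1 b N)
    (hc : ∀ k, ‖c k‖ ≤ K) : HasSum (fun k => ⟪c k, BB a b k⟫_ℂ) (TT a b c) := by
  have h := (shear.hasSum_iff (f := tt a b c)).mpr (summable_tt ha hb hc).hasSum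
  refine h.prod_fiberwise fun k => ?_
  have := (innerSL ℂ (c k)).hasSum (summable_BB_term ha hb k).hasSum
  have e : (fun p => (tt a b c ∘ shear) (k, p)) =
      fun p => innerSL ℂ (c k) ((I * dt (a p) (k - p)) • b (k - p)) := by
    funext p; simp [tt, shear]
  rw [e]
  exact this

/-- The bilinear dot product. -/
def bd (u v : C3) : ℂ := ∑ i, u i * v i

lemma inner_cj (u v : C3) : ⟪cj u, v⟫_ℂ = bd u v := by
  simp [bd, PiLp.inner_apply, mul_comm]

lemma bd_comm (u v : C3) : bd u v = bd v u := by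
  simp [bd, mul_comm]

lemma tt_eq {a b c : Z3 → C3} (rc : IsReal c) (z : Z3 × Z3) :
    tt a b c z = I * dt (a z.1) z.2 * bd (c (-z.1 - z.2)) (b z.2) := by
  have : c (z.1 + z.2) = cj (c (-z.1 - z.2)) := by
    rw [← rc]; congr 1; abel
  rw [tt, this, inner_cj]

/-- The involution `(p, q) ↦ (p, -p-q)`. -/
def flip3 : Z3 × Z3 ≃ Z3 × Z3 where
  toFun z := (z.1, -z.1 - z.2)
  invFun z := (z.1, -z.1 - z.2)
  left_inv z := by simp
  right_inv z := by simp

lemma TT_antisymm {a b c : Z3 → C3} (da : DivFree a) (rb : IsReal b) (rc : IsReal c) :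
    TT a c b = -TT a b c := by
  unfold TT
  rw [← tsum_neg, ← flip3.tsum_eq]
  refine tsum_congr fun z => ?_
  rw [tt_eq rb, tt_eq rc]
  have e1 : dt (a z.1) (-z.1 - z.2) = -dt (a z.1) z.2 := by
    rw [sub_eq_add_neg, dt_add_right, dt_neg_right, dt_neg_right, da]; simp
  have e2 : -z.1 - (-z.1 - z.2) = z.2 := by abel
  simp only [flip3, Equiv.coe_fn_mk, e1, e2]
  rw [bd_comm]; ring

lemma TT_self {a b : Z3 → C3} (da : DivFree a) (rb : IsReal b) : TT a b b = 0 := by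
  have := TT_antisymm da rb rb
  linear_combination (1 / 2 : ℂ) * this

lemma curlS_apply (k : Z3) (v : C3) (i : Fin 3) :
    curlS k v i = 2 * Real.pi * I * crossProduct (fun j => (k j : ℂ)) (WithLp.ofLp v) i := rfl

lemma curlS_cj (k : Z3) (v : C3) : curlS (-k) (cj v) = cj (curlS k v) := by
  ext i
  fin_cases i <;> simp [curlS_apply, crossProduct, map_ofNat] <;> ring

lemma dt_curlS (k : Z3) (v : C3) : dt (curlS k v) k = 0 := by
  simp [dt_eq, curlS_apply, crossProduct, Fin.sum_univ_three]; ring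

lemma norm_curlS_sq (k : Z3) (v : C3) : ‖curlS k v‖ ^ 2 + ‖dt v k‖ ^ 2 = ax k ^ 2 * ‖v‖ ^ 2 := by
  rw [ax_sq, EuclideanSpace.norm_sq_eq, EuclideanSpace.norm_sq_eq]
  simp only [dt_eq, curlS_apply, Fin.sum_univ_three, Complex.sq_norm, Complex.normSq_apply]
  simp [crossProduct]
  ring

lemma norm_curlS_le (k : Z3) (v : C3) : ‖curlS k v‖ ≤ ax k * ‖v‖ := by
  have := norm_curlS_sq k v
  refine (pow_le_pow_iff_left₀ (norm_nonneg _) (mul_nonneg (ax_nonneg k) (norm_nonneg _))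
    two_ne_zero).mp ?_
  linarith [sq_nonneg ‖dt v k‖]

lemma inner_curlS (k : Z3) (u v : C3) : ⟪curlS k u, v⟫_ℂ = ⟪u, curlS k v⟫_ℂ := by
  simp [PiLp.inner_apply, curlS_apply, crossProduct, Fin.sum_univ_three, map_ofNat]; ring

lemma curlS_add (k : Z3) (u v : C3) : curlS k (u + v) = curlS k u + curlS k v := by
  ext i; simp [curlS_apply, mul_add]

lemma curlS_smul (k : Z3) (c : ℂ) (v : C3) : curlS k (c • v) = c • curlS k v := by
  ext i; simp [curlS_apply]; ring

/-- The curl symbol as a continuous linear map. -/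
def curlL (k : Z3) : C3 →L[ℂ] C3 :=
  LinearMap.toContinuousLinearMap
    { toFun := curlS k, map_add' := curlS_add k, map_smul' := curlS_smul k }

@[simp] lemma curlL_apply (k : Z3) (v : C3) : curlL k v = curlS k v := rfl

lemma curlS_curlS {k : Z3} {v : C3} (h : dt v k = 0) :
    curlS k (curlS k v) = ((ax k ^ 2 : ℝ) : ℂ) • v := by
  rw [dt_eq, Fin.sum_univ_three] at h
  have hI : I * I = -1 := Complex.I_mul_I
  rw [ax_sq]
  ext i
  fin_cases i
  · simp [curlS_apply, crossProduct, Fin.sum_univ_three]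
    linear_combination (-2 * Real.pi * k 0) * h +
      (4 * Real.pi ^ 2 * (k 1 * (k 0 * v 1 - k 1 * v 0) - k 2 * (k 2 * v 0 - k 0 * v 2))) * hI
  · simp [curlS_apply, crossProduct, Fin.sum_univ_three]
    linear_combination (-2 * Real.pi * k 1) * h +
      (4 * Real.pi ^ 2 * (k 2 * (k 1 * v 2 - k 2 * v 1) - k 0 * (k 0 * v 1 - k 1 * v 0))) * hI
  · simp [curlS_apply, crossProduct, Fin.sum_univ_three]
    linear_combination (-2 * Real.pi * k 2) * h +
      (4 * Real.pi ^ 2 * (k 0 * (k 2 * v 0 - k 0 * v 2) - k 1 * (k 1 * v 2 - k 2 * v 1))) * hI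

/-- The helicity triad term. -/
def hel (a : Z3 → C3) (p q r : Z3) : ℂ := I * dt (a p) q * bd (curlS r (a r)) (a q)

lemma hel_sum (a : Z3 → C3) (p q : Z3) :
    hel a p q (-p - q) + hel a q p (-p - q) + hel a p (-p - q) q + hel a (-p - q) p q +
      hel a q (-p - q) p + hel a (-p - q) q p = 0 := by
  simp only [hel, dt_eq, bd, curlS_apply, Fin.sum_univ_three]
  simp [crossProduct]
  ring

lemma TT_helicity {a : Z3 → C3} {M : ℝ} (ha : Bd 1 a M) (ra : IsReal a) :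
    TT a a (fun k => curlS k (a k)) = 0 := by
  have rc : IsReal fun k => curlS k (a k) := fun k => by simp only [ra k, curlS_cj]
  have hs := (summable_tt (ha.mono (Nat.zero_le 1)) ha (c := fun k => curlS k (a k))
    (fun k => (norm_curlS_le k _).trans (ax_mul_le ha k))).hasSum
  change HasSum _ (TT a a fun k => curlS k (a k)) at hs
  set S := TT a a fun k => curlS k (a k)
  have e : tt a a (fun k => curlS k (a k)) = fun z => hel a z.1 z.2 (-z.1 - z.2) := by
    funext z; rw [tt_eq rc]; rfl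
  rw [e] at hs
  have h2 := ((Equiv.prodComm Z3 Z3).hasSum_iff).mpr hs
  have h3 := (flip3.hasSum_iff).mpr hs
  have h4 := (flip3.hasSum_iff).mpr h2
  have h5 := ((Equiv.prodComm Z3 Z3).hasSum_iff).mpr h3
  have h6 := ((Equiv.prodComm Z3 Z3).hasSum_iff).mpr h4
  have h := ((((hs.add h2).add h3).add h4).add h5).add h6
  have z0 : (fun z : Z3 × Z3 => hel a z.1 z.2 (-z.1 - z.2) +
      ((fun z : Z3 × Z3 => hel a z.1 z.2 (-z.1 - z.2)) ∘ Equiv.prodComm Z3 Z3) z +
      ((fun z : Z3 × Z3 => hel a z.1 z.2 (-z.1 - z.2)) ∘ flip3) z +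
      (((fun z : Z3 × Z3 => hel a z.1 z.2 (-z.1 - z.2)) ∘ Equiv.prodComm Z3 Z3) ∘ flip3) z +
      (((fun z : Z3 × Z3 => hel a z.1 z.2 (-z.1 - z.2)) ∘ flip3) ∘ Equiv.prodComm Z3 Z3) z +
      ((((fun z : Z3 × Z3 => hel a z.1 z.2 (-z.1 - z.2)) ∘ Equiv.prodComm Z3 Z3) ∘ flip3) ∘
        Equiv.prodComm Z3 Z3) z) = fun _ => 0 := by
    funext z
    rw [← hel_sum a z.1 z.2]
    have e1 : -z.2 - z.1 = -z.1 - z.2 := by abel
    have e2 : -z.1 - (-z.1 - z.2) = z.2 := by abel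
    have e3 : -(-z.1 - z.2) - z.1 = z.2 := by abel
    have e4 : -z.2 - (-z.1 - z.2) = z.1 := by abel
    have e5 : -(-z.1 - z.2) - z.2 = z.1 := by abel
    simp only [Function.comp, flip3, Equiv.coe_fn_mk, Equiv.prodComm_apply, Prod.fst_swap,
      Prod.snd_swap, e1, e2, e3, e4, e5]
  rw [z0] at h
  have := h.unique hasSum_zero
  linear_combination (1 / 6 : ℂ) * this

end

end Pool.Agent.Work.MP_6bf1e5_an.B
end

-- merged part: Pool.Agent.Work.MP_6bf1e5_an.B.Maximal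
section
/-!
Quadratic functionals along solutions, uniqueness, gluing and the maximal solution.
-/

open Set Complex Filter Topology
open scoped InnerProductSpace ComplexConjugate

namespace Pool.Agent.Work.MP_6bf1e5_an.B

noncomputable section

variable {ν : ℝ} {A : Z3 → C3 →L[ℂ] C3}

lemma FF_bd {C : ℝ} {m : ℕ} (hC : 0 ≤ C) (hg : ∀ k v, ‖A k v‖ ≤ C * w k ^ m * ‖v‖) {s : ℕ}
    {a : Z3 → C3} {M : ℝ} (h : Bd (s + 1 + m) a M) : Bd s (FF A a) (M * M + C * M) :=
  (Bd_BB (h.mono (by omega)) (h.mono (by omega))).LP.neg.sub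
    (Bd.of_growth (h.mono (by omega)) hC fun k => hg k _)

lemma IsSol.FF_bd (hA : Diss ν A) {a : ℝ → Z3 → C3} {t0 t1 : ℝ} (ha : IsSol A a t0 t1) (s : ℕ) :
    ∃ M, ∀ t ∈ Icc t0 t1, Bd s (FF A (a t)) M := by
  obtain ⟨C, m, hC, hg⟩ := hA.growth
  obtain ⟨M, hM⟩ := ha.bd (s + 1 + m)
  exact ⟨_, fun t ht => B.FF_bd hC hg (hM t ht)⟩

lemma norm_re_inner_le {Φ : Z3 → C3 →L[ℂ] C3} {C : ℝ} {m : ℕ} (hC : 0 ≤ C)
    (hg : ∀ k v, ‖Φ k v‖ ≤ C * w k ^ m * ‖v‖) {a b : Z3 → C3} {M N : ℝ} (ha : Bd (m + 4) a M)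
    (hb : Bd 0 b N) (k : Z3) : ‖(⟪Φ k (a k), b k⟫_ℂ).re‖ ≤ C * (M * (w k ^ 4)⁻¹) * N := by
  have h1 : ‖Φ k (a k)‖ ≤ C * (M * (w k ^ 4)⁻¹) := by
    refine (hg k _).trans ?_
    rw [mul_assoc]
    exact mul_le_mul_of_nonneg_left (ha.decay k) hC
  refine (Complex.abs_re_le_norm _).trans ((norm_inner_le_norm _ _).trans ?_)
  exact mul_le_mul h1 (hb.norm_le k) (norm_nonneg _) ((norm_nonneg _).trans h1)

lemma summable_re_inner {Φ : Z3 → C3 →L[ℂ] C3} {C : ℝ} {m : ℕ} (hC : 0 ≤ C)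
    (hg : ∀ k v, ‖Φ k v‖ ≤ C * w k ^ m * ‖v‖) {a b : Z3 → C3} {M N : ℝ} (ha : Bd (m + 4) a M)
    (hb : Bd 0 b N) : Summable fun k => (⟪Φ k (a k), b k⟫_ℂ).re :=
  .of_norm_bounded (((summable_w_inv.mul_left M).mul_left C).mul_right N)
    (norm_re_inner_le hC hg ha hb)

lemma hasDerivWithinAt_quad {a a' : ℝ → Z3 → C3} {S : Set ℝ} (hS : Convex ℝ S)
    {Φ : Z3 → C3 →L[ℂ] C3} (sym : ∀ k u v, ⟪Φ k u, v⟫_ℂ = ⟪u, Φ k v⟫_ℂ) {C : ℝ} {m : ℕ}
    (hC : 0 ≤ C) (hg : ∀ k v, ‖Φ k v‖ ≤ C * w k ^ m * ‖v‖) {M N : ℝ}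
    (hb : ∀ t ∈ S, Bd (m + 4) (a t) M) (hb' : ∀ t ∈ S, Bd 0 (a' t) N)
    (hd : ∀ k, ∀ t ∈ S, HasDerivWithinAt (fun t => a t k) (a' t k) S t) {t : ℝ} (ht : t ∈ S) :
    HasDerivWithinAt (fun t => ∑' k, (⟪Φ k (a t k), a t k⟫_ℂ).re)
      (∑' k, 2 * (⟪Φ k (a t k), a' t k⟫_ℂ).re) S t := by
  refine hasDerivWithinAt_tsum_convex hS (f := fun k t => (⟪Φ k (a t k), a t k⟫_ℂ).re)
    (f' := fun k t => 2 * (⟪Φ k (a t k), a' t k⟫_ℂ).re)
    (u := fun k => 2 * (C * (M * (w k ^ 4)⁻¹) * N))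
    ((((summable_w_inv.mul_left M).mul_left C).mul_right N).mul_left 2) (fun k x hx => ?_)
    (fun k x hx => ?_)
    (fun x hx => summable_re_inner hC hg (hb x hx) ((hb x hx).mono (Nat.zero_le _))) ht
  · have h1 := hd k x hx
    have h2 : HasDerivWithinAt (fun t => Φ k (a t k)) (Φ k (a' x k)) S x :=
      ((Φ k).restrictScalars ℝ).hasFDerivAt.comp_hasDerivWithinAt x h1
    have h3 := Complex.reCLM.hasFDerivAt.comp_hasDerivWithinAt x (h2.inner ℂ h1)
    have e : (⟪Φ k (a' x k), a x k⟫_ℂ).re = (⟪Φ k (a x k), a' x k⟫_ℂ).re := by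
      rw [sym, ← inner_conj_symm, Complex.conj_re]
    refine HasDerivWithinAt.congr_deriv h3 ?_
    simp only [Complex.reCLM_apply, Complex.add_re, e]; ring
  · rw [norm_mul, Real.norm_two]
    exact mul_le_mul_of_nonneg_left (norm_re_inner_le hC hg (hb x hx) (hb' x hx) k) two_pos.le

lemma Bd.summable_sq {a : Z3 → C3} {M : ℝ} (h : Bd 0 a M) : Summable fun k => ‖a k‖ ^ 2 :=
  Summable.of_nonneg_of_le (fun _ => sq_nonneg _)
    (fun k => by rw [pow_two]; exact mul_le_mul_of_nonneg_left (h.norm_le k) (norm_nonneg _))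
    (h.summable_norm.mul_right M)

lemma norm_TT_le_l2 {d a : Z3 → C3} {M N : ℝ} (hd : Bd 0 d M) (ha : Bd 1 a N) :
    ‖TT d a d‖ ≤ N * ∑' k, ‖d k‖ ^ 2 := by
  have hs := hd.summable_sq
  have hx0 : ∀ q, 0 ≤ ax q * ‖a q‖ := fun q => mul_nonneg (ax_nonneg _) (norm_nonneg _)
  have h1 : HasSum (fun z : Z3 × Z3 => ‖d z.1‖ ^ 2 * (ax z.2 * ‖a z.2‖))
      ((∑' k, ‖d k‖ ^ 2) * ∑' q, ax q * ‖a q‖) := by
    have := hs.mul_of_nonneg ha.summable_ax (fun _ => sq_nonneg _) hx0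
    exact (hs.tsum_mul_tsum ha.summable_ax this) ▸ this.hasSum
  let e : Z3 × Z3 ≃ Z3 × Z3 :=
    { toFun := fun z => (z.1 + z.2, z.2), invFun := fun z => (z.1 - z.2, z.2),
      left_inv := fun z => by simp, right_inv := fun z => by simp }
  have h2 := (e.hasSum_iff).mpr h1
  have h3 := (h1.add h2).div_const 2
  have h4 : ‖TT d a d‖ ≤ ((∑' k, ‖d k‖ ^ 2) * (∑' q, ax q * ‖a q‖) +
      (∑' k, ‖d k‖ ^ 2) * ∑' q, ax q * ‖a q‖) / 2 := by
    refine tsum_of_norm_bounded h3 fun z => (norm_tt_le d a d z).trans ?_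
    simp only [Function.comp, e, Equiv.coe_fn_mk]
    have := hx0 z.2
    nlinarith [sq_nonneg (‖d z.1‖ - ‖d (z.1 + z.2)‖)]
  have h5 : 0 ≤ ∑' k, ‖d k‖ ^ 2 := tsum_nonneg fun _ => sq_nonneg _
  have := mul_le_mul_of_nonneg_left ha.tsum_ax_le h5
  linarith

theorem IsSol.unique (hA : Diss ν A) {a b : ℝ → Z3 → C3} {t0 t1 : ℝ} (ha : IsSol A a t0 t1)
    (hb : IsSol A b t0 t1) (h0 : a t0 = b t0) : ∀ t ∈ Icc t0 t1, a t = b t := by
  obtain ⟨Ma, hMa⟩ := ha.bd 4
  obtain ⟨Mb, hMb⟩ := hb.bd 4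
  obtain ⟨Na, hNa⟩ := ha.FF_bd hA 0
  obtain ⟨Nb, hNb⟩ := hb.FF_bd hA 0
  set d : ℝ → Z3 → C3 := fun t k => a t k - b t k with hd
  set d' : ℝ → Z3 → C3 := fun t k => FF A (a t) k - FF A (b t) k with hd'
  have db : ∀ t ∈ Icc t0 t1, Bd 4 (d t) (Ma + Mb) := fun t ht => (hMa t ht).sub (hMb t ht)
  have hid : ∀ (k : Z3) (v : C3), ‖(ContinuousLinearMap.id ℂ C3) v‖ ≤ 1 * w k ^ 0 * ‖v‖ := by simp
  have hy : ∀ t ∈ Icc t0 t1, HasDerivWithinAt (fun t => ∑' k, ‖d t k‖ ^ 2)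
      (∑' k, 2 * (⟪d t k, d' t k⟫_ℂ).re) (Icc t0 t1) t := by
    intro t ht
    have := hasDerivWithinAt_quad (a := d) (a' := d') (convex_Icc t0 t1)
      (Φ := fun _ => ContinuousLinearMap.id ℂ C3) (fun _ _ _ => rfl) zero_le_one hid db
      (fun t ht => (hNa t ht).sub (hNb t ht))
      (fun k t ht => (ha.deriv k t ht).sub (hb.deriv k t ht)) ht
    simpa [inner_self_eq_norm_sq_to_K, ← Complex.ofReal_pow] using this
  have hle : ∀ t ∈ Icc t0 t1, ∑' k, 2 * (⟪d t k, d' t k⟫_ℂ).re ≤ 2 * Ma * ∑' k, ‖d t k‖ ^ 2 := by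
    intro t ht
    have b1 : Bd 1 (a t) Ma := (hMa t ht).mono (by norm_num)
    have b2 : Bd 1 (b t) Mb := (hMb t ht).mono (by norm_num)
    have b3 : Bd 1 (d t) (Ma + Mb) := (db t ht).mono (by norm_num)
    have dd : DivFree (d t) := fun k => by
      simp only [hd]; rw [dt_sub_left, ha.div t ht k, hb.div t ht k, sub_zero]
    have rd : IsReal (d t) := fun k => by
      simp only [hd]; rw [ha.real t ht k, hb.real t ht k, map_sub]
    have s1 := hasSum_inner_BB (b3.mono (Nat.zero_le 1)) b1 b3.norm_le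
    have s2 := hasSum_inner_BB (b2.mono (Nat.zero_le 1)) b3 b3.norm_le
    rw [TT_self (hb.div t ht) rd] at s2
    have s3 := Complex.reCLM.hasSum (s1.add s2)
    have pt : ∀ k, 2 * (⟪d t k, d' t k⟫_ℂ).re ≤
        -2 * Complex.reCLM (⟪d t k, BB (d t) (a t) k⟫_ℂ + ⟪d t k, BB (b t) (d t) k⟫_ℂ) := by
      intro k
      have e : d' t k = -(LP k (BB (d t) (a t) k + BB (b t) (d t) k)) - A k (d t k) := by
        simp only [hd', hd, FF]
        rw [← BB_sub_self b1 b2, map_sub, map_sub]; abel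
      rw [e, inner_sub_right, inner_neg_right, inner_LP (dd k), inner_add_right]
      have := hA.coer k _ (dd k)
      have h2 : 0 ≤ ν * ax k ^ 2 * ‖d t k‖ ^ 2 := by have := hA.pos; positivity
      simp only [Complex.sub_re, Complex.neg_re, Complex.reCLM_apply]
      linarith
    have sm : Summable fun k => 2 * (⟪d t k, d' t k⟫_ℂ).re :=
      (summable_re_inner (Φ := fun _ => ContinuousLinearMap.id ℂ C3) zero_le_one hid (db t ht)
        ((hNa t ht).sub (hNb t ht))).mul_left 2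
    have := hasSum_le pt sm.hasSum (s3.mul_left (-2))
    have h2 := norm_TT_le_l2 (b3.mono (Nat.zero_le 1)) b1
    have h3 := Complex.abs_re_le_norm (TT (d t) (a t) (d t))
    have h4 := neg_abs_le (TT (d t) (a t) (d t)).re
    simp only [add_zero, Complex.reCLM_apply] at this
    linarith
  have hg : AntitoneOn (fun t => Real.exp (-(2 * Ma) * t) * ∑' k, ‖d t k‖ ^ 2) (Icc t0 t1) := by
    have hder : ∀ t ∈ Icc t0 t1, HasDerivWithinAt
        (fun t => Real.exp (-(2 * Ma) * t) * ∑' k, ‖d t k‖ ^ 2)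
        (Real.exp (-(2 * Ma) * t) * (-(2 * Ma)) * (∑' k, ‖d t k‖ ^ 2) +
          Real.exp (-(2 * Ma) * t) * ∑' k, 2 * (⟪d t k, d' t k⟫_ℂ).re) (Icc t0 t1) t := by
      intro t ht
      have := (((hasDerivAt_id t).const_mul (-(2 * Ma))).exp.hasDerivWithinAt
        (s := Icc t0 t1)).fun_mul (hy t ht)
      simp only [id, mul_one] at this
      exact this
    refine antitoneOn_of_hasDerivWithinAt_nonpos (convex_Icc t0 t1)
      (fun t ht => (hder t ht).continuousWithinAt)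
      (fun t ht => (hder t (interior_subset ht)).mono interior_subset) fun t ht => ?_
    have := hle t (interior_subset ht)
    have hp := Real.exp_pos (-(2 * Ma) * t)
    nlinarith only [this, hp]
  intro t ht
  have h1 := hg (left_mem_Icc.mpr (ht.1.trans ht.2)) ht ht.1
  have h2 : ∑' k, ‖d t0 k‖ ^ 2 = 0 := by simp [hd, h0]
  simp only [h2, mul_zero] at h1
  have hp := Real.exp_pos (-(2 * Ma) * t)
  have h3 : ∑' k, ‖d t k‖ ^ 2 ≤ 0 := by
    by_contra hc
    push Not at hc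
    have := mul_pos hp hc
    linarith only [h1, this]
  funext k
  have h4 := ((db t ht).mono (Nat.zero_le 4)).summable_sq.le_tsum k fun _ _ => sq_nonneg _
  have h5 : ‖d t k‖ ^ 2 = 0 := le_antisymm (h4.trans h3) (sq_nonneg _)
  exact sub_eq_zero.mp (norm_eq_zero.mp (pow_eq_zero_iff two_ne_zero |>.mp h5))

lemma IsSol.restrict {a : ℝ → Z3 → C3} {t0 t1 s0 s1 : ℝ} (ha : IsSol A a t0 t1)
    (h : Icc s0 s1 ⊆ Icc t0 t1) : IsSol A a s0 s1 :=
  ⟨fun s => (ha.bd s).imp fun _ hM t ht => hM t (h ht), fun t ht => ha.real t (h ht),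
    fun t ht => ha.div t (h ht), fun k t ht => (ha.deriv k t (h ht)).mono h⟩

lemma IsSol.congr {a b : ℝ → Z3 → C3} {t0 t1 : ℝ} (ha : IsSol A a t0 t1)
    (h : ∀ t ∈ Icc t0 t1, b t = a t) : IsSol A b t0 t1 :=
  ⟨fun s => (ha.bd s).imp fun _ hM t ht => h t ht ▸ hM t ht, fun t ht => h t ht ▸ ha.real t ht,
    fun t ht => h t ht ▸ ha.div t ht, fun k t ht => by
      rw [h t ht]
      exact (ha.deriv k t ht).congr_of_mem (fun x hx => by rw [h x hx]) ht⟩

lemma IsSol.glue {a b : ℝ → Z3 → C3} {t0 t1 t2 : ℝ} (ha : IsSol A a t0 t1) (hb : IsSol A b t1 t2)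
    (h01 : t0 ≤ t1) (h12 : t1 ≤ t2) (h : b t1 = a t1) :
    IsSol A (fun t => if t ≤ t1 then a t else b t) t0 t2 := by
  set c : ℝ → Z3 → C3 := fun t => if t ≤ t1 then a t else b t with hc
  have ca : IsSol A c t0 t1 := ha.congr fun t ht => by simp [hc, ht.2]
  have cb : IsSol A c t1 t2 := hb.congr fun t ht => by
    by_cases h' : t ≤ t1
    · have : t = t1 := le_antisymm h' ht.1
      simp [hc, this, h]
    · simp [hc, h']
  have hu : Icc t0 t2 = Icc t0 t1 ∪ Icc t1 t2 := (Icc_union_Icc_eq_Icc h01 h12).symm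
  refine ⟨fun s => ?_, fun t ht => ?_, fun t ht => ?_, fun k t ht => ?_⟩
  · obtain ⟨M, hM⟩ := ca.bd s
    obtain ⟨N, hN⟩ := cb.bd s
    refine ⟨max M N, fun t ht => ?_⟩
    rcases hu ▸ ht with h' | h'
    · exact (hM t h').mono_right (le_max_left _ _)
    · exact (hN t h').mono_right (le_max_right _ _)
  · rcases hu ▸ ht with h' | h'
    exacts [ca.real t h', cb.real t h']
  · rcases hu ▸ ht with h' | h'
    exacts [ca.div t h', cb.div t h']
  · rw [hu]
    refine HasDerivWithinAt.union ?_ ?_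
    · by_cases h' : t ∈ Icc t0 t1
      · exact ca.deriv k t h'
      · exact HasFDerivWithinAt.of_notMem_closure (by rwa [isClosed_Icc.closure_eq])
    · by_cases h' : t ∈ Icc t1 t2
      · exact cb.deriv k t h'
      · exact HasFDerivWithinAt.of_notMem_closure (by rwa [isClosed_Icc.closure_eq])

/-- The maximal solution: either global, or the lifespan bound fails near a finite time. -/
theorem Diss.maximal (hA : Diss ν A) {a0 : Z3 → C3} (da : DivFree a0) (ra : IsReal a0)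
    (hr : Rapid a0) :
    ∃ a : ℝ → Z3 → C3, a 0 = a0 ∧ ((∀ T, IsSol A a 0 T) ∨
      ∃ Ts, 0 < Ts ∧ (∀ T, T < Ts → IsSol A a 0 T) ∧
        ∀ t ∈ Ico 0 Ts, ∀ X, Bd 0 (a t) X → t + life ν X ≤ Ts) := by
  classical
  set S : Set ℝ := {T | 0 ≤ T ∧ ∃ a, IsSol A a 0 T ∧ a 0 = a0} with hS
  have ch : ∀ T, ∃ a : ℝ → Z3 → C3, T ∈ S → IsSol A a 0 T ∧ a 0 = a0 := fun T => by
    by_cases h : T ∈ S
    · obtain ⟨a, ha⟩ := h.2
      exact ⟨a, fun _ => ha⟩
    · exact ⟨0, fun h' => absurd h' h⟩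
  choose f hf using ch
  have down : ∀ T ∈ S, ∀ t ∈ Icc 0 T, t ∈ S := fun T hT t ht =>
    ⟨ht.1, f T, (hf T hT).1.restrict (Icc_subset_Icc_right ht.2), (hf T hT).2⟩
  set a : ℝ → Z3 → C3 := fun t => f t t with ha
  have sol : ∀ T ∈ S, IsSol A a 0 T := fun T hT =>
    (hf T hT).1.congr fun t ht => by
      have h1 := hf t (down T hT t ht)
      exact h1.1.unique hA ((hf T hT).1.restrict (Icc_subset_Icc_right ht.2))
        (h1.2.trans (hf T hT).2.symm) t ⟨ht.1, le_rfl⟩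
  obtain ⟨X0, hX0⟩ := hr 0
  have hl : life ν X0 ∈ S := ⟨(life_pos hA.pos hX0.nonneg).le, hA.local_exists_zero da ra hr hX0⟩
  have h0S : (0 : ℝ) ∈ S := down _ hl 0 ⟨le_rfl, hl.1⟩
  have a0' : a 0 = a0 := (hf 0 h0S).2
  have neg : ∀ T, T < 0 → IsSol A a 0 T := fun T hT =>
    (sol 0 h0S).restrict (by rw [Icc_eq_empty (by linarith)]; exact empty_subset _)
  refine ⟨a, a0', ?_⟩
  by_cases hb : BddAbove S
  · refine Or.inr ⟨sSup S, lt_of_lt_of_le (life_pos hA.pos hX0.nonneg) (le_csSup hb hl), ?_, ?_⟩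
    · intro T hT
      rcases lt_or_ge T 0 with h | h
      · exact neg T h
      · obtain ⟨T', hT', hlt⟩ := exists_lt_of_lt_csSup ⟨0, h0S⟩ hT
        exact sol T (down T' hT' T ⟨h, hlt.le⟩)
    · intro t ht X hX
      obtain ⟨T', hT', hlt⟩ := exists_lt_of_lt_csSup ⟨0, h0S⟩ ht.2
      have st := sol t (down T' hT' t ⟨ht.1, hlt.le⟩)
      have tm : t ∈ Icc 0 t := ⟨ht.1, le_rfl⟩
      obtain ⟨b, hb1, hb2⟩ := hA.local_exists (st.div t tm) (st.real t tm)
        (fun s => (st.bd s).imp fun _ hM => hM t tm) hX t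
      have lp := life_pos hA.pos hX.nonneg
      refine le_csSup hb ⟨by linarith only [lp, ht.1], _, st.glue hb1 ht.1 (by linarith) hb2, ?_⟩
      simp [ht.1, a0']
  · refine Or.inl fun T => ?_
    rcases lt_or_ge T 0 with h | h
    · exact neg T h
    · obtain ⟨T', hT', hlt⟩ := not_bddAbove_iff.mp hb T
      exact sol T (down T' hT' T ⟨h, hlt.le⟩)

end

end Pool.Agent.Work.MP_6bf1e5_an.B
end

-- merged part: Pool.Agent.Work.MP_6bf1e5_an.B.Est
section
/-!
The basic `ℓ²` estimate for the trilinear form.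
-/

open Set Complex Filter Topology
open scoped InnerProductSpace ComplexConjugate

namespace Pool.Agent.Work.MP_6bf1e5_an.B

noncomputable section

/-- One term of the squared homogeneous Sobolev norm. -/
def ht (r : ℝ) (c : Z3 → C3) (k : Z3) : ℝ := if k = 0 then 0 else ax k ^ (2 * r) * ‖c k‖ ^ 2

/-- The squared homogeneous Sobolev norm. -/
def hq (r : ℝ) (c : Z3 → C3) : ℝ := ∑' k, ht r c k

lemma hs_eq (r : ℝ) (c : Z3 → C3) : hs r c = √(hq r c) := rfl

lemma ht_nonneg (r : ℝ) (c : Z3 → C3) (k : Z3) : 0 ≤ ht r c k := by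
  unfold ht
  split_ifs with h
  · exact le_rfl
  · have := ax_pos h; positivity

lemma hq_nonneg (r : ℝ) (c : Z3 → C3) : 0 ≤ hq r c := tsum_nonneg (ht_nonneg r c)

lemma hs_nonneg (r : ℝ) (c : Z3 → C3) : 0 ≤ hs r c := Real.sqrt_nonneg _

lemma hs_sq (r : ℝ) (c : Z3 → C3) : hs r c ^ 2 = hq r c := Real.sq_sqrt (hq_nonneg r c)

lemma ax_rpow_le {k : Z3} (hk : k ≠ 0) {r : ℝ} {n : ℕ} (hn : r ≤ n) : ax k ^ r ≤ w k ^ n := by
  calc ax k ^ r ≤ ax k ^ (n : ℝ) := Real.rpow_le_rpow_of_exponent_le (one_le_ax hk) hn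
    _ = ax k ^ n := Real.rpow_natCast _ _
    _ ≤ w k ^ n := pow_le_pow_left₀ (ax_nonneg k) (ax_le_w k) n

lemma ht_le {r : ℝ} {n : ℕ} (hn : 2 * r ≤ n) {c : Z3 → C3} {M : ℝ} (h : Bd n c M) (k : Z3) :
    ht r c k ≤ w k ^ n * ‖c k‖ * M := by
  have := h.nonneg
  have := w_pos k
  unfold ht
  split_ifs with hk
  · positivity
  · calc ax k ^ (2 * r) * ‖c k‖ ^ 2 ≤ w k ^ n * (‖c k‖ * M) := by
          rw [pow_two]
          gcongr
          · exact ax_rpow_le hk hn
          · exact h.norm_le k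
      _ = _ := by ring

lemma Rapid.summable_ht {c : Z3 → C3} (h : Rapid c) (r : ℝ) : Summable (ht r c) := by
  obtain ⟨M, hM⟩ := h ⌈2 * r⌉₊
  exact Summable.of_nonneg_of_le (ht_nonneg r c) (ht_le (Nat.le_ceil _) hM)
    (hM.summable.mul_right M)

lemma ht_mono {r r' : ℝ} (h : r ≤ r') (c : Z3 → C3) (k : Z3) : ht r c k ≤ ht r' c k := by
  unfold ht
  split_ifs with hk
  · exact le_rfl
  · exact mul_le_mul_of_nonneg_right
      (Real.rpow_le_rpow_of_exponent_le (one_le_ax hk) (by linarith)) (sq_nonneg _)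

lemma Rapid.hq_mono {c : Z3 → C3} (hc : Rapid c) {r r' : ℝ} (h : r ≤ r') : hq r c ≤ hq r' c :=
  (hc.summable_ht r).tsum_le_tsum (ht_mono h c) (hc.summable_ht r')

lemma le_sqrt_of_forall {S Y Z : ℝ} (hY : 0 ≤ Y) (hZ : 0 ≤ Z)
    (h : ∀ l : ℝ, 0 < l → S ≤ (l * Y + Z / l) / 2) : S ≤ √Y * √Z := by
  have hc : Tendsto (fun e : ℝ => √(Y + e) * √(Z + e)) (𝓝[>] 0) (𝓝 (√Y * √Z)) := by
    have : Continuous fun e : ℝ => √(Y + e) * √(Z + e) := by fun_prop
    simpa using (this.tendsto 0).mono_left nhdsWithin_le_nhds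
  refine ge_of_tendsto hc ?_
  filter_upwards [self_mem_nhdsWithin] with e (he : 0 < e)
  have h1 : 0 < √(Y + e) := Real.sqrt_pos.mpr (by linarith)
  have h2 : 0 < √(Z + e) := Real.sqrt_pos.mpr (by linarith)
  have e1 : √(Y + e) * √(Y + e) = Y + e := Real.mul_self_sqrt (by linarith)
  have e2 : √(Z + e) * √(Z + e) = Z + e := Real.mul_self_sqrt (by linarith)
  refine (h (√(Z + e) / √(Y + e)) (by positivity)).trans ?_
  set y := √(Y + e)
  set z := √(Z + e)
  have a1 : z / y * Y ≤ y * z := by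
    rw [div_mul_eq_mul_div, div_le_iff₀ h1]; nlinarith only [he, e1, h2]
  have a2 : Z / (z / y) ≤ y * z := by
    rw [div_div_eq_mul_div, div_le_iff₀ h2]; nlinarith only [he, h1, e2]
  linarith

lemma young_l1_l2_l2 {x y z : Z3 → ℝ} (hx0 : ∀ k, 0 ≤ x k) (hx : Summable x)
    (hy : Summable fun k => y k ^ 2) (hz : Summable fun k => z k ^ 2) {f : Z3 × Z3 → ℝ}
    (hf : Summable f) (hle : ∀ p, f p ≤ x p.1 * y p.2 * z (p.1 + p.2)) :
    ∑' p, f p ≤ (∑' k, x k) * (√(∑' k, y k ^ 2) * √(∑' k, z k ^ 2)) := by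
  have h1 : HasSum (fun p : Z3 × Z3 => x p.1 * y p.2 ^ 2) ((∑' k, x k) * ∑' k, y k ^ 2) := by
    have := hx.mul_of_nonneg hy hx0 (fun _ => sq_nonneg _)
    exact (hx.tsum_mul_tsum hy this) ▸ this.hasSum
  have h2 : HasSum (fun p : Z3 × Z3 => x p.1 * z p.2 ^ 2) ((∑' k, x k) * ∑' k, z k ^ 2) := by
    have := hx.mul_of_nonneg hz hx0 (fun _ => sq_nonneg _)
    exact (hx.tsum_mul_tsum hz this) ▸ this.hasSum
  let e : Z3 × Z3 ≃ Z3 × Z3 :=
    { toFun := fun z => (z.1, z.1 + z.2), invFun := fun z => (z.1, z.2 - z.1),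
      left_inv := fun z => by simp, right_inv := fun z => by simp }
  have h3 := (e.hasSum_iff).mpr h2
  set X := ∑' k, x k
  set Y := ∑' k, y k ^ 2
  set Z := ∑' k, z k ^ 2
  have X0 : 0 ≤ X := tsum_nonneg hx0
  have Y0 : 0 ≤ Y := tsum_nonneg fun _ => sq_nonneg _
  have Z0 : 0 ≤ Z := tsum_nonneg fun _ => sq_nonneg _
  have key : ∑' p, f p ≤ √(X * Y) * √(X * Z) := by
    refine le_sqrt_of_forall (by positivity) (by positivity) fun l hl => ?_
    refine hasSum_le (fun p => (hle p).trans ?_) hf.hasSum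
      (((h1.mul_left l).add (h3.div_const l)).div_const 2)
    simp only [Function.comp, e, Equiv.coe_fn_mk]
    have := hx0 p.1
    have e1 : (l * (x p.1 * y p.2 ^ 2) + x p.1 * z (p.1 + p.2) ^ 2 / l) / 2 -
        x p.1 * y p.2 * z (p.1 + p.2) = x p.1 * (l * y p.2 - z (p.1 + p.2)) ^ 2 / (2 * l) := by
      field_simp; ring
    have e2 : 0 ≤ x p.1 * (l * y p.2 - z (p.1 + p.2)) ^ 2 / (2 * l) := by positivity
    linarith
  refine key.trans (le_of_eq ?_)
  rw [Real.sqrt_mul X0, Real.sqrt_mul X0]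
  have := Real.mul_self_sqrt X0
  calc √X * √Y * (√X * √Z) = (√X * √X) * (√Y * √Z) := by ring
    _ = _ := by rw [this]

/-- A weighted modulus with the zero mode removed. -/
def wm (s : ℝ) (c : Z3 → C3) (k : Z3) : ℝ := if k = 0 then 0 else ax k ^ s * ‖c k‖

lemma wm_nonneg (s : ℝ) (c : Z3 → C3) (k : Z3) : 0 ≤ wm s c k := by
  unfold wm
  split_ifs with h
  · exact le_rfl
  · have := ax_pos h; positivity

lemma wm_sq (s : ℝ) (c : Z3 → C3) (k : Z3) : wm s c k ^ 2 = ht s c k := by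
  unfold wm ht
  split_ifs with h
  · simp
  · rw [mul_pow, ← Real.rpow_natCast, ← Real.rpow_mul (ax_nonneg k)]
    congr 2; push_cast; ring

lemma Rapid.summable_wm {c : Z3 → C3} (h : Rapid c) (s : ℝ) : Summable (wm s c) := by
  obtain ⟨M, hM⟩ := h ⌈s⌉₊
  refine Summable.of_nonneg_of_le (wm_nonneg s c) (fun k => ?_) hM.summable
  unfold wm
  split_ifs with hk
  · exact wn_nonneg _ _ _
  · exact mul_le_mul_of_nonneg_right (ax_rpow_le hk (Nat.le_ceil _)) (norm_nonneg _)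

lemma wm_sq_le_mu {σ β θ R : ℝ} (hR : 0 < R) (a : Z3 → C3) (k : Z3) :
    wm (σ + θ - 3 / 2) a k ^ 2 ≤ mu (2 * θ) (2 * β - 2 * θ) R k *
      (R ^ (2 * θ - 2 * β) * (R ^ (2 * β) * ht σ a k + ht (σ + β) a k)) := by
  rw [wm_sq]
  unfold ht mu
  split_ifs with hk
  · simp
  · have ht0 := ax_pos hk
    set t := ax k
    have n1 : 0 ≤ R ^ (2 * β) * (t ^ (2 * σ) * ‖a k‖ ^ 2) := by positivity
    have n2 : 0 ≤ t ^ (2 * (σ + β)) * ‖a k‖ ^ 2 := by positivity
    rcases min_choice ((t / R) ^ (2 * θ)) ((R / t) ^ (2 * β - 2 * θ)) with h | h <;> rw [h]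
    · have e : t ^ (2 * (σ + θ - 3 / 2)) =
          t ^ (-3 : ℝ) * (t / R) ^ (2 * θ) * (R ^ (2 * θ - 2 * β) * (R ^ (2 * β) * t ^ (2 * σ))) := by
        simp only [Real.rpow_def_of_pos ht0, Real.rpow_def_of_pos hR,
          Real.rpow_def_of_pos (div_pos ht0 hR), ← Real.exp_add, Real.log_div ht0.ne' hR.ne']
        congr 1; ring
      rw [e]
      calc _ = t ^ (-3 : ℝ) * (t / R) ^ (2 * θ) *
            (R ^ (2 * θ - 2 * β) * (R ^ (2 * β) * (t ^ (2 * σ) * ‖a k‖ ^ 2))) := by ring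
        _ ≤ _ := by gcongr; linarith only [n2]
    · have e : t ^ (2 * (σ + θ - 3 / 2)) =
          t ^ (-3 : ℝ) * (R / t) ^ (2 * β - 2 * θ) * (R ^ (2 * θ - 2 * β) * t ^ (2 * (σ + β))) := by
        simp only [Real.rpow_def_of_pos ht0, Real.rpow_def_of_pos hR,
          Real.rpow_def_of_pos (div_pos hR ht0), ← Real.exp_add, Real.log_div hR.ne' ht0.ne']
        congr 1; ring
      rw [e]
      calc _ = t ^ (-3 : ℝ) * (R / t) ^ (2 * β - 2 * θ) *
            (R ^ (2 * θ - 2 * β) * (t ^ (2 * (σ + β)) * ‖a k‖ ^ 2)) := by ring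
        _ ≤ _ := by gcongr; linarith only [n1]

lemma ht_interp {σ β θ R : ℝ} (hR : 0 < R) (h0 : 0 ≤ θ) (h1 : θ ≤ β) (a : Z3 → C3) (k : Z3) :
    ht (σ + θ) a k ≤ R ^ (2 * θ - 2 * β) * (R ^ (2 * β) * ht σ a k + ht (σ + β) a k) := by
  unfold ht
  split_ifs with hk
  · simp
  · have ht0 := ax_pos hk
    set t := ax k
    have n1 : 0 ≤ R ^ (2 * β) * (t ^ (2 * σ) * ‖a k‖ ^ 2) := by positivity
    have n2 : 0 ≤ t ^ (2 * (σ + β)) * ‖a k‖ ^ 2 := by positivity
    rcases le_total t R with h | h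
    · have e : t ^ (2 * (σ + θ)) ≤ R ^ (2 * θ - 2 * β) * (R ^ (2 * β) * t ^ (2 * σ)) := by
        rw [← mul_assoc, ← Real.rpow_add hR, mul_add, Real.rpow_add ht0, sub_add_cancel, mul_comm]
        gcongr
      calc t ^ (2 * (σ + θ)) * ‖a k‖ ^ 2
          ≤ R ^ (2 * θ - 2 * β) * (R ^ (2 * β) * t ^ (2 * σ)) * ‖a k‖ ^ 2 := by gcongr
        _ = R ^ (2 * θ - 2 * β) * (R ^ (2 * β) * (t ^ (2 * σ) * ‖a k‖ ^ 2)) := by ring
        _ ≤ _ := by gcongr; linarith
    · have e : t ^ (2 * (σ + θ)) ≤ R ^ (2 * θ - 2 * β) * t ^ (2 * (σ + β)) := by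
        have : 2 * (σ + θ) = (2 * θ - 2 * β) + 2 * (σ + β) := by ring
        rw [this, Real.rpow_add ht0]
        gcongr ?_ * _
        exact Real.rpow_le_rpow_of_nonpos hR h (by linarith)
      calc t ^ (2 * (σ + θ)) * ‖a k‖ ^ 2
          ≤ R ^ (2 * θ - 2 * β) * t ^ (2 * (σ + β)) * ‖a k‖ ^ 2 := by gcongr
        _ = R ^ (2 * θ - 2 * β) * (t ^ (2 * (σ + β)) * ‖a k‖ ^ 2) := by ring
        _ ≤ _ := by gcongr; linarith

lemma freq_split {s1 s2 r : ℝ} (h1 : s1 ≤ 0) (hr : r ≤ 1) (hs : s1 + s2 = 1 - r) {p q : Z3}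
    (hp : p ≠ 0) (hq : q ≠ 0) (hk : p + q ≠ 0) (hle : ax p ≤ ax q) :
    ax (p + q) ≤ 2 ^ (1 - r) * (ax p ^ s1 * ax q ^ s2) * ax (p + q) ^ r := by
  have a1 := ax_pos hp
  have a2 := ax_pos hq
  have a3 := ax_pos hk
  have e : ax (p + q) = ax (p + q) ^ (1 - r) * ax (p + q) ^ r := by
    rw [← Real.rpow_add a3]; simp
  conv_lhs => rw [e]
  gcongr
  calc ax (p + q) ^ (1 - r) ≤ (2 * ax q) ^ (1 - r) :=
        Real.rpow_le_rpow a3.le (by linarith [ax_add_le p q]) (by linarith)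
    _ = 2 ^ (1 - r) * (ax q ^ s1 * ax q ^ s2) := by
        rw [Real.mul_rpow two_pos.le a2.le, ← Real.rpow_add a2, hs]
    _ ≤ _ := by
        gcongr 2 ^ (1 - r) * (?_ * _)
        exact Real.rpow_le_rpow_of_nonpos a1 hle h1

lemma abs_re_tt_le {s1 s2 r : ℝ} (h1 : s1 ≤ 0) (hr : r ≤ 1) (hs : s1 + s2 = 1 - r)
    {a c : Z3 → C3} (da : DivFree a) (ra : IsReal a) (hc : ∀ k, (⟪c k, a k⟫_ℂ).im = 0)
    (z : Z3 × Z3) :
    |(tt a a c z).re| ≤ 2 ^ (1 - r) * (wm s1 a z.1 * wm s2 a z.2 * wm r c (z.1 + z.2) +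
      wm s1 a z.2 * wm s2 a z.1 * wm r c (z.2 + z.1)) := by
  obtain ⟨p, q⟩ := z
  have n1 := mul_nonneg (mul_nonneg (wm_nonneg s1 a p) (wm_nonneg s2 a q)) (wm_nonneg r c (p + q))
  have n2 := mul_nonneg (mul_nonneg (wm_nonneg s1 a q) (wm_nonneg s2 a p)) (wm_nonneg r c (q + p))
  have n3 : (0 : ℝ) < 2 ^ (1 - r) := by positivity
  have e : dt (a p) q = dt (a p) (p + q) := by rw [dt_add_right, da p, zero_add]
  dsimp only
  by_cases hp : p = 0
  · have h0 : (dt (a 0) q).im = 0 := by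
      have h := dt_cj (a 0) q
      rw [← ra 0, neg_zero] at h
      exact Complex.conj_eq_iff_im.mp h.symm
    have : (tt a a c (p, q)).re = 0 := by
      simp [tt, hp, h0, hc q]
    rw [this, abs_zero]; (clear * - n1 n2; positivity)
  by_cases hq : q = 0
  · have : tt a a c (p, q) = 0 := by simp [tt, hq]
    rw [this]; simp only [zero_re, abs_zero]; (clear * - n1 n2; positivity)
  by_cases hk : p + q = 0
  · have : tt a a c (p, q) = 0 := by simp [tt, e, hk]
    rw [this]; simp only [zero_re, abs_zero]; (clear * - n1 n2; positivity)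
  have hk' : q + p ≠ 0 := by rwa [add_comm]
  have b : |(tt a a c (p, q)).re| ≤ ax (p + q) * (‖a p‖ * ‖a q‖ * ‖c (p + q)‖) := by
    refine (Complex.abs_re_le_norm _).trans ?_
    rw [tt, norm_mul, norm_mul, Complex.norm_I, one_mul]
    dsimp only
    rw [e]
    calc ‖dt (a p) (p + q)‖ * ‖⟪c (p + q), a q⟫_ℂ‖
        ≤ (‖a p‖ * ax (p + q)) * (‖c (p + q)‖ * ‖a q‖) :=
          mul_le_mul (norm_dt_le _ _) (norm_inner_le_norm _ _) (norm_nonneg _)
            (mul_nonneg (norm_nonneg _) (ax_nonneg _))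
      _ = _ := by ring
  refine b.trans ?_
  rcases le_total (ax p) (ax q) with h | h
  · have := freq_split h1 hr hs hp hq hk h
    calc ax (p + q) * (‖a p‖ * ‖a q‖ * ‖c (p + q)‖)
        ≤ (2 ^ (1 - r) * (ax p ^ s1 * ax q ^ s2) * ax (p + q) ^ r) *
            (‖a p‖ * ‖a q‖ * ‖c (p + q)‖) := by gcongr
      _ = 2 ^ (1 - r) * (wm s1 a p * wm s2 a q * wm r c (p + q)) := by
          simp only [wm, if_neg hp, if_neg hq, if_neg hk]; ring
      _ ≤ _ := by gcongr; linarith only [n2]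
  · have := freq_split h1 hr hs hq hp hk' h
    rw [add_comm p q]
    calc ax (q + p) * (‖a p‖ * ‖a q‖ * ‖c (q + p)‖)
        ≤ (2 ^ (1 - r) * (ax q ^ s1 * ax p ^ s2) * ax (q + p) ^ r) *
            (‖a p‖ * ‖a q‖ * ‖c (q + p)‖) := by gcongr
      _ = 2 ^ (1 - r) * (wm s1 a q * wm s2 a p * wm r c (q + p)) := by
          simp only [wm, if_neg hp, if_neg hq, if_neg hk']; ring
      _ ≤ _ := by rw [add_comm p q] at n1; gcongr; linarith only [n1]

/-- The main trilinear estimate, with a free scale `R`. -/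
theorem tri_est {σ β θ₁ θ₂ r : ℝ} (h1 : 0 < θ₁) (h2 : θ₁ < β) (h3 : 0 ≤ θ₂) (h4 : θ₂ ≤ β)
    (h5 : σ + θ₁ ≤ 3 / 2) (h6 : r ≤ 1) (h7 : θ₁ + θ₂ = 5 / 2 - r - 2 * σ) :
    ∃ C : ℝ, 0 < C ∧ ∀ a c : Z3 → C3, Rapid a → Rapid c → DivFree a → IsReal a →
      (∀ k, (⟪c k, a k⟫_ℂ).im = 0) → ∀ R : ℝ, 0 < R →
      |(TT a a c).re| ≤
        C * hs r c * (R ^ (θ₁ + θ₂ - 2 * β) * (R ^ (2 * β) * hq σ a + hq (σ + β) a)) := by
  obtain ⟨C, hC0, hC⟩ := exists_sum_mu_le (γ₁ := 2 * θ₁) (γ₂ := 2 * β - 2 * θ₁) (by linarith only [h1])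
    (by linarith only [h2])
  refine ⟨2 ^ (1 - r) * 2 * √C, by positivity, fun a c ha hc da ra hi R hR => ?_⟩
  set W := R ^ (2 * β) * hq σ a + hq (σ + β) a with hW
  have W0 : 0 ≤ W := by have := hq_nonneg σ a; have := hq_nonneg (σ + β) a; positivity
  have sW : HasSum (fun k => R ^ (2 * β) * ht σ a k + ht (σ + β) a k) W :=
    ((ha.summable_ht σ).hasSum.mul_left _).add (ha.summable_ht (σ + β)).hasSum
  set x := wm (σ + θ₁ - 3 / 2) a
  set y := wm (σ + θ₂) a
  set z := wm r c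
  have sx : Summable x := ha.summable_wm _
  have sy : Summable fun k => y k ^ 2 := by simpa only [y, wm_sq] using ha.summable_ht _
  have sz : Summable fun k => z k ^ 2 := by simpa only [z, wm_sq] using hc.summable_ht _
  have hX : ∑' k, x k ≤ √C * √(R ^ (2 * θ₁ - 2 * β) * W) := by
    have sm : Summable (mu (2 * θ₁) (2 * β - 2 * θ₁) R) :=
      summable_of_sum_le (mu_nonneg _ _ hR) (hC R hR)
    have lm : ∑' k, mu (2 * θ₁) (2 * β - 2 * θ₁) R k ≤ C :=
      Real.tsum_le_of_sum_le (mu_nonneg _ _ hR) (hC R hR)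
    refine le_sqrt_of_forall hC0.le (by positivity) fun l hl => ?_
    refine le_trans (hasSum_le (fun k => ?_) sx.hasSum
      (((sm.hasSum.mul_left l).add ((sW.mul_left (R ^ (2 * θ₁ - 2 * β))).div_const l)).div_const 2))
      (by gcongr)
    have b := wm_sq_le_mu (σ := σ) (β := β) (θ := θ₁) hR a k
    have m0 := mu_nonneg (2 * θ₁) (2 * β - 2 * θ₁) hR k
    set m := mu (2 * θ₁) (2 * β - 2 * θ₁) R k
    set g := R ^ (2 * θ₁ - 2 * β) * (R ^ (2 * β) * ht σ a k + ht (σ + β) a k)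
    have g0 : 0 ≤ g := by
      have := ht_nonneg σ a k; have := ht_nonneg (σ + β) a k; positivity
    refine (pow_le_pow_iff_left₀ (wm_nonneg _ _ _) (by (clear * - hl m0 g0; positivity)) two_ne_zero).mp (b.trans ?_)
    have e1 : ((l * m + g / l) / 2) ^ 2 - m * g = ((l * m - g / l) / 2) ^ 2 := by
      field_simp; ring
    linarith only [e1, sq_nonneg ((l * m - g / l) / 2)]
  have hY : ∑' k, y k ^ 2 ≤ R ^ (2 * θ₂ - 2 * β) * W := by
    refine hasSum_le (fun k => ?_) sy.hasSum (sW.mul_left _)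
    simp only [y, wm_sq]
    exact ht_interp hR h3 h4 a k
  have hZ : √(∑' k, z k ^ 2) = hs r c := by simp only [z, wm_sq]; rfl
  obtain ⟨M1, hM1⟩ := ha 1
  obtain ⟨M0, hM0⟩ := hc 0
  have st := summable_norm_tt (hM1.mono (Nat.zero_le 1)) hM1 hM0.norm_le
  have sre : Summable fun p => |(tt a a c p).re| :=
    Summable.of_nonneg_of_le (fun _ => abs_nonneg _) (fun _ => Complex.abs_re_le_norm _) st
  have x0 : ∀ k, 0 ≤ x k := wm_nonneg _ _
  have y0 : ∀ k, 0 ≤ y k := wm_nonneg _ _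
  have z0 : ∀ k, 0 ≤ z k := wm_nonneg _ _
  have sf : Summable fun p : Z3 × Z3 => x p.1 * y p.2 * z (p.1 + p.2) := by
    have h := (sx.mul_of_nonneg (ha.summable_wm (σ + θ₂)) x0 y0).mul_right (∑' k, z k)
    refine Summable.of_nonneg_of_le (fun p => mul_nonneg (mul_nonneg (x0 _) (y0 _)) (z0 _))
      (fun p => ?_) h
    exact mul_le_mul_of_nonneg_left ((hc.summable_wm r).le_tsum _ fun k _ => z0 k)
      (mul_nonneg (x0 _) (y0 _))
  have hf := young_l1_l2_l2 x0 sx sy sz sf fun _ => le_rfl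
  have sf' := ((Equiv.prodComm Z3 Z3).hasSum_iff).mpr sf.hasSum
  have hT : |(TT a a c).re| ≤ 2 ^ (1 - r) * ((∑' p : Z3 × Z3, x p.1 * y p.2 * z (p.1 + p.2)) +
      ∑' p : Z3 × Z3, x p.1 * y p.2 * z (p.1 + p.2)) := by
    have e : (TT a a c).re = ∑' p, (tt a a c p).re := Complex.reCLM.map_tsum st.of_norm
    rw [e, ← Real.norm_eq_abs]
    refine tsum_of_norm_bounded ((sf.hasSum.add sf').mul_left _) fun p => ?_
    exact abs_re_tt_le (by linarith only [h5]) h6 (by linarith only [h7]) da ra hi p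
  rw [hZ] at hf
  have hs0 := hs_nonneg r c
  have e : √(R ^ (2 * θ₁ - 2 * β) * W) * √(R ^ (2 * θ₂ - 2 * β) * W) =
      R ^ (θ₁ + θ₂ - 2 * β) * W := by
    rw [← Real.sqrt_mul (by positivity)]
    have : R ^ (2 * θ₁ - 2 * β) * W * (R ^ (2 * θ₂ - 2 * β) * W) =
        (R ^ (θ₁ + θ₂ - 2 * β) * W) ^ 2 := by
      have : R ^ (2 * θ₁ - 2 * β) * R ^ (2 * θ₂ - 2 * β) =
          R ^ (θ₁ + θ₂ - 2 * β) * R ^ (θ₁ + θ₂ - 2 * β) := by
        rw [← Real.rpow_add hR, ← Real.rpow_add hR]; congr 1; ring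
      calc _ = (R ^ (2 * θ₁ - 2 * β) * R ^ (2 * θ₂ - 2 * β)) * W ^ 2 := by ring
        _ = _ := by rw [this]; ring
    rw [this, Real.sqrt_sq (by positivity)]
  have hf2 : ∑' p : Z3 × Z3, x p.1 * y p.2 * z (p.1 + p.2) ≤
      √C * √(R ^ (2 * θ₁ - 2 * β) * W) * (√(R ^ (2 * θ₂ - 2 * β) * W) * hs r c) := by
    refine hf.trans ?_
    (clear * - hC0 hX hY hs0; gcongr)
  calc |(TT a a c).re| ≤ 2 ^ (1 - r) * (2 * (√C * √(R ^ (2 * θ₁ - 2 * β) * W) *
        (√(R ^ (2 * θ₂ - 2 * β) * W) * hs r c))) := by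
        refine hT.trans ?_
        gcongr; linarith only [hf2]
    _ = 2 ^ (1 - r) * 2 * √C * hs r c *
        (√(R ^ (2 * θ₁ - 2 * β) * W) * √(R ^ (2 * θ₂ - 2 * β) * W)) := by ring
    _ = _ := by rw [e]

/-- Choice of the scale. -/
lemma choose_scale {C m θ β q Y D S ε : ℝ} (hC : 0 < C) (hm : 0 ≤ m) (hε : 0 < ε)
    (hθ : θ < 2 * β) (hq : q * (2 * β - θ) = 2 * β) (hq0 : 0 < q)
    (h : ∀ R : ℝ, 0 < R → S ≤ C * m * (R ^ (θ - 2 * β) * (R ^ (2 * β) * Y + D)))
    (hD : 0 ≤ D) : S ≤ ε * D + ε * (C / ε) ^ q * m ^ q * Y := by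
  rcases hm.eq_or_lt with h0 | h0
  · have := h 1 one_pos
    rw [← h0] at this ⊢
    rw [Real.zero_rpow hq0.ne']
    have : 0 ≤ ε * D := by positivity
    simp only [mul_zero, zero_mul, add_zero] at *
    linarith
  · have hp : 0 < C * m / ε := by positivity
    have hd : 0 < 2 * β - θ := by linarith only [hθ]
    have := h ((C * m / ε) ^ (1 / (2 * β - θ))) (by positivity)
    rw [← Real.rpow_mul hp.le, ← Real.rpow_mul hp.le] at this
    have e1 : 1 / (2 * β - θ) * (θ - 2 * β) = -1 := by field_simp; ring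
    have e2 : 1 / (2 * β - θ) * (2 * β) = q := by field_simp; linarith only [hq]
    rw [e1, e2, Real.rpow_neg_one] at this
    refine this.trans (le_of_eq ?_)
    have e3 : (C * m / ε) ^ q = (C / ε) ^ q * m ^ q := by
      rw [← Real.mul_rpow (by positivity) hm]; congr 1; ring
    rw [e3]; field_simp; ring

end

end Pool.Agent.Work.MP_6bf1e5_an.B
end

-- merged part: Pool.Agent.Work.MP_6bf1e5_an.B.Gron
section
/-!
An Osgood type Gronwall lemma with a coefficient that is only assumed to have finite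
lower integral.
-/

open Set Filter Topology MeasureTheory

namespace Pool.Agent.Work.MP_6bf1e5_an.B

lemma ofReal_integral_le {h : ℝ → ℝ} {T : ℝ} (hc : ContinuousOn h (Icc 0 T)) :
    ENNReal.ofReal (∫ t in Ioo 0 T, h t) ≤ ∫⁻ t in Ioo 0 T, ENNReal.ofReal (h t) := by
  have hi : IntegrableOn h (Ioo 0 T) := (hc.integrableOn_Icc).mono_set Ioo_subset_Icc_self
  have hp : IntegrableOn (fun t => max (h t) 0) (Ioo 0 T) := hi.pos_part
  calc ENNReal.ofReal (∫ t in Ioo 0 T, h t) ≤ ENNReal.ofReal (∫ t in Ioo 0 T, max (h t) 0) :=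
        ENNReal.ofReal_le_ofReal (integral_mono hi hp fun t => le_max_left _ _)
    _ = ∫⁻ t in Ioo 0 T, ENNReal.ofReal (max (h t) 0) :=
        ofReal_integral_eq_lintegral_ofReal hp (ae_of_all _ fun t => le_max_right _ _)
    _ = _ := by simp

lemma integral_Ioo_deriv {f f' : ℝ → ℝ} {T : ℝ} (hT : 0 ≤ T)
    (hd : ∀ t ∈ Icc 0 T, HasDerivWithinAt f (f' t) (Icc 0 T) t) (hc : ContinuousOn f' (Icc 0 T)) :
    ∫ t in Ioo 0 T, f' t = f T - f 0 := by
  rw [← integral_Ioc_eq_integral_Ioo, ← intervalIntegral.integral_of_le hT]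
  refine intervalIntegral.integral_eq_sub_of_hasDerivAt_of_le hT
    (fun t ht => (hd t ht).continuousWithinAt)
    (fun t ht => (hd t (Ioo_subset_Icc_self ht)).hasDerivAt (Icc_mem_nhds ht.1 ht.2)) ?_
  exact (hc.mono (by rw [uIcc_of_le hT])).intervalIntegrable

lemma ofReal_sub_le {f f' : ℝ → ℝ} {T : ℝ} (hT : 0 ≤ T)
    (hd : ∀ t ∈ Icc 0 T, HasDerivWithinAt f (f' t) (Icc 0 T) t) (hc : ContinuousOn f' (Icc 0 T))
    {g : ℝ → ENNReal} (hg : ∀ t ∈ Ioo 0 T, ENNReal.ofReal (f' t) ≤ g t) :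
    ENNReal.ofReal (f T - f 0) ≤ ∫⁻ t in Ioo 0 T, g t := by
  rw [← integral_Ioo_deriv hT hd hc]
  exact (ofReal_integral_le hc).trans (setLIntegral_mono' measurableSet_Ioo hg)

lemma one_le_log_e_add {y : ℝ} (hy : 0 ≤ y) : 1 ≤ Real.log (Real.exp 1 + y) := by
  calc (1 : ℝ) = Real.log (Real.exp 1) := (Real.log_exp 1).symm
    _ ≤ _ := Real.log_le_log (Real.exp_pos 1) (by linarith)

theorem osgood (y0 K : ℝ) (hK : 0 ≤ K) : ∃ B : ℝ, 0 ≤ B ∧ ∀ (T : ℝ) (y y' d G : ℝ → ℝ), 0 ≤ T →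
    y 0 = y0 → (∀ t ∈ Icc 0 T, HasDerivWithinAt y (y' t) (Icc 0 T) t) → ContinuousOn y' (Icc 0 T) →
    ContinuousOn d (Icc 0 T) → (∀ t ∈ Icc 0 T, 0 ≤ y t) → (∀ t ∈ Icc 0 T, 0 ≤ d t) →
    (∀ t ∈ Icc 0 T, 0 ≤ G t) →
    (∀ t ∈ Icc 0 T, y' t + d t ≤ G t * ((Real.exp 1 + y t) * Real.log (Real.exp 1 + y t))) →
    ∫⁻ t in Ioo 0 T, ENNReal.ofReal (G t) ≤ ENNReal.ofReal K →
    (∀ t ∈ Icc 0 T, y t ≤ B) ∧ ∫⁻ t in Ioo 0 T, ENNReal.ofReal (d t) ≤ ENNReal.ofReal B := by
  set L := Real.exp (Real.log (Real.log (Real.exp 1 + y0)) + K) with hL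
  have L0 : 0 < L := Real.exp_pos _
  refine ⟨max (Real.exp L) (|y0| + K * (Real.exp L * L)), le_max_of_le_left (Real.exp_pos _).le,
    fun T y y' d G hT h0 hd hc hdc hy hd0 hG hle hI => ?_⟩
  have e0 := Real.exp_pos 1
  have hlog : ∀ t ∈ Icc 0 T, Real.log (Real.exp 1 + y t) ≤ L := by
    intro t ht
    have sub : Icc 0 t ⊆ Icc 0 T := Icc_subset_Icc_right ht.2
    have hp : ∀ s ∈ Icc 0 T, 0 < Real.exp 1 + y s := fun s hs => by linarith [hy s hs]
    have hl : ∀ s ∈ Icc 0 T, 0 < Real.log (Real.exp 1 + y s) := fun s hs => by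
      linarith [one_le_log_e_add (hy s hs)]
    have ycont : ContinuousOn y (Icc 0 T) := fun s hs => (hd s hs).continuousWithinAt
    have key := ofReal_sub_le (f := fun s => Real.log (Real.log (Real.exp 1 + y s)))
      (f' := fun s => y' s / (Real.exp 1 + y s) / Real.log (Real.exp 1 + y s)) ht.1
      (fun s hs => ((((hd s (sub hs)).mono sub).const_add (Real.exp 1)).log
        (hp s (sub hs)).ne').log (hl s (sub hs)).ne')
      (((hc.div (continuousOn_const.add ycont) fun s hs => (hp s hs).ne').div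
        ((continuousOn_const.add ycont).log fun s hs => (hp s hs).ne')
        fun s hs => (hl s hs).ne').mono sub)
      (g := fun s => ENNReal.ofReal (G s)) (fun s hs => by
        have hs' := sub (Ioo_subset_Icc_self hs)
        refine ENNReal.ofReal_le_ofReal ?_
        rw [div_div, div_le_iff₀ (mul_pos (hp s hs') (hl s hs'))]
        linarith [hle s hs', hd0 s hs'])
    have key2 := key.trans ((lintegral_mono_set (Ioo_subset_Ioo_right ht.2)).trans hI)
    rw [ENNReal.ofReal_le_ofReal_iff hK, h0] at key2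
    rw [hL, ← Real.log_le_iff_le_exp (hl t ht)]
    linarith
  have hyb : ∀ t ∈ Icc 0 T, Real.exp 1 + y t ≤ Real.exp L := fun t ht =>
    (Real.log_le_iff_le_exp (by linarith [hy t ht])).mp (hlog t ht)
  refine ⟨fun t ht => le_max_of_le_left (by linarith [hyb t ht]), ?_⟩
  have hi : IntegrableOn d (Ioo 0 T) := (hdc.integrableOn_Icc).mono_set Ioo_subset_Icc_self
  have hi' : IntegrableOn y' (Ioo 0 T) := (hc.integrableOn_Icc).mono_set Ioo_subset_Icc_self
  rw [← ofReal_integral_eq_lintegral_ofReal hi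
    ((ae_restrict_iff' measurableSet_Ioo).mpr (ae_of_all _ fun t ht => hd0 t (Ioo_subset_Icc_self ht)))]
  refine ENNReal.ofReal_le_ofReal (le_max_of_le_right ?_)
  have h1 : ENNReal.ofReal (∫ t in Ioo 0 T, (y' t + d t)) ≤
      ENNReal.ofReal (K * (Real.exp L * L)) := by
    refine (ofReal_integral_le (hc.add hdc)).trans ?_
    calc ∫⁻ t in Ioo 0 T, ENNReal.ofReal (y' t + d t)
        ≤ ∫⁻ t in Ioo 0 T, ENNReal.ofReal (Real.exp L * L) * ENNReal.ofReal (G t) := by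
          refine setLIntegral_mono' measurableSet_Ioo fun t ht => ?_
          have ht' := Ioo_subset_Icc_self ht
          rw [← ENNReal.ofReal_mul (by positivity)]
          refine ENNReal.ofReal_le_ofReal ((hle t ht').trans ?_)
          rw [mul_comm (Real.exp L * L)]
          refine mul_le_mul_of_nonneg_left ?_ (hG t ht')
          exact mul_le_mul (hyb t ht') (hlog t ht')
            (by linarith [one_le_log_e_add (hy t ht')]) (Real.exp_pos _).le
      _ = ENNReal.ofReal (Real.exp L * L) * ∫⁻ t in Ioo 0 T, ENNReal.ofReal (G t) :=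
          lintegral_const_mul' _ _ ENNReal.ofReal_ne_top
      _ ≤ ENNReal.ofReal (Real.exp L * L) * ENNReal.ofReal K := by gcongr
      _ = _ := by rw [← ENNReal.ofReal_mul (by positivity), mul_comm]
  rw [ENNReal.ofReal_le_ofReal_iff (by positivity), integral_add hi' hi,
    integral_Ioo_deriv hT hd hc, h0] at h1
  linarith [hy T ⟨hT, le_rfl⟩, le_abs_self y0]

/-- A function dominating `1 / (Ts - t)` up to constants is not integrable near `Ts`. -/
theorem not_integrable_blowup {Ts c₁ c₂ K : ℝ} (hTs : 0 < Ts) (h1 : 0 ≤ c₁) (h2 : 0 ≤ c₂)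
    (hK : 0 ≤ K) {d : ℝ → ℝ} (hd0 : ∀ t ∈ Ico 0 Ts, 0 ≤ d t)
    (hle : ∀ t ∈ Ico 0 Ts, 1 / (Ts - t) ≤ c₁ + c₂ * d t)
    (hI : ∀ T ∈ Ico 0 Ts, ∫⁻ t in Ioo 0 T, ENNReal.ofReal (d t) ≤ ENNReal.ofReal K) : False := by
  set M := c₁ * Ts + c₂ * K with hM
  have M0 : 0 ≤ M := by positivity
  set T := Ts - Ts * Real.exp (-(M + 1)) with hT
  have e1 : Real.exp (-(M + 1)) ≤ 1 := Real.exp_le_one_iff.mpr (by linarith)
  have e2 := Real.exp_pos (-(M + 1))
  have T0 : 0 ≤ T := by nlinarith only [hTs, e1]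
  have T1 : T < Ts := by nlinarith only [hTs, e2]
  have hp : ∀ s ∈ Icc 0 T, 0 < Ts - s := fun s hs => by linarith [hs.2]
  have key := ofReal_sub_le (f := fun s => -Real.log (Ts - s)) (f' := fun s => 1 / (Ts - s)) T0
    (fun s hs => by
      have := (((hasDerivWithinAt_id s (Icc 0 T)).const_sub Ts).log (hp s hs).ne').fun_neg
      refine HasDerivWithinAt.congr_deriv this ?_
      simp only [id]; ring)
    (continuousOn_const.div (continuousOn_const.sub continuousOn_id) fun s hs => (hp s hs).ne')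
    (g := fun s => ENNReal.ofReal c₁ + ENNReal.ofReal c₂ * ENNReal.ofReal (d s)) (fun s hs => by
      have hs' : s ∈ Ico 0 Ts := ⟨hs.1.le, hs.2.trans T1⟩
      rw [← ENNReal.ofReal_mul h2, ← ENNReal.ofReal_add h1 (mul_nonneg h2 (hd0 s hs'))]
      exact ENNReal.ofReal_le_ofReal (hle s hs'))
  rw [lintegral_add_left measurable_const, lintegral_const_mul' _ _ ENNReal.ofReal_ne_top] at key
  have k2 : ∫⁻ _ in Ioo 0 T, ENNReal.ofReal c₁ ≤ ENNReal.ofReal (c₁ * Ts) := by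
    rw [setLIntegral_const, Real.volume_Ioo, ← ENNReal.ofReal_mul h1]
    exact ENNReal.ofReal_le_ofReal (mul_le_mul_of_nonneg_left (by linarith) h1)
  have k3 : ENNReal.ofReal c₂ * ∫⁻ t in Ioo 0 T, ENNReal.ofReal (d t) ≤ ENNReal.ofReal (c₂ * K) := by
    rw [ENNReal.ofReal_mul h2]
    gcongr
    exact hI T ⟨T0, T1⟩
  have k4 := key.trans (add_le_add k2 k3)
  rw [← ENNReal.ofReal_add (by positivity) (by positivity), ENNReal.ofReal_le_ofReal_iff M0] at k4
  have e3 : Ts - T = Ts * Real.exp (-(M + 1)) := by rw [hT]; ring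
  rw [e3, Real.log_mul hTs.ne' e2.ne', Real.log_exp, sub_zero] at k4
  linarith

end Pool.Agent.Work.MP_6bf1e5_an.B
end

-- merged part: Pool.Agent.Work.MP_6bf1e5_an.B.Energy
section
/-!
Energy-type identities along solutions and the basic continuation principle:
`∫ ‖u‖²_{H^{3/2}} dt < ∞` excludes blow-up.
-/

open Set Complex Filter Topology MeasureTheory
open scoped InnerProductSpace ComplexConjugate

namespace Pool.Agent.Work.MP_6bf1e5_an.B

noncomputable section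

variable {ν : ℝ} {A : Z3 → C3 →L[ℂ] C3}

/-- Symmetric multipliers of polynomial growth. -/
structure Mult (Φ : Z3 → C3 →L[ℂ] C3) : Prop where
  sym : ∀ k u v, ⟪Φ k u, v⟫_ℂ = ⟪u, Φ k v⟫_ℂ
  growth : ∃ (C : ℝ) (m : ℕ), 0 ≤ C ∧ ∀ k v, ‖Φ k v‖ ≤ C * w k ^ m * ‖v‖

/-- The sesquilinear pairing through a multiplier, real part. -/
def QQ (Φ : Z3 → C3 →L[ℂ] C3) (a b : Z3 → C3) : ℝ := ∑' k, (⟪Φ k (a k), b k⟫_ℂ).re

lemma Rapid.map {Φ : Z3 → C3 →L[ℂ] C3} {C : ℝ} {m : ℕ} (hC : 0 ≤ C)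
    (hg : ∀ k v, ‖Φ k v‖ ≤ C * w k ^ m * ‖v‖) {a : Z3 → C3} (ha : Rapid a) :
    Rapid fun k => Φ k (a k) := fun s => by
  obtain ⟨M, hM⟩ := ha (s + m)
  exact ⟨_, Bd.of_growth hM hC fun k => hg k _⟩

lemma Mult.summable {Φ : Z3 → C3 →L[ℂ] C3} (hΦ : Mult Φ) {a b : Z3 → C3} (ha : Rapid a)
    (hb : Rapid b) : Summable fun k => (⟪Φ k (a k), b k⟫_ℂ).re := by
  obtain ⟨C, m, hC, hg⟩ := hΦ.growth
  obtain ⟨M, hM⟩ := ha (m + 4)
  obtain ⟨N, hN⟩ := hb 0
  exact summable_re_inner hC hg hM hN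

lemma IsSol.rapid {a : ℝ → Z3 → C3} {t0 t1 : ℝ} (ha : IsSol A a t0 t1) {t : ℝ}
    (ht : t ∈ Icc t0 t1) : Rapid (a t) := fun s => (ha.bd s).imp fun _ hM => hM t ht

lemma IsSol.continuousOn {a : ℝ → Z3 → C3} {t0 t1 : ℝ} (ha : IsSol A a t0 t1) (k : Z3) :
    ContinuousOn (fun t => a t k) (Icc t0 t1) := fun t ht => (ha.deriv k t ht).continuousWithinAt

lemma IsSol.continuousOn_FF {a : ℝ → Z3 → C3} {t0 t1 : ℝ} (ha : IsSol A a t0 t1) (k : Z3) :
    ContinuousOn (fun t => FF A (a t) k) (Icc t0 t1) := by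
  obtain ⟨M, hM⟩ := ha.bd 4
  have hB : ContinuousOn (fun t => BB (a t) (a t) k) (Icc t0 t1) := fun t ht =>
    tendsto_BB (fun k => ha.continuousOn k t ht) (fun k => ha.continuousOn k t ht)
      (eventually_nhdsWithin_of_forall fun s hs => ⟨hM s hs, (hM s hs).mono (by norm_num)⟩) k
  exact ((LP k).continuous.comp_continuousOn hB).neg.sub
    ((A k).continuous.comp_continuousOn (ha.continuousOn k))

lemma continuousOn_QQ {Φ : Z3 → C3 →L[ℂ] C3} (hΦ : Mult Φ) {a b : ℝ → Z3 → C3} {S : Set ℝ}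
    (hb : ∀ s, ∃ M, ∀ t ∈ S, Bd s (a t) M) (hb' : ∃ M, ∀ t ∈ S, Bd 0 (b t) M)
    (ca : ∀ k, ContinuousOn (fun t => a t k) S) (cb : ∀ k, ContinuousOn (fun t => b t k) S) :
    ContinuousOn (fun t => QQ Φ (a t) (b t)) S := by
  obtain ⟨C, m, hC, hg⟩ := hΦ.growth
  obtain ⟨M, hM⟩ := hb (m + 4)
  obtain ⟨N, hN⟩ := hb'
  refine continuousOn_tsum (fun k => ?_) (((summable_w_inv.mul_left M).mul_left C).mul_right N)
    fun k t ht => norm_re_inner_le hC hg (hM t ht) (hN t ht) k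
  exact Complex.continuous_re.comp_continuousOn
    (((Φ k).continuous.comp_continuousOn (ca k)).inner (cb k))

lemma IsSol.continuousOn_hq {a : ℝ → Z3 → C3} {t0 t1 : ℝ} (ha : IsSol A a t0 t1) (r : ℝ) :
    ContinuousOn (fun t => hq r (a t)) (Icc t0 t1) := by
  obtain ⟨M, hM⟩ := ha.bd (⌈2 * r⌉₊ + 4)
  refine continuousOn_tsum (fun k => ?_) ((summable_w_inv.mul_left M).mul_right M)
    fun k t ht' => ?_
  · unfold ht
    split_ifs
    · exact continuousOn_const
    · exact continuousOn_const.mul ((ha.continuousOn k).norm.pow 2)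
  · rw [Real.norm_of_nonneg (ht_nonneg _ _ _)]
    refine (ht_le (Nat.le_ceil _) ((hM t ht').mono (Nat.le_add_right _ 4)) k).trans ?_
    exact mul_le_mul_of_nonneg_right ((hM t ht').decay k) (hM t ht').nonneg

lemma IsSol.hasDeriv_QQ (hA : Diss ν A) {a : ℝ → Z3 → C3} {t0 t1 : ℝ} (ha : IsSol A a t0 t1)
    {Φ : Z3 → C3 →L[ℂ] C3} (hΦ : Mult Φ) {t : ℝ} (ht : t ∈ Icc t0 t1) :
    HasDerivWithinAt (fun t => QQ Φ (a t) (a t)) (2 * QQ Φ (a t) (FF A (a t))) (Icc t0 t1) t := by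
  obtain ⟨C, m, hC, hg⟩ := hΦ.growth
  obtain ⟨M, hM⟩ := ha.bd (m + 4)
  obtain ⟨N, hN⟩ := ha.FF_bd hA 0
  have := hasDerivWithinAt_quad (convex_Icc t0 t1) hΦ.sym hC hg hM hN ha.deriv ht
  rwa [tsum_mul_left] at this

lemma IsSol.continuousOn_QQ_FF (hA : Diss ν A) {a : ℝ → Z3 → C3} {t0 t1 : ℝ}
    (ha : IsSol A a t0 t1) {Φ : Z3 → C3 →L[ℂ] C3} (hΦ : Mult Φ) :
    ContinuousOn (fun t => 2 * QQ Φ (a t) (FF A (a t))) (Icc t0 t1) :=
  continuousOn_const.mul
    (continuousOn_QQ hΦ ha.bd (ha.FF_bd hA 0) ha.continuousOn ha.continuousOn_FF)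

lemma inner_LP_left (k : Z3) (u v : C3) : ⟪LP k u, v⟫_ℂ = ⟪u, LP k v⟫_ℂ := by
  rw [← inner_LP (dt_LP k u) v, ← inner_conj_symm, inner_LP (dt_LP k v) u, inner_conj_symm]

/-- The test field `Φ a - α curl a - β a`. -/
def tf (Φ : Z3 → C3 →L[ℂ] C3) (α β : ℝ) (a : Z3 → C3) (k : Z3) : C3 :=
  Φ k (a k) - (α : ℂ) • curlS k (a k) - (β : ℂ) • a k

lemma Rapid.curl {a : Z3 → C3} (ha : Rapid a) : Rapid fun k => curlS k (a k) :=
  Rapid.map (Φ := curlL) (C := 1) (m := 1) zero_le_one (fun k v => by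
    simpa using (norm_curlS_le k v).trans (mul_le_mul_of_nonneg_right (ax_le_w k) (norm_nonneg v))) ha

lemma Rapid.smul {a : Z3 → C3} (ha : Rapid a) (c : ℂ) : Rapid fun k => c • a k := fun s => by
  obtain ⟨M, hM⟩ := ha s
  exact ⟨_, Bd.of_growth (s := s) (m := 0) hM (norm_nonneg c) fun k => by simp [norm_smul]⟩

lemma Rapid.sub {a b : Z3 → C3} (ha : Rapid a) (hb : Rapid b) : Rapid fun k => a k - b k :=
  fun s => by
    obtain ⟨M, hM⟩ := ha s
    obtain ⟨N, hN⟩ := hb s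
    exact ⟨_, hM.sub hN⟩

lemma Rapid.LP {a : Z3 → C3} (ha : Rapid a) : Rapid fun k => LP k (a k) := fun s =>
  (ha s).imp fun _ hM => hM.LP

lemma Mult.rapid_tf {Φ : Z3 → C3 →L[ℂ] C3} (hΦ : Mult Φ) (α β : ℝ) {a : Z3 → C3} (ha : Rapid a) :
    Rapid (tf Φ α β a) := by
  obtain ⟨C, m, hC, hg⟩ := hΦ.growth
  exact ((ha.map hC hg).sub (ha.curl.smul _)).sub (ha.smul _)

lemma im_inner_of_sym {u v : C3} (h : ⟪u, v⟫_ℂ = ⟪v, u⟫_ℂ) : (⟪u, v⟫_ℂ).im = 0 := by
  rw [← Complex.conj_eq_iff_im, inner_conj_symm, h]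

lemma Mult.im_tf {Φ : Z3 → C3 →L[ℂ] C3} (hΦ : Mult Φ) (α β : ℝ) {a : Z3 → C3} (da : DivFree a)
    (k : Z3) : (⟪LP k (tf Φ α β a k), a k⟫_ℂ).im = 0 := by
  rw [inner_LP_left, LP_of_div (da k), tf, inner_sub_left, inner_sub_left, inner_smul_left,
    inner_smul_left]
  have h1 := im_inner_of_sym (hΦ.sym k (a k) (a k))
  have h2 := im_inner_of_sym (inner_curlS k (a k) (a k))
  have h3 := im_inner_of_sym (u := a k) (v := a k) rfl
  simp only [Complex.sub_im, Complex.mul_im, Complex.conj_ofReal, Complex.ofReal_im, h1, h2, h3]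
  ring

/-- The nonlinear term tested against `Φ a` only sees `Φ a` modulo `curl a` and `a`. -/
lemma QQ_FF (hA : Diss ν A) {Φ : Z3 → C3 →L[ℂ] C3} (hΦ : Mult Φ) (α β : ℝ) {a : Z3 → C3}
    (ha : Rapid a) (da : DivFree a) (ra : IsReal a) :
    QQ Φ a (FF A a) =
      -(TT a a fun k => LP k (tf Φ α β a k)).re - QQ Φ a fun k => A k (a k) := by
  obtain ⟨M, hM⟩ := ha 1
  have hM0 := hM.mono (Nat.zero_le 1)
  obtain ⟨N, hN⟩ := (hΦ.rapid_tf α β ha).LP 0
  obtain ⟨N', hN'⟩ := ha.curl 0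
  have s1 := hasSum_inner_BB hM0 hM hN.norm_le
  have s2 := hasSum_inner_BB hM0 hM hN'.norm_le
  have s3 := hasSum_inner_BB hM0 hM hM.norm_le
  rw [TT_helicity hM ra] at s2
  rw [TT_self da ra] at s3
  have s4 := Complex.reCLM.hasSum ((s1.add (s2.mul_left (α : ℂ))).add (s3.mul_left (β : ℂ)))
  obtain ⟨C, m, hC, hg⟩ := hA.growth
  have s5 := (hΦ.summable ha (ha.map hC hg)).hasSum
  have s6 := s4.neg.sub s5
  simp only [mul_zero, add_zero, Complex.reCLM_apply] at s6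
  unfold QQ
  rw [← s6.tsum_eq]
  refine tsum_congr fun k => ?_
  rw [FF, inner_sub_right, inner_neg_right, inner_LP_left, tf, inner_sub_left, inner_sub_left,
    inner_smul_left, inner_smul_left, inner_LP (dt_curlS k _), inner_LP (da k)]
  simp
  ring

lemma hs_LP_le {c : Z3 → C3} (hc : Rapid c) (r : ℝ) : hs r (fun k => LP k (c k)) ≤ hs r c := by
  refine Real.sqrt_le_sqrt ((hc.LP.summable_ht r).tsum_le_tsum (fun k => ?_) (hc.summable_ht r))
  change ht r (fun k => LP k (c k)) k ≤ ht r c k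
  unfold ht
  split_ifs with hk
  · exact le_rfl
  · have := ax_pos hk
    gcongr
    exact norm_LP_le _ _

/-- The multiplier `1 + |2 π k|²`. -/
def H1 (k : Z3) : C3 →L[ℂ] C3 := ((1 + ax k ^ 2 : ℝ) : ℂ) • ContinuousLinearMap.id ℂ C3

lemma mult_scalar {φ : Z3 → ℝ} {C : ℝ} {m : ℕ} (hC : 0 ≤ C) (h : ∀ k, |φ k| ≤ C * w k ^ m) :
    Mult fun k => ((φ k : ℝ) : ℂ) • ContinuousLinearMap.id ℂ C3 := by
  refine ⟨fun k u v => by simp, C, m, hC, fun k v => ?_⟩
  simp only [smul_apply, ContinuousLinearMap.id_apply, norm_smul,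
    Complex.norm_real, Real.norm_eq_abs]
  exact mul_le_mul_of_nonneg_right (h k) (norm_nonneg _)

lemma mult_H1 : Mult H1 :=
  mult_scalar (C := 1) (m := 2) zero_le_one fun k => by
    have := ax_nonneg k
    rw [abs_of_nonneg (by positivity), w]; linarith

lemma re_inner_scalar (c : ℝ) (u v : C3) :
    (⟪(((c : ℝ) : ℂ) • ContinuousLinearMap.id ℂ C3) u, v⟫_ℂ).re = c * (⟪u, v⟫_ℂ).re := by
  simp

lemma re_inner_self (u : C3) : (⟪u, u⟫_ℂ).re = ‖u‖ ^ 2 := by
  rw [inner_self_eq_norm_sq_to_K]; simp [← Complex.ofReal_pow]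

lemma ht_nat (n : ℕ) {r : ℝ} (hr : 2 * r = n) (c : Z3 → C3) {k : Z3} (hk : k ≠ 0) :
    ht r c k = ax k ^ n * ‖c k‖ ^ 2 := by
  rw [ht, if_neg hk, hr, Real.rpow_natCast]

lemma wiener_le : ∃ S : ℝ, 0 ≤ S ∧ ∀ a : Z3 → C3, Rapid a → Bd 0 a (‖a 0‖ + S * √(hq 2 a)) := by
  refine ⟨√(∑' k, 16 * (w k ^ 4)⁻¹), Real.sqrt_nonneg _, fun a ha => ?_⟩
  have sw := summable_w_inv.mul_left 16
  have h1 : ∑' k, wm 0 a k ≤ √(∑' k, 16 * (w k ^ 4)⁻¹) * √(hq 2 a) := by
    refine le_sqrt_of_forall (tsum_nonneg fun k => by have := w_pos k; positivity) (hq_nonneg _ _)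
      fun l hl => ?_
    refine hasSum_le (fun k => ?_) (ha.summable_wm 0).hasSum
      (((sw.hasSum.mul_left l).add ((ha.summable_ht 2).hasSum.div_const l)).div_const 2)
    have hw := w_pos k
    by_cases hk : k = 0
    · simp only [wm, ht, if_pos hk]; positivity
    · rw [ht_nat 4 (by norm_num) a hk]
      simp only [wm, if_neg hk, Real.rpow_zero, one_mul]
      have h1 := one_le_ax hk
      have h0 := ax_pos hk
      have h2 : (ax k ^ 4)⁻¹ ≤ 16 * (w k ^ 4)⁻¹ := by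
        rw [← div_eq_mul_inv, le_div_iff₀ (by positivity), inv_mul_le_iff₀ (by positivity)]
        calc w k ^ 4 ≤ (2 * ax k) ^ 4 := by gcongr; unfold w; linarith
          _ = _ := by ring
      have e : (l * (ax k ^ 4)⁻¹ + ax k ^ 4 * ‖a k‖ ^ 2 / l) / 2 - ‖a k‖ =
          (l - ax k ^ 4 * ‖a k‖) ^ 2 / (2 * l * ax k ^ 4) := by field_simp; ring
      have e2 : 0 ≤ (l - ax k ^ 4 * ‖a k‖) ^ 2 / (2 * l * ax k ^ 4) := by positivity
      have e3 := mul_le_mul_of_nonneg_left h2 hl.le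
      linarith
  refine Bd.of_le (f := fun k => (if k = 0 then ‖a 0‖ else 0) + wm 0 a k)
    ((hasSum_ite_eq (0 : Z3) ‖a 0‖).summable.add (ha.summable_wm 0)) (fun k => ?_) ?_
  · by_cases hk : k = 0 <;> simp [wm, hk]
  · rw [(hasSum_ite_eq (0 : Z3) ‖a 0‖).summable.tsum_add (ha.summable_wm 0),
      (hasSum_ite_eq (0 : Z3) ‖a 0‖).tsum_eq]
    linarith

lemma H1_ineq (hA : Diss ν A) : ∃ C : ℝ, 0 ≤ C ∧ ∀ a : Z3 → C3, Rapid a → DivFree a → IsReal a →
    2 * QQ H1 a (FF A a) + ν * hq 2 a ≤ C * hq (3 / 2) a * QQ H1 a a := by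
  have hν := hA.pos
  obtain ⟨C, hC0, hC⟩ := tri_est (σ := 1) (β := 1) (θ₁ := 1 / 2) (θ₂ := 1 / 2) (r := -1 / 2)
    (by norm_num) (by norm_num) (by norm_num) (by norm_num) (by norm_num) (by norm_num)
    (by norm_num)
  refine ⟨2 * (ν / 2 * (C / (ν / 2)) ^ (2 : ℝ)), by positivity, fun a ha da ra => ?_⟩
  rw [QQ_FF hA mult_H1 0 1 ha da ra]
  have rt := mult_H1.rapid_tf 0 1 ha
  have e1 : hs (-1 / 2) (tf H1 0 1 a) = hs (3 / 2) a := by
    rw [hs_eq, hs_eq, hq, hq]
    congr 1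
    refine tsum_congr fun k => ?_
    have : tf H1 0 1 a k = ((ax k ^ 2 : ℝ) : ℂ) • a k := by simp [tf, H1, add_smul]
    unfold ht
    split_ifs with hk
    · rfl
    · have h0 := ax_pos hk
      rw [this, norm_smul, Complex.norm_real, Real.norm_of_nonneg (by positivity), mul_pow,
        ← mul_assoc, ← pow_mul, ← Real.rpow_natCast, ← Real.rpow_add h0]
      norm_num
  have h1 := choose_scale (S := |(TT a a fun k => LP k (tf H1 0 1 a k)).re|) (m := hs (3 / 2) a)
    (θ := 1 / 2 + 1 / 2) (β := 1) (q := 2) (Y := hq 1 a) (D := hq (1 + 1) a) (ε := ν / 2) hC0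
    (hs_nonneg _ _) (by positivity) (by norm_num) (by norm_num) (by norm_num) (fun R hR => by
      refine (hC a _ ha rt.LP da ra (mult_H1.im_tf 0 1 da) R hR).trans ?_
      have := hq_nonneg 1 a
      have := hq_nonneg (1 + 1) a
      gcongr
      exact e1 ▸ hs_LP_le rt _) (hq_nonneg _ _)
  have e2 : hs (3 / 2) a ^ (2 : ℝ) = hq (3 / 2) a := by
    rw [← hs_sq]; exact_mod_cast Real.rpow_natCast _ 2
  rw [e2, one_add_one_eq_two] at h1
  obtain ⟨Cg, m, hCg, hg⟩ := hA.growth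
  have h2 : ν * hq 2 a ≤ QQ H1 a fun k => A k (a k) := by
    rw [hq, ← tsum_mul_left]
    refine ((ha.summable_ht 2).mul_left ν).tsum_le_tsum (fun k => ?_)
      (mult_H1.summable ha (ha.map hCg hg))
    rw [H1, re_inner_scalar]
    have c := hA.coer k _ (da k)
    have c0 : 0 ≤ ν * ax k ^ 2 * ‖a k‖ ^ 2 := by positivity
    by_cases hk : k = 0
    · simp only [ht, if_pos hk, mul_zero]
      exact mul_nonneg (by positivity) (c0.trans c)
    · rw [ht_nat 4 (by norm_num) a hk]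
      nlinarith only [c, c0, sq_nonneg (ax k)]
  have h3 : hq 1 a ≤ QQ H1 a a := by
    refine (ha.summable_ht 1).tsum_le_tsum (fun k => ?_) (mult_H1.summable ha ha)
    rw [H1, re_inner_scalar, re_inner_self]
    by_cases hk : k = 0
    · simp only [ht, if_pos hk]; positivity
    · rw [ht_nat 2 (by norm_num) a hk]; linarith only [sq_nonneg ‖a k‖]
  have h4 := neg_abs_le (TT a a fun k => LP k (tf H1 0 1 a k)).re
  have h5 : ν / 2 * (C / (ν / 2)) ^ (2 : ℝ) * hq (3 / 2) a * hq 1 a ≤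
      ν / 2 * (C / (ν / 2)) ^ (2 : ℝ) * hq (3 / 2) a * QQ H1 a a := by
    have := hq_nonneg (3 / 2) a
    gcongr
  linarith only [h1, h2, h4, h5]

lemma QQ_H1_ge {a : Z3 → C3} (ha : Rapid a) : ‖a 0‖ ^ 2 ≤ QQ H1 a a := by
  have := (mult_H1.summable ha ha).le_tsum 0 fun k _ => by
    rw [H1, re_inner_scalar, re_inner_self]; positivity
  rw [H1, re_inner_scalar, re_inner_self] at this
  simpa [QQ] using this

lemma le_log_form {y : ℝ} (hy : 0 ≤ y) : y ≤ (Real.exp 1 + y) * Real.log (Real.exp 1 + y) := by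
  have := one_le_log_e_add hy
  have := Real.exp_pos 1
  nlinarith

/-- Integrability of the `H^{3/2}` norm squared excludes blow-up. -/
theorem Diss.no_blowup (hA : Diss ν A) {a : ℝ → Z3 → C3} {Ts K : ℝ} (hTs : 0 < Ts) (hK : 0 ≤ K)
    (ha : ∀ T, T < Ts → IsSol A a 0 T)
    (hl : ∀ t ∈ Ico 0 Ts, ∀ X, Bd 0 (a t) X → t + life ν X ≤ Ts)
    (hI : ∀ T ∈ Ico 0 Ts, ∫⁻ t in Ioo 0 T, ENNReal.ofReal (hq (3 / 2) (a t)) ≤ ENNReal.ofReal K) :
    False := by
  have hν := hA.pos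
  obtain ⟨C, hC0, hC⟩ := H1_ineq hA
  obtain ⟨B, hB0, hB⟩ := osgood (QQ H1 (a 0) (a 0)) (C * K) (by positivity)
  have key : ∀ T ∈ Ico 0 Ts, (∀ t ∈ Icc 0 T, QQ H1 (a t) (a t) ≤ B) ∧
      ∫⁻ t in Ioo 0 T, ENNReal.ofReal (ν * hq 2 (a t)) ≤ ENNReal.ofReal B := by
    intro T hT
    have s := ha T hT.2
    have y0 : ∀ t ∈ Icc 0 T, 0 ≤ QQ H1 (a t) (a t) := fun t ht =>
      (sq_nonneg _).trans (QQ_H1_ge (s.rapid ht))
    refine hB T _ _ _ (fun t => C * hq (3 / 2) (a t)) hT.1 rfl (fun t ht => s.hasDeriv_QQ hA mult_H1 ht)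
      (s.continuousOn_QQ_FF hA mult_H1) (continuousOn_const.mul (s.continuousOn_hq 2)) y0
      (fun t _ => mul_nonneg hν.le (hq_nonneg _ _)) (fun t _ => mul_nonneg hC0 (hq_nonneg _ _))
      (fun t ht => ?_) ?_
    · refine (hC _ (s.rapid ht) (s.div t ht) (s.real t ht)).trans ?_
      exact mul_le_mul_of_nonneg_left (le_log_form (y0 t ht)) (mul_nonneg hC0 (hq_nonneg _ _))
    · simp only [ENNReal.ofReal_mul hC0]
      rw [lintegral_const_mul' _ _ ENNReal.ofReal_ne_top]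
      gcongr
      exact hI T hT
  obtain ⟨S, hS0, hS⟩ := wiener_le
  refine not_integrable_blowup (c₁ := 4 * (6 + 18 / ν) * (2 * (√B + 1) ^ 2))
    (c₂ := 4 * (6 + 18 / ν) * (2 * S ^ 2) / ν) hTs (by positivity) (by positivity) hB0
    (d := fun t => ν * hq 2 (a t)) (fun t _ => mul_nonneg hν.le (hq_nonneg _ _)) (fun t ht => ?_)
    (fun T hT => (key T hT).2)
  have tm : t ∈ Icc 0 t := ⟨ht.1, le_rfl⟩
  have rp := (ha t ht.2).rapid tm
  have b0 : ‖a t 0‖ ≤ √B := Real.le_sqrt_of_sq_le ((QQ_H1_ge rp).trans ((key t ht).1 t tm))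
  have hX := (hS _ rp).mono_right (add_le_add_left b0 _)
  have h1 := hl t ht _ hX
  set X := √B + S * √(hq 2 (a t)) with hXdef
  have X0 : 0 ≤ X := hX.nonneg
  have rp0 := rate_pos hν X0
  have h2 : 1 / (Ts - t) ≤ 4 * rate ν 0 (2 * (X + 1)) := by
    rw [div_le_iff₀ (by linarith [ht.2])]
    have : life ν X * (4 * rate ν 0 (2 * (X + 1))) = 1 := by unfold life; field_simp
    nlinarith only [h1, rp0, this]
  have h3 : rate ν 0 (2 * (X + 1)) ≤ (6 + 18 / ν) * (X + 1) ^ 2 := by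
    have : rate ν 0 (2 * (X + 1)) = 6 * (X + 1) + 18 / ν * (X + 1) ^ 2 := by
      unfold rate; field_simp; ring
    rw [this]; nlinarith only [X0]
  have h4 : (X + 1) ^ 2 ≤ 2 * (√B + 1) ^ 2 + 2 * S ^ 2 * hq 2 (a t) := by
    have := Real.sq_sqrt (hq_nonneg 2 (a t))
    rw [hXdef]
    nlinarith only [this, sq_nonneg (√B + 1 - S * √(hq 2 (a t)))]
  have h5 : (6 + 18 / ν) * (X + 1) ^ 2 ≤
      (6 + 18 / ν) * (2 * (√B + 1) ^ 2 + 2 * S ^ 2 * hq 2 (a t)) := by gcongr
  have e : 4 * (6 + 18 / ν) * (2 * S ^ 2) / ν * (ν * hq 2 (a t)) =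
      4 * (6 + 18 / ν) * (2 * S ^ 2 * hq 2 (a t)) := by field_simp
  rw [e]
  linarith only [h2, h3, h5]

end

end Pool.Agent.Work.MP_6bf1e5_an.B
end

-- merged part: Pool.Agent.Work.MP_6bf1e5_an.B.Data
section
/-!
Fourier coefficients of smooth periodic functions: decay, inversion, derivatives, products.
-/

open Set Complex MeasureTheory Filter Topology
open scoped ContDiff ComplexConjugate

namespace Pool.Agent.Work.MP_6bf1e5_an.B

noncomputable section

/-- The `k`-th Fourier coefficient of a periodic scalar function. -/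
def sc (g : R3 → ℝ) (k : Z3) : ℂ := ∫ x in Icc (0 : R3) 1, ek (-k) x * (g x : ℂ)

lemma fc_apply (v : R3 → R3) (k : Z3) (i : Fin 3) : fc v k i = sc (fun x => v x i) k := rfl

lemma ek_add_index (k l : Z3) (x : R3) : ek (k + l) x = ek k x * ek l x := by
  simp only [ek, ← Complex.exp_add, ← mul_add, ← Finset.sum_add_distrib, Pi.add_apply]
  congr 2
  refine Finset.sum_congr rfl fun j _ => ?_
  push_cast; ring

lemma ek_zero_index (x : R3) : ek 0 x = 1 := by simp [ek]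

lemma norm_ek_eq (k : Z3) (x : R3) : ‖ek k x‖ = 1 := by
  have e : 2 * (Real.pi : ℂ) * I * ∑ j, (k j : ℂ) * (x j : ℂ)
      = ((2 * Real.pi * ∑ j, (k j : ℝ) * x j : ℝ) : ℂ) * I := by push_cast; ring
  rw [ek, e, Complex.norm_exp_ofReal_mul_I]

lemma ek_neg_index (k : Z3) (x : R3) : ek (-k) x = conj (ek k x) := by
  rw [ek, ek, ← Complex.exp_conj]
  congr 1
  simp [map_ofNat, Finset.sum_neg_distrib]

lemma ek_periodic (k : Z3) : Periodic3 (ek k) := by
  intro j x
  have e : ∑ i, (k i : ℂ) * (((x + Pi.single j 1 : R3) i : ℝ) : ℂ)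
      = ∑ i, (k i : ℂ) * (x i : ℂ) + k j := by
    simp only [Pi.add_apply, ofReal_add, mul_add, Finset.sum_add_distrib]
    congr 1
    rw [Finset.sum_eq_single j]
    · simp
    · intro i _ hi; simp [Pi.single_eq_of_ne hi]
    · simp
  rw [ek, ek, e, mul_add, Complex.exp_add]
  have : Complex.exp (2 * Real.pi * I * (k j : ℂ)) = 1 := by
    rw [mul_comm]; exact Complex.exp_int_mul_two_pi_mul_I (k j)
  rw [this, mul_one]

/-- The phase of a character, as a real-linear map. -/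
def phaseL (k : Z3) : R3 →L[ℝ] ℂ :=
  ∑ j, (2 * Real.pi * I * (k j : ℂ)) • (Complex.ofRealCLM.comp (ContinuousLinearMap.proj j))

lemma phaseL_apply (k : Z3) (x : R3) :
    phaseL k x = 2 * Real.pi * I * ∑ j, (k j : ℂ) * (x j : ℂ) := by
  simp only [phaseL, _root_.sum_apply, _root_.smul_apply,
    ContinuousLinearMap.comp_apply, ContinuousLinearMap.proj_apply, ofRealCLM_apply, smul_eq_mul,
    Finset.mul_sum]
  exact Finset.sum_congr rfl fun j _ => by ring

lemma phaseL_single (k : Z3) (j : Fin 3) :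
    phaseL k (Pi.single j 1) = 2 * Real.pi * I * (k j : ℂ) := by
  rw [phaseL_apply, Finset.sum_eq_single j]
  · simp
  · intro i _ hi; simp [Pi.single_eq_of_ne hi]
  · simp

lemma ek_eq_phase (k : Z3) : ek k = fun x => Complex.exp (phaseL k x) := by
  ext x; rw [phaseL_apply, ek]

lemma contDiff_ek_index (k : Z3) {n : WithTop ℕ∞} : ContDiff ℝ n (ek k) := by
  rw [ek_eq_phase]; exact (phaseL k).contDiff.cexp

lemma continuous_ek_index (k : Z3) : Continuous (ek k) := (contDiff_ek_index k (n := 0)).continuous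

lemma hasFDerivAt_ek_index (k : Z3) (x : R3) : HasFDerivAt (ek k) (ek k x • phaseL k) x := by
  rw [ek_eq_phase]; exact (phaseL k).hasFDerivAt.cexp

lemma integrableOn_cube {E : Type*} [NormedAddCommGroup E] {g : R3 → E} (hg : Continuous g) :
    IntegrableOn g (Icc (0 : R3) 1) := hg.continuousOn.integrableOn_compact isCompact_Icc

/-- The integral of a partial derivative of a periodic function over the unit cube vanishes. -/
lemma integral_fderiv_periodic {g : R3 → ℂ} (hg : ContDiff ℝ 1 g) (hp : Periodic3 g) (j : Fin 3) :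
    ∫ x in Icc (0 : R3) 1, fderiv ℝ g x (Pi.single j 1) = 0 := by
  classical
  have hc : Continuous fun x => fderiv ℝ g x (Pi.single j 1) :=
    (hg.continuous_fderiv one_ne_zero).clm_apply continuous_const
  have e : ∀ x, ∑ i : Fin 3, (if i = j then fderiv ℝ g x else 0) (Pi.single i 1)
      = fderiv ℝ g x (Pi.single j 1) := by
    intro x
    rw [Finset.sum_eq_single j]
    · simp
    · intro i _ hi; simp [hi]
    · simp
  have h := integral_divergence_of_hasFDerivAt_off_countable' (n := 2) (0 : R3) 1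
    (fun _ => zero_le_one) (fun i => if i = j then g else 0)
    (fun i x => if i = j then fderiv ℝ g x else 0) ∅ countable_empty
    (fun i => by
      split_ifs
      · exact hg.continuous.continuousOn
      · exact continuousOn_const)
    (fun x _ i => by
      split_ifs
      · exact (hg.differentiable one_ne_zero x).hasFDerivAt
      · exact hasFDerivAt_const _ _)
    (by simp only [e]; exact integrableOn_cube hc)
  simp only [e] at h
  rw [h]
  refine Finset.sum_eq_zero fun i _ => ?_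
  rw [sub_eq_zero]
  congr 1; ext y
  split_ifs
  · rw [← hp i (Fin.insertNth i ((0 : R3) i) y)]
    congr 1
    ext l
    refine Fin.succAboveCases i ?_ (fun m => ?_) l
    · simp
    · simp [Fin.succAbove_ne]
  · rfl

lemma integral_ek_cube (m : Z3) : ∫ x in Icc (0 : R3) 1, ek m x = if m = 0 then 1 else 0 := by
  split_ifs with h
  · subst h
    simp only [ek_zero_index]
    simp [measureReal_def, Real.volume_Icc_pi]
  · obtain ⟨j, hj⟩ := Function.ne_iff.mp h
    have := integral_fderiv_periodic (contDiff_ek_index m) (ek_periodic m) j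
    simp only [(hasFDerivAt_ek_index m _).fderiv, _root_.smul_apply, phaseL_single,
      smul_eq_mul] at this
    rw [integral_mul_const] at this
    refine (mul_eq_zero.mp this).resolve_right ?_
    have h1 : (m j : ℂ) ≠ 0 := by exact_mod_cast hj
    have h2 : (Real.pi : ℂ) ≠ 0 := by exact_mod_cast Real.pi_ne_zero
    simp [h1, h2]

lemma integrableOn_sc {g : R3 → ℝ} (hg : Continuous g) (k : Z3) :
    IntegrableOn (fun x => ek k x * (g x : ℂ)) (Icc (0 : R3) 1) :=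
  integrableOn_cube ((continuous_ek_index k).mul (Complex.continuous_ofReal.comp hg))

lemma sc_add {f g : R3 → ℝ} (hf : Continuous f) (hg : Continuous g) (k : Z3) :
    sc (fun x => f x + g x) k = sc f k + sc g k := by
  simp only [sc, ofReal_add, mul_add]
  exact integral_add (integrableOn_sc hf _) (integrableOn_sc hg _)

lemma sc_sub {f g : R3 → ℝ} (hf : Continuous f) (hg : Continuous g) (k : Z3) :
    sc (fun x => f x - g x) k = sc f k - sc g k := by
  simp only [sc, ofReal_sub, mul_sub]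
  exact integral_sub (integrableOn_sc hf _) (integrableOn_sc hg _)

lemma sc_const_mul (c : ℝ) (f : R3 → ℝ) (k : Z3) : sc (fun x => c * f x) k = c * sc f k := by
  simp only [sc, ofReal_mul]
  rw [← integral_const_mul]
  congr 1; ext x; ring

lemma sc_sum {f : Fin 3 → R3 → ℝ} (hf : ∀ j, Continuous (f j)) (k : Z3) :
    sc (fun x => ∑ j, f j x) k = ∑ j, sc (f j) k := by
  simp only [sc, ofReal_sum, Finset.mul_sum]
  exact integral_finsetSum _ fun j _ => integrableOn_sc (hf j) _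

lemma sc_zero (k : Z3) : sc (fun _ => 0) k = 0 := by simp [sc]

lemma sc_neg_index (g : R3 → ℝ) (k : Z3) : sc g (-k) = conj (sc g k) := by
  rw [sc, sc, ← integral_conj]
  congr 1; ext x
  rw [neg_neg, map_mul, ← ek_neg_index, neg_neg, conj_ofReal]

lemma norm_sc_le {g : R3 → ℝ} {C : ℝ} (h : ∀ x ∈ Icc (0 : R3) 1, |g x| ≤ C) (k : Z3) :
    ‖sc g k‖ ≤ C := by
  have := norm_setIntegral_le_of_norm_le_const (μ := volume) (s := Icc (0 : R3) 1)
    (f := fun x => ek (-k) x * (g x : ℂ)) (C := C) (isCompact_Icc.measure_lt_top) (fun x hx => by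
      rw [norm_mul, norm_ek_eq, one_mul, Complex.norm_real]; exact h x hx)
  simpa [sc, measureReal_def, Real.volume_Icc_pi] using this

lemma contDiff_pd {g : R3 → ℝ} (hg : ContDiff ℝ ∞ g) (j : Fin 3) : ContDiff ℝ ∞ (pd j g) :=
  (hg.fderiv_right (m := ∞) (by simp)).clm_apply contDiff_const

lemma Periodic3.pd {g : R3 → ℝ} (hp : Periodic3 g) (j : Fin 3) : Periodic3 (pd j g) := by
  intro i x
  have e : g = fun y => g (y + Pi.single i 1) := by ext y; exact (hp i y).symm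
  unfold B.pd
  conv_rhs => rw [e]
  rw [fderiv_comp_add_right]

/-- Coefficients of a partial derivative. -/
lemma sc_pd {g : R3 → ℝ} (hg : ContDiff ℝ ∞ g) (hp : Periodic3 g) (j : Fin 3) (k : Z3) :
    sc (pd j g) k = 2 * Real.pi * I * (k j : ℂ) * sc g k := by
  have hg1 : ContDiff ℝ 1 g := hg.of_le (by simp)
  have h := integral_fderiv_periodic (g := fun x => ek (-k) x * (g x : ℂ))
    ((contDiff_ek_index _).mul (Complex.ofRealCLM.contDiff.comp hg1))
    (fun i x => by simp only [ek_periodic (-k) i x, hp i x]) j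
  have e : ∀ x, fderiv ℝ (fun x => ek (-k) x * (g x : ℂ)) x (Pi.single j 1)
      = ek (-k) x * (pd j g x : ℂ)
        - 2 * Real.pi * I * (k j : ℂ) * (ek (-k) x * (g x : ℂ)) := by
    intro x
    have h2 : HasFDerivAt (fun x => (g x : ℂ)) (Complex.ofRealCLM.comp (fderiv ℝ g x)) x :=
      Complex.ofRealCLM.hasFDerivAt.comp x (hg1.differentiable one_ne_zero x).hasFDerivAt
    rw [((hasFDerivAt_ek_index (-k) x).fun_mul h2).fderiv]
    simp [phaseL_single, pd]
    ring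
  simp only [e] at h
  rw [integral_sub (integrableOn_sc (contDiff_pd hg j).continuous _)
    ((integrableOn_sc hg.continuous _).const_mul _), integral_const_mul, sub_eq_zero] at h
  exact h

lemma sc_laplace {g : R3 → ℝ} (hg : ContDiff ℝ ∞ g) (hp : Periodic3 g) (k : Z3) :
    sc (fun x => ∑ j, pd j (pd j g) x) k = -((ax k ^ 2 : ℝ) : ℂ) * sc g k := by
  rw [sc_sum fun j => (contDiff_pd (contDiff_pd hg j) j).continuous, ax_sq]
  simp only [sc_pd (contDiff_pd hg _) (hp.pd _), sc_pd hg hp]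
  push_cast
  rw [neg_mul, Finset.sum_mul, ← Finset.sum_neg_distrib]
  refine Finset.sum_congr rfl fun j _ => ?_
  linear_combination (4 * (Real.pi : ℂ) ^ 2 * (k j : ℂ) ^ 2 * sc g k) * I_mul_I

/-- Joint smoothness in space and time. -/
def JS (J : Set ℝ) (G : R3 → ℝ → ℝ) : Prop :=
  ContDiffOn ℝ ∞ (fun z : R3 × ℝ => G z.1 z.2) (univ ×ˢ J)

lemma JS.slice {J : Set ℝ} {G : R3 → ℝ → ℝ} (h : JS J G) {t : ℝ} (ht : t ∈ J) :
    ContDiff ℝ ∞ (fun x => G x t) := by
  rw [← contDiffOn_univ]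
  exact ContDiffOn.comp (g := fun z : R3 × ℝ => G z.1 z.2) (f := fun x : R3 => (x, t)) h
    (by fun_prop) (fun x _ => ⟨mem_univ _, ht⟩)

lemma JS.pd {J : Set ℝ} (hJ : UniqueDiffOn ℝ J) {G : R3 → ℝ → ℝ} (h : JS J G) (j : Fin 3) :
    JS J (fun x t => pd j (fun y => G y t) x) := by
  have hS : UniqueDiffOn ℝ ((univ : Set R3) ×ˢ J) := uniqueDiffOn_univ.prod hJ
  have h1 := (ContDiffOn.fderivWithin h hS (m := ∞) (by simp)).clm_apply
    (contDiffOn_const (c := ((Pi.single j 1 : R3), (0 : ℝ))))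
  refine h1.congr fun z hz => ?_
  have h2 := (h.differentiableOn (by simp) z hz).hasFDerivWithinAt
  have h3 : HasFDerivAt (fun y : R3 => (y, z.2)) (ContinuousLinearMap.inl ℝ R3 ℝ) z.1 :=
    hasFDerivAt_prodMk_left z.1 z.2
  have h4 := h2.comp (f := fun y : R3 => (y, z.2)) z.1 (h3.hasFDerivWithinAt (s := univ))
    (fun y _ => ⟨mem_univ _, hz.2⟩)
  have h5 := (hasFDerivWithinAt_univ.mp h4).fderiv
  unfold B.pd
  exact congrArg (fun L => L (Pi.single j 1)) h5

lemma JS.bound {J K : Set ℝ} {G : R3 → ℝ → ℝ} (h : JS J G) (hK : IsCompact K) (hKJ : K ⊆ J) :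
    ∃ C, ∀ t ∈ K, ∀ x ∈ Icc (0 : R3) 1, |G x t| ≤ C := by
  obtain ⟨C, hC⟩ := (isCompact_Icc.prod hK).exists_bound_of_continuousOn
    (h.continuousOn.mono (prod_mono (subset_univ (Icc (0 : R3) 1)) hKJ))
  exact ⟨C, fun t ht x hx => hC (x, t) ⟨hx, ht⟩⟩

lemma JS.decay_aux {J K : Set ℝ} (hJ : UniqueDiffOn ℝ J) (hK : IsCompact K) (hKJ : K ⊆ J)
    (m : ℕ) : ∀ G : R3 → ℝ → ℝ, JS J G → (∀ t ∈ J, Periodic3 fun x => G x t) →
      ∃ C, ∀ t ∈ K, ∀ k, (1 + ax k ^ 2) ^ m * ‖sc (fun x => G x t) k‖ ≤ C := by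
  induction m with
  | zero =>
    intro G h _
    obtain ⟨C, hC⟩ := h.bound hK hKJ
    exact ⟨C, fun t ht k => by simpa using norm_sc_le (hC t ht) k⟩
  | succ m ih =>
    intro G h hp
    have h2 : JS J (fun x t => G x t - ∑ j, B.pd j (B.pd j (fun y => G y t)) x) :=
      ContDiffOn.sub h (ContDiffOn.sum fun j _ => (h.pd hJ j).pd hJ j)
    obtain ⟨C, hC⟩ := ih _ h2 (fun t ht i x => by
      simp only [hp t ht i x, ((hp t ht).pd _).pd _ i x])
    refine ⟨C, fun t ht k => ?_⟩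
    have hs := h.slice (hKJ ht)
    have h3 := hC t ht k
    rw [sc_sub hs.continuous (continuous_finsetSum _ fun j _ =>
      (contDiff_pd (contDiff_pd hs j) j).continuous), sc_laplace hs (hp t (hKJ ht))] at h3
    have e : sc (fun x => G x t) k - -((ax k ^ 2 : ℝ) : ℂ) * sc (fun x => G x t) k
        = ((1 + ax k ^ 2 : ℝ) : ℂ) * sc (fun x => G x t) k := by push_cast; ring
    rw [e, norm_mul, Complex.norm_real, Real.norm_of_nonneg (by positivity)] at h3
    rw [pow_succ, mul_assoc]; exact h3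

/-- Uniform decay of the coefficients on compact time sets. -/
lemma JS.decay {J K : Set ℝ} (hJ : UniqueDiffOn ℝ J) (hK : IsCompact K) (hKJ : K ⊆ J)
    {G : R3 → ℝ → ℝ} (h : JS J G) (hp : ∀ t ∈ J, Periodic3 fun x => G x t) (s : ℕ) :
    ∃ C, ∀ t ∈ K, ∀ k, w k ^ s * ‖sc (fun x => G x t) k‖ ≤ C := by
  obtain ⟨C, hC⟩ := JS.decay_aux hJ hK hKJ s G h hp
  refine ⟨2 ^ s * C, fun t ht k => ?_⟩
  have h1 : w k ≤ 2 * (1 + ax k ^ 2) := by unfold w; nlinarith [sq_nonneg (ax k - 1), ax_nonneg k]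
  calc w k ^ s * ‖sc (fun x => G x t) k‖
      ≤ (2 * (1 + ax k ^ 2)) ^ s * ‖sc (fun x => G x t) k‖ := by
        have := w_pos k
        gcongr
    _ = 2 ^ s * ((1 + ax k ^ 2) ^ s * ‖sc (fun x => G x t) k‖) := by rw [mul_pow]; ring
    _ ≤ _ := by gcongr; exact hC t ht k

lemma Bd_of_decay {E : Type*} [NormedAddCommGroup E] {a : Z3 → E} {s : ℕ} {C : ℝ}
    (h : ∀ k, w k ^ (s + 4) * ‖a k‖ ≤ C) : Bd s a (C * ∑' k : Z3, (w k ^ 4)⁻¹) := by
  refine Bd.of_le (summable_w_inv.mul_left C) (fun k => ?_) (le_of_eq tsum_mul_left)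
  have hw := w_pos k
  rw [← div_eq_mul_inv, le_div_iff₀ (by positivity)]
  calc w k ^ s * ‖a k‖ * w k ^ 4 = w k ^ (s + 4) * ‖a k‖ := by ring
    _ ≤ C := h k

lemma JS.bd {J K : Set ℝ} (hJ : UniqueDiffOn ℝ J) (hK : IsCompact K) (hKJ : K ⊆ J)
    {G : R3 → ℝ → ℝ} (h : JS J G) (hp : ∀ t ∈ J, Periodic3 fun x => G x t) (s : ℕ) :
    ∃ M, ∀ t ∈ K, Bd s (sc fun x => G x t) M := by
  obtain ⟨C, hC⟩ := h.decay hJ hK hKJ hp (s + 4)
  exact ⟨_, fun t ht => Bd_of_decay (hC t ht)⟩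

lemma norm_C3_le_sum (v : C3) : ‖v‖ ≤ ∑ i, ‖v i‖ := by
  rw [EuclideanSpace.norm_eq, Real.sqrt_le_left (Finset.sum_nonneg fun _ _ => norm_nonneg _)]
  simp only [Fin.sum_univ_three]
  linarith [mul_nonneg (norm_nonneg (v 0)) (norm_nonneg (v 1)),
    mul_nonneg (norm_nonneg (v 0)) (norm_nonneg (v 2)),
    mul_nonneg (norm_nonneg (v 1)) (norm_nonneg (v 2))]

/-- Uniform weighted `ℓ¹` bounds for a jointly smooth periodic vector field. -/
lemma bd_fc_of_JS {J K : Set ℝ} (hJ : UniqueDiffOn ℝ J) (hK : IsCompact K) (hKJ : K ⊆ J)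
    {u : R3 → ℝ → R3} (h : ∀ i, JS J fun x t => u x t i)
    (hp : ∀ t ∈ J, Periodic3 fun x => u x t) (s : ℕ) :
    ∃ M, ∀ t ∈ K, Bd s (fc fun x => u x t) M := by
  choose C hC using fun i => (h i).decay hJ hK hKJ
    (fun t ht j x => congrFun (hp t ht j x) i) (s + 4)
  refine ⟨_, fun t ht => Bd_of_decay (C := ∑ i, C i) fun k => ?_⟩
  calc w k ^ (s + 4) * ‖fc (fun x => u x t) k‖
      ≤ w k ^ (s + 4) * ∑ i, ‖fc (fun x => u x t) k i‖ :=
        mul_le_mul_of_nonneg_left (norm_C3_le_sum _) (pow_nonneg (w_pos k).le _)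
    _ ≤ ∑ i, C i := by
        rw [Finset.mul_sum]; exact Finset.sum_le_sum fun i _ => hC i t ht k

lemma JS_const {g : R3 → ℝ} (hg : ContDiff ℝ ∞ g) : JS univ fun x _ => g x :=
  (hg.comp contDiff_fst).contDiffOn

lemma rapid_sc {g : R3 → ℝ} (hg : ContDiff ℝ ∞ g) (hp : Periodic3 g) : Rapid (sc g) := by
  intro s
  obtain ⟨M, hM⟩ := (JS_const hg).bd uniqueDiffOn_univ (isCompact_singleton (x := (0 : ℝ)))
    (subset_univ _) (fun _ _ => hp) s
  exact ⟨M, hM 0 rfl⟩

lemma rapid_fc {v : R3 → R3} (hv : ContDiff ℝ ∞ v) (hp : Periodic3 v) : Rapid (fc v) := by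
  intro s
  obtain ⟨M, hM⟩ := bd_fc_of_JS (u := fun x _ => v x) uniqueDiffOn_univ
    (isCompact_singleton (x := (0 : ℝ))) (subset_univ _)
    (fun i => JS_const (contDiff_pi.mp hv i)) (fun _ _ => hp) s
  exact ⟨M, hM 0 rfl⟩

lemma Periodic3.add_int {α : Type} {f : R3 → α} (hp : Periodic3 f) (n : Z3) (x : R3) :
    f (x + fun i => (n i : ℝ)) = f x := by
  have h : ∀ j, Function.Periodic f (n j • (Pi.single j 1 : R3)) :=
    fun j => Function.Periodic.zsmul (hp j) (n j)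
  have e : (fun i => (n i : ℝ)) = n 0 • (Pi.single 0 1 : R3) + n 1 • (Pi.single 1 1 : R3)
      + n 2 • (Pi.single 2 1 : R3) := by
    ext i; fin_cases i <;> simp
  rw [e, ← add_assoc, ← add_assoc, h 2, h 1, h 0]

lemma mFourier_mk (k : Z3) (x : R3) :
    UnitAddTorus.mFourier k (fun i => (x i : UnitAddCircle)) = ek k x := by
  simp only [UnitAddTorus.mFourier, ContinuousMap.coe_mk, fourier_coe_apply, ek,
    ← Complex.exp_sum, Finset.mul_sum]
  congr 1
  refine Finset.sum_congr rfl fun j _ => ?_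
  push_cast; ring

/-- Fourier inversion. -/
lemma hasSum_sc {g : R3 → ℝ} (hg : Continuous g) (hp : Periodic3 g) (hs : Summable (sc g))
    (x : R3) : HasSum (fun k => ek k x * sc g k) (g x : ℂ) := by
  have hq : IsOpenQuotientMap (Pi.map fun (_ : Fin 3) (y : ℝ) => (y : UnitAddCircle)) :=
    IsOpenQuotientMap.piMap fun _ => QuotientAddGroup.isOpenQuotientMap_mk
  have hF : ∀ y : R3, g (Function.surjInv hq.surjective (fun i => (y i : UnitAddCircle))) = g y := by
    intro y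
    have h1 := Function.surjInv_eq hq.surjective (fun i => (y i : UnitAddCircle))
    set z := Function.surjInv hq.surjective (fun i => (y i : UnitAddCircle))
    have h2 : ∀ i, ∃ n : ℤ, (n : ℝ) = z i - y i := by
      intro i
      have h3 : (z i : UnitAddCircle) = (y i : UnitAddCircle) := congrFun h1 i
      have h4 : ((z i - y i : ℝ) : UnitAddCircle) = 0 := by rw [AddCircle.coe_sub, h3, sub_self]
      obtain ⟨n, hn⟩ := (AddCircle.coe_eq_zero_iff _).mp h4
      exact ⟨n, by simpa using hn⟩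
    choose n hn using h2
    rw [← hp.add_int n y]
    congr 1; ext i; simp [hn i]
  let F : C(UnitAddTorus (Fin 3), ℂ) :=
    ⟨fun y => (g (Function.surjInv hq.surjective y) : ℂ), by
      rw [hq.isQuotientMap.continuous_iff]
      refine (Complex.continuous_ofReal.comp hg).congr fun y => ?_
      exact congrArg Complex.ofReal (hF y).symm⟩
  have hc : UnitAddTorus.mFourierCoeff F = sc g := by
    ext k
    rw [UnitAddTorus.mFourierCoeff_eq_integral F k 0, sc]
    have e : {x : R3 | ∀ i, x i ∈ Ioc ((0 : R3) i) ((0 : R3) i + 1)}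
        = Set.pi univ fun i => Ioc ((0 : R3) i) ((1 : R3) i) := by
      ext x; simp
    rw [e, volume_pi, setIntegral_congr_set Measure.univ_pi_Ioc_ae_eq_Icc]
    congr 1; ext y
    rw [mFourier_mk, smul_eq_mul]
    exact congrArg (fun r : ℝ => ek (-k) y * (r : ℂ)) (hF y)
  have h := UnitAddTorus.hasSum_mFourier_series_apply_of_summable (f := F) (hc ▸ hs)
    (fun i => (x i : UnitAddCircle))
  simp only [hc, mFourier_mk, smul_eq_mul] at h
  have e : F (fun i => (x i : UnitAddCircle)) = (g x : ℂ) := congrArg Complex.ofReal (hF x)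
  rw [e] at h
  simpa only [mul_comm] using h

lemma Rapid.summable_norm {E : Type*} [NormedAddCommGroup E] {a : Z3 → E} (h : Rapid a) :
    Summable fun k => ‖a k‖ := by
  obtain ⟨M, hM⟩ := h 0
  exact hM.summable_norm

lemma hasSum_sc_smooth {g : R3 → ℝ} (hg : ContDiff ℝ ∞ g) (hp : Periodic3 g) (x : R3) :
    HasSum (fun k => ek k x * sc g k) (g x : ℂ) :=
  hasSum_sc hg.continuous hp (rapid_sc hg hp).summable_norm.of_norm x

lemma isReal_fc (v : R3 → R3) : IsReal (fc v) := by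
  intro k; ext i
  rw [cj_apply, fc_apply, fc_apply, sc_neg_index]

lemma divFree_fc {v : R3 → R3} (hv : ContDiff ℝ ∞ v) (hp : Periodic3 v)
    (hd : ∀ x, ∑ i, pd i (fun y => v y i) x = 0) : DivFree (fc v) := by
  intro k
  have hi : ∀ i, ContDiff ℝ ∞ fun y => v y i := contDiff_pi.mp hv
  have hpi : ∀ i, Periodic3 fun y => v y i := fun i j x => congrFun (hp j x) i
  have h := sc_sum (f := fun i => pd i fun y => v y i) (fun i => (contDiff_pd (hi i) i).continuous) k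
  simp only [hd, sc_zero, sc_pd (hi _) (hpi _)] at h
  have e : I * dt (fc v k) k = 0 := by
    rw [dt_eq, h, Finset.mul_sum]
    exact Finset.sum_congr rfl fun j _ => by rw [fc_apply]; ring
  exact (mul_eq_zero.mp e).resolve_left I_ne_zero

theorem IsData.fourier {u0 : R3 → R3} (h : IsData u0) :
    Rapid (fc u0) ∧ IsReal (fc u0) ∧ DivFree (fc u0) ∧
      ∀ x i, HasSum (fun k => ek k x * fc u0 k i) ((u0 x i : ℝ) : ℂ) :=
  ⟨rapid_fc h.smooth h.periodic, isReal_fc u0, divFree_fc h.smooth h.periodic h.divFree,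
    fun x i => hasSum_sc_smooth (contDiff_pi.mp h.smooth i)
      (fun j y => congrFun (h.periodic j y) i) x⟩

/-- Termwise integration of an absolutely convergent Fourier series against a continuous weight. -/
lemma hasSum_integral_series {c : Z3 → ℂ} (hc : Summable fun k => ‖c k‖) {f φ : R3 → ℂ}
    (h : ∀ x, HasSum (fun k => ek k x * c k) (f x)) (hφ : Continuous φ) :
    HasSum (fun k => c k * ∫ x in Icc (0 : R3) 1, ek k x * φ x)
      (∫ x in Icc (0 : R3) 1, f x * φ x) := by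
  have hi : ∀ k, Integrable (fun x => ek k x * c k * φ x) (volume.restrict (Icc (0 : R3) 1)) :=
    fun k => integrableOn_cube (((continuous_ek_index k).mul continuous_const).mul hφ)
  have h1 := hasSum_integral_of_summable_integral_norm hi (by
    refine (hc.mul_right (∫ x in Icc (0 : R3) 1, ‖φ x‖)).congr fun k => ?_
    simp only [norm_mul, norm_ek_eq, one_mul]
    rw [integral_const_mul])
  have e : ∀ x, ∑' k, ek k x * c k * φ x = f x * φ x := fun x => ((h x).mul_right _).tsum_eq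
  simp only [e] at h1
  refine h1.congr_fun fun k => ?_
  rw [← integral_const_mul]
  congr 1; ext x; ring

lemma sc_of_hasSum {g : R3 → ℝ} {c : Z3 → ℂ} (hc : Summable fun k => ‖c k‖)
    (h : ∀ x, HasSum (fun k => ek k x * c k) (g x : ℂ)) : sc g = c := by
  ext k
  have h1 := hasSum_integral_series hc h (continuous_ek_index (-k))
  simp only [← ek_add_index, integral_ek_cube, add_neg_eq_zero, mul_ite, mul_one, mul_zero] at h1
  have h2 := h1.unique (hasSum_ite_eq k (c k) |>.congr_fun fun l => by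
    split_ifs with hl
    · rw [hl]
    · rfl)
  rw [← h2, sc]
  congr 1; ext x; ring

theorem fc_of_hasSum {v : R3 → R3} {c : Z3 → C3} (hc : Summable fun k => ‖c k‖)
    (h : ∀ x i, HasSum (fun k => ek k x * c k i) ((v x i : ℝ) : ℂ)) : fc v = c := by
  ext k i
  have := sc_of_hasSum (g := fun x => v x i) (c := fun k => c k i)
    (Summable.of_nonneg_of_le (fun _ => norm_nonneg _) (fun k => PiLp.norm_apply_le (c k) i) hc)
    (fun x => h x i)
  rw [fc_apply, this]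

/-- Coefficients of a product. -/
lemma hasSum_sc_mul {f g : R3 → ℝ} (hf : ContDiff ℝ ∞ f) (hp : Periodic3 f) (hg : Continuous g)
    (k : Z3) : HasSum (fun p => sc f p * sc g (k - p)) (sc (fun x => f x * g x) k) := by
  have h1 := hasSum_integral_series (rapid_sc hf hp).summable_norm (hasSum_sc_smooth hf hp)
    (φ := fun x => ek (-k) x * (g x : ℂ))
    ((continuous_ek_index _).mul (Complex.continuous_ofReal.comp hg))
  have e : sc (fun x => f x * g x) k
      = ∫ x in Icc (0 : R3) 1, (f x : ℂ) * (ek (-k) x * (g x : ℂ)) := by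
    rw [sc]; congr 1; ext x; push_cast; ring
  rw [e]
  refine h1.congr_fun fun p => ?_
  have e2 : sc g (k - p) = ∫ x in Icc (0 : R3) 1, ek p x * (ek (-k) x * (g x : ℂ)) := by
    rw [sc]; congr 1; ext x
    rw [← mul_assoc, ← ek_add_index]
    congr 2; abel
  rw [e2]

end

end Pool.Agent.Work.MP_6bf1e5_an.B
end

-- merged part: Pool.Agent.Work.MP_6bf1e5_an.B.Classical
section
/-!
Classical periodic solutions give Fourier-side solutions.
-/

open Set Complex MeasureTheory Filter Topology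
open scoped ContDiff ComplexConjugate

namespace Pool.Agent.Work.MP_6bf1e5_an.B

noncomputable section

lemma JS.hasDerivWithinAt_time {J : Set ℝ} {G : R3 → ℝ → ℝ} (h : JS J G) (x : R3) {t : ℝ}
    (ht : t ∈ J) : HasDerivWithinAt (fun s => G x s)
      (fderivWithin ℝ (fun z : R3 × ℝ => G z.1 z.2) (univ ×ˢ J) (x, t) ((0 : R3), (1 : ℝ))) J t := by
  have h2 := (h.differentiableOn (by simp) (x, t) ⟨mem_univ _, ht⟩).hasFDerivWithinAt
  have h3 : HasDerivWithinAt (fun s : ℝ => (x, s)) ((0 : R3), (1 : ℝ)) J t :=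
    ((hasDerivAt_const t x).prodMk (hasDerivAt_id' t)).hasDerivWithinAt
  exact HasFDerivWithinAt.comp_hasDerivWithinAt (l := fun z : R3 × ℝ => G z.1 z.2)
    (f := fun s : ℝ => (x, s)) t h2 h3 (fun s hs => ⟨mem_univ _, hs⟩)

lemma JS.time {J : Set ℝ} (hJ : UniqueDiffOn ℝ J) {G : R3 → ℝ → ℝ} (h : JS J G) :
    JS J (fun x t => derivWithin (fun s => G x s) J t) := by
  have hS : UniqueDiffOn ℝ ((univ : Set R3) ×ˢ J) := uniqueDiffOn_univ.prod hJ
  have h1 := (ContDiffOn.fderivWithin h hS (m := ∞) (by simp)).clm_apply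
    (contDiffOn_const (c := ((0 : R3), (1 : ℝ))))
  exact h1.congr fun z hz => (h.hasDerivWithinAt_time z.1 hz.2).derivWithin (hJ _ hz.2)

lemma JS.hasDerivWithinAt_derivWithin {J : Set ℝ} {G : R3 → ℝ → ℝ} (h : JS J G) (x : R3) {t : ℝ}
    (ht : t ∈ J) : HasDerivWithinAt (fun s => G x s) (derivWithin (fun s => G x s) J t) J t :=
  (h.hasDerivWithinAt_time x ht).differentiableWithinAt.hasDerivWithinAt

/-- Differentiation of a Fourier coefficient in time, up to the end points. -/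
lemma JS.hasDerivWithinAt_sc {J : Set ℝ} (hJ : UniqueDiffOn ℝ J) {G : R3 → ℝ → ℝ} (h : JS J G)
    {a b : ℝ} (hab : Icc a b ⊆ J) (k : Z3) {t : ℝ} (ht : t ∈ Icc a b) :
    HasDerivWithinAt (fun s => sc (fun x => G x s) k)
      (sc (fun x => derivWithin (fun s => G x s) J t) k) (Icc a b) t := by
  obtain ⟨C, hC⟩ := (h.time hJ).bound isCompact_Icc hab
  rw [hasDerivWithinAt_iff_tendsto_slope]
  have hcont : ∀ s ∈ Icc a b, Continuous fun x => G x s := fun s hs => (h.slice (hab hs)).continuous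
  have hlim : Tendsto (fun s => ∫ x in Icc (0 : R3) 1,
      ek (-k) x * ((slope (fun s => G x s) t s : ℝ) : ℂ)) (𝓝[Icc a b \ {t}] t)
      (𝓝 (sc (fun x => derivWithin (fun s => G x s) J t) k)) := by
    refine tendsto_integral_filter_of_dominated_convergence (fun _ => C) ?_ ?_
      (integrableOn_cube continuous_const) (Eventually.of_forall fun x => ?_)
    · filter_upwards [self_mem_nhdsWithin] with s hs
      refine (integrableOn_sc ?_ _).aestronglyMeasurable
      simp only [slope_def_field]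
      exact ((hcont s hs.1).sub (hcont t ht)).div_const _
    · filter_upwards [self_mem_nhdsWithin] with s hs
      filter_upwards [ae_restrict_mem measurableSet_Icc] with x hx
      have hst : s - t ≠ 0 := sub_ne_zero.mpr hs.2
      have hm := (convex_Icc a b).norm_image_sub_le_of_norm_hasDerivWithin_le
        (f := fun s => G x s) (f' := fun r => derivWithin (fun s => G x s) J r) (C := C)
        (fun r hr => (h.hasDerivWithinAt_derivWithin x (hab hr)).mono hab)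
        (fun r hr => hC r hr x hx) ht hs.1
      rw [norm_mul, norm_ek_eq, one_mul, Complex.norm_real, slope_def_field, norm_div,
        div_le_iff₀ (norm_pos_iff.mpr hst)]
      exact hm
    · refine Tendsto.const_mul _ ((Complex.continuous_ofReal.tendsto _).comp ?_)
      exact hasDerivWithinAt_iff_tendsto_slope.mp
        ((h.hasDerivWithinAt_derivWithin x (hab ht)).mono hab)
  refine hlim.congr' ?_
  filter_upwards [self_mem_nhdsWithin] with s hs
  have e : (fun x => slope (fun s => G x s) t s) = fun x => (s - t)⁻¹ * (G x s - G x t) := by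
    ext x; rw [slope_def_module, smul_eq_mul]
  change sc (fun x => slope (fun s => G x s) t s) k = _
  rw [e, sc_const_mul, sc_sub (hcont s hs.1) (hcont t ht), slope_def_module, Complex.real_smul]

lemma hasDerivWithinAt_C3 {f : ℝ → C3} {D : C3} {S : Set ℝ} {t : ℝ}
    (h : ∀ i, HasDerivWithinAt (fun s => f s i) (D i) S t) : HasDerivWithinAt f D S t := by
  have h1 : HasDerivWithinAt (fun s => fun i => f s i) (fun i => D i) S t :=
    hasDerivWithinAt_pi.mpr h
  exact ((PiLp.continuousLinearEquiv 2 ℝ (fun _ : Fin 3 => ℂ)).symm.hasFDerivAt).comp_hasDerivWithinAt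
    t h1

/-- Coefficients of the transport term. -/
lemma fc_transport {u v : R3 → R3} (hu : ContDiff ℝ ∞ u) (hpu : Periodic3 u)
    (hv : ContDiff ℝ ∞ v) (hpv : Periodic3 v) (k : Z3) :
    fc (fun x i => ∑ j, u x j * pd j (fun y => v y i) x) k = BB (fc u) (fc v) k := by
  obtain ⟨M, hM⟩ := rapid_fc hu hpu 0
  obtain ⟨N, hN⟩ := rapid_fc hv hpv 1
  ext i
  have hui : ∀ j, ContDiff ℝ ∞ fun y => u y j := contDiff_pi.mp hu
  have hvi : ContDiff ℝ ∞ fun y => v y i := contDiff_pi.mp hv i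
  have hpvi : Periodic3 fun y => v y i := fun j x => congrFun (hpv j x) i
  have h1 := (EuclideanSpace.proj (𝕜 := ℂ) i).hasSum (summable_BB_term hM hN k).hasSum
  have h2 := hasSum_sum (s := Finset.univ) fun j _ =>
    hasSum_sc_mul (hui j) (fun l x => congrFun (hpu l x) j) (contDiff_pd hvi j).continuous k
  rw [fc_apply, sc_sum fun j => (hui j).continuous.fun_mul (contDiff_pd hvi j).continuous]
  refine h2.unique (h1.congr_fun fun p => ?_)
  simp only [sc_pd hvi hpvi, dt_eq, EuclideanSpace.coe_proj, PiLp.smul_apply, smul_eq_mul,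
    fc_apply, Finset.mul_sum, Finset.sum_mul]
  exact Finset.sum_congr rfl fun j _ => by ring

lemma fc_viscous (ν : ℝ) {v : R3 → R3} (hv : ContDiff ℝ ∞ v) (hp : Periodic3 v) (k : Z3) :
    fc (viscous ν v) k = -(((ν * ax k ^ 2 : ℝ) : ℂ) • fc v k) := by
  ext i
  have hvi : ContDiff ℝ ∞ fun y => v y i := contDiff_pi.mp hv i
  have hpvi : Periodic3 fun y => v y i := fun j x => congrFun (hp j x) i
  rw [fc_apply]
  simp only [viscous]
  rw [sc_const_mul, sc_laplace hvi hpvi]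
  simp [fc_apply]
  ring

lemma LP_cxi (k : Z3) : LP k (cxi k) = 0 := by
  by_cases hk : k = 0
  · simp [hk]
  · have : ((ax k ^ 2 : ℝ) : ℂ) ≠ 0 := by
      have := ax_pos hk
      exact_mod_cast (by positivity : ax k ^ 2 ≠ 0)
    rw [LP_apply, dt_cxi, inv_mul_cancel₀ this, one_smul, sub_self]

variable {L : (R3 → R3) → R3 → R3} {u0 : R3 → R3} {J : Set ℝ} {u : R3 → ℝ → R3}
  {p : R3 → ℝ → ℝ}

lemma IsSolutionOn.js (h : IsSolutionOn L u0 J u p) (i : Fin 3) : JS J fun x t => u x t i :=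
  contDiffOn_pi.mp h.smooth_u i

lemma IsSolutionOn.slice (h : IsSolutionOn L u0 J u p) {t : ℝ} (ht : t ∈ J) :
    ContDiff ℝ ∞ fun x => u x t := contDiff_pi.mpr fun i => (h.js i).slice ht

lemma IsSolutionOn.isData_slice (h : IsSolutionOn L u0 J u p) {t : ℝ} (ht : t ∈ J) :
    IsData fun x => u x t := ⟨h.slice ht, h.periodic_u t ht, fun x => h.divFree x t ht⟩

/-- The momentum equation on the Fourier side, before projection. -/
lemma IsSolutionOn.fourier_momentum (h : IsSolutionOn L u0 J u p) (hJ : UniqueDiffOn ℝ J) {t : ℝ}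
    (ht : t ∈ J) (k : Z3) :
    fc (fun x i => derivWithin (fun s => u x s i) J t) k
      = -BB (fc fun x => u x t) (fc fun x => u x t) k
        - (I * sc (fun x => p x t) k) • cxi k + fc (L fun y => u y t) k := by
  have hs := h.slice ht
  have hps : ContDiff ℝ ∞ fun x => p x t := JS.slice h.smooth_p ht
  rw [← fc_transport hs (h.periodic_u t ht) hs (h.periodic_u t ht)]
  ext i
  have e : (fun x => L (fun y => u y t) x i) = fun x => (derivWithin (fun s => u x s i) J t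
      + ∑ j, u x t j * pd j (fun y => u y t i) x) + pd i (fun y => p y t) x := by
    ext x; exact (h.momentum x t ht i).symm
  have c1 : Continuous fun x => derivWithin (fun s => u x s i) J t :=
    (((h.js i).time hJ).slice ht).continuous
  have c2 : Continuous fun x => ∑ j, u x t j * pd j (fun y => u y t i) x :=
    continuous_finsetSum _ fun j _ => ((h.js j).slice ht).continuous.mul
      (contDiff_pd ((h.js i).slice ht) j).continuous
  simp only [PiLp.add_apply, PiLp.sub_apply, PiLp.neg_apply, PiLp.smul_apply, smul_eq_mul,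
    fc_apply]
  rw [e, sc_add (c1.fun_add c2) (contDiff_pd hps i).continuous, sc_add c1 c2,
    sc_pd hps (h.periodic_p t ht)]
  simp only [cxi]
  push_cast
  ring

/-- Classical solutions are Fourier-side solutions, for a general multiplier. -/
theorem IsSolutionOn.isSol_of (h : IsSolutionOn L u0 J u p) (hJ : UniqueDiffOn ℝ J)
    {A : Z3 → C3 →L[ℂ] C3} (hA : ∀ k v, dt v k = 0 → dt (A k v) k = 0)
    (hL : ∀ s ∈ J, ∀ k, fc (L fun y => u y s) k = -A k (fc (fun x => u x s) k))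
    {a b : ℝ} (hab : Icc a b ⊆ J) : IsSol A (fun s => fc fun x => u x s) a b := by
  have hdiv : ∀ s ∈ Icc a b, DivFree (fc fun x => u x s) := fun s hs =>
    (h.isData_slice (hab hs)).fourier.2.2.1
  refine ⟨bd_fc_of_JS hJ isCompact_Icc hab h.js h.periodic_u, fun s _ => isReal_fc _, hdiv,
    fun k s hs => ?_⟩
  have h1 : HasDerivWithinAt (fun s => fc (fun x => u x s) k)
      (fc (fun x i => derivWithin (fun s => u x s i) J s) k) (Icc a b) s :=
    hasDerivWithinAt_C3 fun i => (h.js i).hasDerivWithinAt_sc hJ hab k hs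
  have h2 := ((LP k).restrictScalars ℝ).hasFDerivAt.comp_hasDerivWithinAt s h1
  have e : (LP k).restrictScalars ℝ (fc (fun x i => derivWithin (fun s => u x s i) J s) k)
      = FF A (fc fun x => u x s) k := by
    rw [h.fourier_momentum hJ (hab hs), hL s (hab hs), ContinuousLinearMap.coe_restrictScalars',
      map_add, map_sub, map_neg, map_smul, LP_cxi, smul_zero, sub_zero, map_neg,
      LP_of_div (hA k _ (hdiv s hs k)), FF, sub_eq_add_neg]
  rw [e] at h2
  exact h2.congr (fun r hr => (LP_of_div (hdiv r hr k)).symm) (LP_of_div (hdiv s hs k)).symm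

theorem IsSolutionOn.isSol_viscous {nu : ℝ} (h : IsSolutionOn (viscous nu) u0 J u p)
    (hJ : UniqueDiffOn ℝ J) {a b : ℝ} (hab : Icc a b ⊆ J) :
    IsSol (fun k => ((nu * ax k ^ 2 : ℝ) : ℂ) • ContinuousLinearMap.id ℂ C3)
      (fun s => fc fun x => u x s) a b :=
  h.isSol_of hJ (fun k v hv => by simp [dt_smul_left, hv])
    (fun s hs k => by rw [fc_viscous nu (h.slice hs) (h.periodic_u s hs)]; rfl) hab

theorem IsSolutionOn.isSol {nu T : ℝ} (h : IsSolutionOn (viscous nu) u0 (Set.Ico 0 T) u p) (t : ℝ)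
    (ht : t ∈ Set.Ioo 0 T) :
    IsSol (fun k => ((nu * ax k ^ 2 : ℝ) : ℂ) • ContinuousLinearMap.id ℂ C3)
      (fun s => fc (fun x => u x s)) 0 t :=
  h.isSol_viscous (uniqueDiffOn_Ico 0 T) fun _ hs => ⟨hs.1, hs.2.trans_lt ht.2⟩

end

end Pool.Agent.Work.MP_6bf1e5_an.B
end

-- merged part: Pool.Agent.Work.MP_6bf1e5_an.B.Smooth
section
/-!
Fourier-side solutions give smooth periodic solutions.
-/

open Set Complex MeasureTheory Filter Topology
open scoped ContDiff ComplexConjugate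

namespace Pool.Agent.Work.MP_6bf1e5_an.B

noncomputable section

section Sm

variable {E F : Type} [NormedAddCommGroup E] [NormedSpace ℝ E] [NormedAddCommGroup F]
  [NormedSpace ℝ F] {T : ℝ}

/-- Uniformly rapidly decreasing families that are continuous in time. -/
def UB (T : ℝ) (c : ℝ → Z3 → E) : Prop :=
  (∀ s, ∃ M, ∀ t ∈ Icc 0 T, Bd s (c t) M) ∧ ∀ k, ContinuousOn (fun t => c t k) (Icc 0 T)

/-- The same for the time derivatives up to order `n`. -/
def Sm (T : ℝ) : ℕ → (ℝ → Z3 → E) → Prop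
  | 0, c => UB T c
  | n + 1, c => UB T c ∧ ∃ c' : ℝ → Z3 → E,
      (∀ k, ∀ t ∈ Icc 0 T, HasDerivWithinAt (fun t => c t k) (c' t k) (Icc 0 T) t) ∧ Sm T n c'

lemma Sm.ub {n : ℕ} {c : ℝ → Z3 → E} (h : Sm T n c) : UB T c := by
  cases n with
  | zero => exact h
  | succ n => exact h.1

lemma Sm.pred {n : ℕ} : ∀ {c : ℝ → Z3 → E}, Sm T (n + 1) c → Sm T n c := by
  induction n with
  | zero => exact fun h => h.1
  | succ n ih => exact fun ⟨h1, c', h2, h3⟩ => ⟨h1, c', h2, ih h3⟩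

omit [NormedSpace ℝ E] in
lemma UB.add {c d : ℝ → Z3 → E} (hc : UB T c) (hd : UB T d) : UB T fun t k => c t k + d t k := by
  refine ⟨fun s => ?_, fun k => (hc.2 k).add (hd.2 k)⟩
  obtain ⟨M, hM⟩ := hc.1 s
  obtain ⟨N, hN⟩ := hd.1 s
  exact ⟨_, fun t ht => (hM t ht).add (hN t ht)⟩

lemma Sm.add {n : ℕ} : ∀ {c d : ℝ → Z3 → E}, Sm T n c → Sm T n d →
    Sm T n fun t k => c t k + d t k := by
  induction n with
  | zero => exact UB.add
  | succ n ih =>
    rintro c d ⟨h1, c', h2, h3⟩ ⟨g1, d', g2, g3⟩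
    exact ⟨h1.add g1, _, fun k t ht => (h2 k t ht).add (g2 k t ht), ih h3 g3⟩

lemma UB.map {Φ : Z3 → E →L[ℝ] F} {C : ℝ} {m : ℕ} (hC : 0 ≤ C)
    (hg : ∀ k v, ‖Φ k v‖ ≤ C * w k ^ m * ‖v‖) {c : ℝ → Z3 → E} (hc : UB T c) :
    UB T fun t k => Φ k (c t k) := by
  refine ⟨fun s => ?_, fun k => (Φ k).continuous.comp_continuousOn (hc.2 k)⟩
  obtain ⟨M, hM⟩ := hc.1 (s + m)
  exact ⟨_, fun t ht => Bd.of_growth (hM t ht) hC fun k => hg k _⟩

lemma Sm.map {Φ : Z3 → E →L[ℝ] F} {C : ℝ} {m : ℕ} (hC : 0 ≤ C)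
    (hg : ∀ k v, ‖Φ k v‖ ≤ C * w k ^ m * ‖v‖) {n : ℕ} : ∀ {c : ℝ → Z3 → E}, Sm T n c →
    Sm T n fun t k => Φ k (c t k) := by
  induction n with
  | zero => exact UB.map hC hg
  | succ n ih =>
    rintro c ⟨h1, c', h2, h3⟩
    exact ⟨h1.map hC hg, _, fun k t ht => (Φ k).hasFDerivAt.comp_hasDerivWithinAt t (h2 k t ht),
      ih h3⟩

lemma UB.bb {a b : ℝ → Z3 → C3} (ha : UB T a) (hb : UB T b) : UB T fun t => BB (a t) (b t) := by
  refine ⟨fun s => ?_, fun k t ht => ?_⟩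
  · obtain ⟨M, hM⟩ := ha.1 s
    obtain ⟨N, hN⟩ := hb.1 (s + 1)
    exact ⟨_, fun t ht => Bd_BB (hM t ht) (hN t ht)⟩
  · obtain ⟨M, hM⟩ := ha.1 4
    obtain ⟨N, hN⟩ := hb.1 1
    exact tendsto_BB (fun k => ha.2 k t ht) (fun k => hb.2 k t ht)
      (eventually_nhdsWithin_of_forall fun s hs => ⟨hM s hs, hN s hs⟩) k

lemma term_bound {a b : Z3 → C3} {M N : ℝ} (ha : Bd 4 a M) (hb : Bd 1 b N) (p q : Z3) :
    ‖(I * dt (a p) q) • b q‖ ≤ M * (w p ^ 4)⁻¹ * N := by
  refine (norm_BB_term_le _ _ _ _).trans ?_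
  have h1 := Bd.decay (s := 0) ha p
  rw [pow_zero, one_mul] at h1
  have := ha.nonneg
  have := w_pos p
  exact mul_le_mul h1 (ax_mul_le hb _) (mul_nonneg (ax_nonneg _) (norm_nonneg _)) (by positivity)

lemma Sm.bb {n : ℕ} : ∀ {a b : ℝ → Z3 → C3}, Sm T n a → Sm T n b →
    Sm T n fun t => BB (a t) (b t) := by
  induction n with
  | zero => exact UB.bb
  | succ n ih =>
    intro a b ha hb
    obtain ⟨h1, a', h2, h3⟩ := id ha
    obtain ⟨g1, b', g2, g3⟩ := id hb
    refine ⟨h1.bb g1, fun t k => BB (a' t) (b t) k + BB (a t) (b' t) k, fun k t ht => ?_,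
      (ih h3 hb.pred).add (ih ha.pred g3)⟩
    obtain ⟨M, hM⟩ := h1.1 4
    obtain ⟨M', hM'⟩ := h3.ub.1 4
    obtain ⟨N, hN⟩ := g1.1 1
    obtain ⟨N', hN'⟩ := g3.ub.1 1
    have := hasDerivWithinAt_tsum_convex (convex_Icc 0 T)
      (f := fun p t => (I * dt (a t p) (k - p)) • b t (k - p))
      (f' := fun p t => (I * dt (a' t p) (k - p)) • b t (k - p) +
        (I * dt (a t p) (k - p)) • b' t (k - p))
      (((summable_w_inv.mul_left M').mul_right N).add ((summable_w_inv.mul_left M).mul_right N'))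
      (fun p s hs => by
        have d1 : HasDerivWithinAt (fun t => dt (a t p) (k - p)) (dt (a' s p) (k - p)) (Icc 0 T) s :=
          ((innerSL ℂ (cxi (k - p))).restrictScalars ℝ).hasFDerivAt.comp_hasDerivWithinAt s
            (h2 p s hs)
        rw [add_comm]
        exact (d1.const_mul I).smul (g2 (k - p) s hs))
      (fun p s hs => (norm_add_le _ _).trans
        (add_le_add (term_bound (hM' s hs) (hN s hs) _ _) (term_bound (hM s hs) (hN' s hs) _ _)))
      (fun s hs => summable_BB_term ((hM s hs).mono (Nat.zero_le 4)) (hN s hs) k) ht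
    rwa [(summable_BB_term ((hM' t ht).mono (Nat.zero_le 4)) (hN t ht) k).tsum_add
      (summable_BB_term ((hM t ht).mono (Nat.zero_le 4)) (hN' t ht) k)] at this

lemma IsSol.sm {ν : ℝ} {A : Z3 → C3 →L[ℂ] C3} (hA : Diss ν A) {a : ℝ → Z3 → C3}
    (ha : IsSol A a 0 T) (n : ℕ) : Sm T n a := by
  have ub : UB T a := ⟨ha.bd, ha.continuousOn⟩
  obtain ⟨C, m, hC, hg⟩ := hA.growth
  induction n with
  | zero => exact ub
  | succ n ih =>
    refine ⟨ub, fun t => FF A (a t), ha.deriv, ?_⟩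
    have h1 := Sm.map (Φ := fun k => (-LP k).restrictScalars ℝ) (C := 1) (m := 0) zero_le_one
      (fun k v => by simpa using norm_LP_le k v) (ih.bb ih)
    have h2 := Sm.map (Φ := fun k => (-A k).restrictScalars ℝ) hC
      (fun k v => by simpa using hg k v) ih
    have := h1.add h2
    convert this using 2 with t
    funext k
    simp [FF, sub_eq_add_neg]

end Sm

/-- The sum of a time dependent Fourier series. -/
def ser (c : ℝ → Z3 → ℂ) (z : R3 × ℝ) : ℂ := ∑' k, ek k z.1 * c z.2 k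

/-- The coordinate forms. -/
def eX (j : Fin 3) : R3 × ℝ →L[ℝ] ℂ :=
  ofRealCLM.comp ((ContinuousLinearMap.proj j).comp (ContinuousLinearMap.fst ℝ R3 ℝ))

/-- The time form. -/
def eT : R3 × ℝ →L[ℝ] ℂ := ofRealCLM.comp (ContinuousLinearMap.snd ℝ R3 ℝ)

/-- Multiplication by `2 π i k_j`. -/
def mX (j : Fin 3) (k : Z3) : ℂ →L[ℝ] ℂ :=
  (2 * Real.pi * I * (k j : ℂ)) • ContinuousLinearMap.id ℝ ℂ

lemma norm_mX_le (j : Fin 3) (k : Z3) (v : ℂ) : ‖mX j k v‖ ≤ 1 * w k ^ 1 * ‖v‖ := by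
  have h := (abs_xi_le k j).trans (ax_le_w k)
  have e : ‖(2 * Real.pi * I * (k j : ℂ) : ℂ)‖ = |2 * Real.pi * (k j : ℝ)| := by
    simp [abs_mul]
  simp only [mX, smul_apply, ContinuousLinearMap.id_apply, norm_smul, e, one_mul, pow_one]
  gcongr

lemma norm_term_le {c : Z3 → ℂ} {M : ℝ} (h : Bd 4 c M) (k : Z3) (x : R3) :
    ‖ek k x * c k‖ ≤ M * (w k ^ 4)⁻¹ := by
  have h1 := Bd.decay (s := 0) h k
  rwa [pow_zero, one_mul, ← one_mul ‖c k‖, ← norm_ek_eq k x, ← norm_mul] at h1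

lemma summable_term {c : Z3 → ℂ} {M : ℝ} (h : Bd 4 c M) (x : R3) :
    Summable fun k => ek k x * c k :=
  .of_norm_bounded (summable_w_inv.mul_left M) fun k => norm_term_le h k x

lemma Sm.contDiffOn {T : ℝ} {n : ℕ} : ∀ {c : ℝ → Z3 → ℂ}, Sm T n c →
    ContDiffOn ℝ n (ser c) (univ ×ˢ Icc 0 T) := by
  induction n with
  | zero =>
    intro c hc
    obtain ⟨M, hM⟩ := hc.1 4
    rw [Nat.cast_zero, contDiffOn_zero]
    refine continuousOn_tsum (fun k => ?_) (summable_w_inv.mul_left M)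
      fun k z hz => norm_term_le (hM _ hz.2) k _
    exact ((continuous_ek_index k).comp continuous_fst).continuousOn.mul
      ((hc.2 k).comp continuousOn_snd fun z hz => hz.2)
  | succ n ih =>
    intro c hc
    obtain ⟨h1, c', h2, h3⟩ := id hc
    have hj : ∀ j, Sm T n fun t k => mX j k (c t k) := fun j =>
      Sm.map zero_le_one (norm_mX_le j) hc.pred
    rw [Nat.cast_succ, contDiffOn_succ_iff_hasFDerivWithinAt (by simp)]
    intro z hz
    rw [insert_eq_of_mem hz]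
    refine ⟨_, self_mem_nhdsWithin, by simp,
      fun z => ∑ j, ser (fun t k => mX j k (c t k)) z • eX j + ser c' z • eT, fun y hy => ?_,
      (ContDiffOn.sum fun j _ => (ih (hj j)).smul contDiffOn_const).add
        ((ih h3).smul contDiffOn_const)⟩
    choose N hN using fun j => (hj j).ub.1 4
    obtain ⟨M, hM⟩ := h1.1 4
    obtain ⟨M', hM'⟩ := h3.ub.1 4
    have := hasFDerivWithinAt_tsum_convex (convex_univ.prod (convex_Icc 0 T))
      (f := fun k (z : R3 × ℝ) => ek k z.1 * c z.2 k)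
      (f' := fun k z => ∑ j, (ek k z.1 * mX j k (c z.2 k)) • eX j + (ek k z.1 * c' z.2 k) • eT)
      (u := fun k => ∑ j, N j * (w k ^ 4)⁻¹ * ‖eX j‖ + M' * (w k ^ 4)⁻¹ * ‖eT‖)
      ((summable_sum fun j _ => (summable_w_inv.mul_left _).mul_right _).add
        ((summable_w_inv.mul_left _).mul_right _))
      (fun k z hz => by
        have d1 := ((hasFDerivAt_ek_index k z.1).comp z hasFDerivAt_fst).hasFDerivWithinAt
          (s := univ ×ˢ Icc 0 T)
        have d2 := (h2 k z.2 hz.2).hasFDerivWithinAt.comp z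
          (hasFDerivWithinAt_snd (s := (univ : Set R3) ×ˢ Icc 0 T)) fun z hz => hz.2
        refine (d1.mul d2).congr_fderiv (ContinuousLinearMap.ext fun v => ?_)
        simp [eX, eT, mX, phaseL_apply, Fin.sum_univ_three]
        ring)
      (fun k z hz => by
        refine (norm_add_le _ _).trans (add_le_add ((norm_sum_le _ _).trans
          (Finset.sum_le_sum fun j _ => ?_)) ?_) <;> rw [norm_smul] <;> gcongr
        exacts [norm_term_le (hN j _ hz.2) k _, norm_term_le (hM' _ hz.2) k _])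
      (fun z hz => summable_term (hM _ hz.2) _) hy
    have sj := fun j => (summable_term (hN j _ hy.2) y.1).hasSum.smul_const (eX j)
    have s2 := (summable_term (hM' _ hy.2) y.1).hasSum.smul_const eT
    rwa [((hasSum_sum fun j _ => sj j).add s2).tsum_eq] at this

lemma js_ser {I : Set ℝ} (hI0 : I ⊆ Ici 0) (hI : ∀ t ∈ I, ∃ T, t < T ∧ Icc 0 T ⊆ I)
    {c : ℝ → Z3 → ℂ} (hc : ∀ T ∈ I, ∀ n, Sm T n c) : JS I fun x t => (ser c (x, t)).re := by
  intro z hz
  obtain ⟨T, hT, hTI⟩ := hI z.2 hz.2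
  have h0 : (0 : ℝ) ≤ z.2 := hI0 hz.2
  have h1 : ContDiffOn ℝ ∞ (ser c) (univ ×ˢ Icc 0 T) :=
    contDiffOn_infty.mpr fun n => (hc T (hTI ⟨h0.trans hT.le, le_rfl⟩) n).contDiffOn
  refine (reCLM.contDiff.comp_contDiffWithinAt
    (h1 z ⟨mem_univ _, h0, hT.le⟩)).mono_of_mem_nhdsWithin ?_
  have : {y : R3 × ℝ | y.2 < T} ∈ 𝓝 z := (isOpen_lt continuous_snd continuous_const).mem_nhds hT
  filter_upwards [self_mem_nhdsWithin, mem_nhdsWithin_of_mem_nhds this] with y hy hy'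
  exact ⟨mem_univ _, hI0 hy.2, le_of_lt hy'⟩

lemma hasSum_re {c : Z3 → ℂ} {M : ℝ} (hc : Bd 4 c M) (rc : ∀ k, c (-k) = conj (c k)) (x : R3) :
    HasSum (fun k => ek k x * c k) (((∑' k, ek k x * c k).re : ℝ) : ℂ) := by
  have e : conj (∑' k, ek k x * c k) = ∑' k, ek k x * c k := by
    rw [Complex.conj_tsum, ← (Equiv.neg Z3).tsum_eq]
    refine tsum_congr fun k => ?_
    simp only [Equiv.neg_apply, map_mul, ek_neg_index, rc k, Complex.conj_conj]
  rw [Complex.conj_eq_iff_re.mp e]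
  exact (summable_term hc x).hasSum

/-- The symbol giving the pressure from the transport term. -/
def pS (k : Z3) : C3 →L[ℝ] ℂ :=
  ((I * ((ax k ^ 2 : ℝ) : ℂ)⁻¹) • innerSL ℂ (cxi k)).restrictScalars ℝ

lemma pS_apply (k : Z3) (v : C3) : pS k v = I * ((ax k ^ 2 : ℝ) : ℂ)⁻¹ * dt v k := rfl

lemma norm_pS_le (k : Z3) (v : C3) : ‖pS k v‖ ≤ 1 * w k ^ 0 * ‖v‖ := by
  rw [pS_apply, pow_zero, one_mul, one_mul]
  by_cases hk : k = 0
  · simp [hk]
  · have h1 := one_le_ax hk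
    rw [norm_mul, norm_mul, Complex.norm_I, one_mul, norm_inv, Complex.norm_real,
      Real.norm_of_nonneg (sq_nonneg _), inv_mul_le_iff₀ (by positivity)]
    refine (norm_dt_le v k).trans ?_
    rw [mul_comm]
    gcongr
    nlinarith only [h1]

theorem Diss.classical {ν : ℝ} {A : Z3 → C3 →L[ℂ] C3} (hA : Diss ν A) {a : ℝ → Z3 → C3}
    {J : Set ℝ} (hI0 : J ⊆ Ici 0) (hI : ∀ t ∈ J, ∃ T, t < T ∧ Icc 0 T ⊆ J)
    (ha : ∀ T ∈ J, IsSol A a 0 T) :
    ∃ (u : R3 → ℝ → R3) (p : R3 → ℝ → ℝ),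
      (∀ t ∈ J, ∀ x i, HasSum (fun k => ek k x * a t k i) ((u x t i : ℝ) : ℂ)) ∧
      (∀ t ∈ J, IsData fun x => u x t) ∧
      ∀ (L : (R3 → R3) → R3 → R3) (u0 : R3 → R3), (∀ x, u x 0 = u0 x) →
        (∀ t ∈ J, ∀ x i, HasSum (fun k => ek k x * (-(A k (a t k))) i)
          ((L (fun y => u y t) x i : ℝ) : ℂ)) → IsSolutionOn L u0 J u p := by
  have hJ : UniqueDiffOn ℝ J := fun t ht => by
    obtain ⟨T, hT, hTI⟩ := hI t ht
    have h0 : (0 : ℝ) ≤ t := hI0 ht
    exact (uniqueDiffOn_Icc (h0.trans_lt hT) t ⟨h0, hT.le⟩).mono hTI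
  have tm : ∀ t ∈ J, t ∈ Icc 0 t := fun t ht => ⟨hI0 ht, le_rfl⟩
  have s1 : ∀ i, ∀ T ∈ J, ∀ n, Sm T n fun t k => a t k i := fun i T hT n =>
    Sm.map (Φ := fun _ => (EuclideanSpace.proj (𝕜 := ℂ) i).restrictScalars ℝ) (C := 1) (m := 0)
      zero_le_one (fun k v => by simpa using PiLp.norm_apply_le v i) ((ha T hT).sm hA n)
  have s2 : ∀ T ∈ J, ∀ n, Sm T n fun t k => pS k (BB (a t) (a t) k) := fun T hT n =>
    Sm.map zero_le_one norm_pS_le (((ha T hT).sm hA n).bb ((ha T hT).sm hA n))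
  set u : R3 → ℝ → R3 := fun x t i => (ser (fun t k => a t k i) (x, t)).re with hu
  set p : R3 → ℝ → ℝ := fun x t => (ser (fun t k => pS k (BB (a t) (a t) k)) (x, t)).re with hp
  have ju : ∀ i, JS J fun x t => u x t i := fun i => js_ser hI0 hI (s1 i)
  have jp : JS J p := js_ser hI0 hI s2
  have su : ∀ t ∈ J, ∀ x i, HasSum (fun k => ek k x * a t k i) ((u x t i : ℝ) : ℂ) := by
    intro t ht x i
    obtain ⟨M, hM⟩ := (s1 i t ht 0).1 4
    exact hasSum_re (hM t (tm t ht)) (fun k => by beta_reduce; rw [(ha t ht).real t (tm t ht) k]; simp) x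
  have sp : ∀ t ∈ J, sc (fun x => p x t) = fun k => pS k (BB (a t) (a t) k) := by
    intro t ht
    obtain ⟨M, hM⟩ := (s2 t ht 0).1 4
    obtain ⟨N, hN⟩ := (ha t ht).rapid (tm t ht) 1
    have r := (ha t ht).real t (tm t ht)
    refine sc_of_hasSum (hM t (tm t ht)).summable_norm fun x =>
      hasSum_re (hM t (tm t ht)) (fun k => ?_) x
    beta_reduce
    rw [BB_real (hN.mono (Nat.zero_le 1)) hN r r k, pS_apply, pS_apply, dt_neg_right, dt_cj, ax_neg]
    simp
  have pu : ∀ t, Periodic3 fun x => u x t := fun t j x => by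
    funext i; simp only [hu, ser, ek_periodic _ j x]
  have pp : ∀ t, Periodic3 fun x => p x t := fun t j x => by
    simp only [hp, ser, ek_periodic _ j x]
  have fu : ∀ t ∈ J, (fc fun x => u x t) = a t := fun t ht =>
    fc_of_hasSum ((ha t ht).rapid (tm t ht)).summable_norm (su t ht)
  have cu : ∀ t ∈ J, ContDiff ℝ ∞ fun x => u x t := fun t ht =>
    contDiff_pi.mpr fun i => (ju i).slice ht
  have pui : ∀ t i, Periodic3 fun x => u x t i := fun t i j x => congrFun (pu t j x) i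
  have du : ∀ x, ∀ t ∈ J, ∑ i, pd i (fun y => u y t i) x = 0 := by
    intro x t ht
    have c1 : ∀ i, ContDiff ℝ ∞ (pd i fun y => u y t i) := fun i => contDiff_pd ((ju i).slice ht) i
    have h1 := hasSum_sc_smooth (g := fun x => ∑ i, pd i (fun y => u y t i) x)
      (ContDiff.sum fun i _ => c1 i)
      (fun j x => Finset.sum_congr rfl fun i _ => (pui t i).pd i j x) x
    have h2 : ∀ k, sc (fun x => ∑ i, pd i (fun y => u y t i) x) k = 0 := fun k => by
      rw [sc_sum fun i => (c1 i).continuous]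
      simp only [sc_pd ((ju _).slice ht) (pui t _), ← fc_apply (fun x => u x t), fu t ht]
      have := (ha t ht).div t (tm t ht) k
      rw [dt_eq] at this
      rw [← mul_zero I, ← this, Finset.mul_sum]
      exact Finset.sum_congr rfl fun j _ => by ring
    simp only [h2, mul_zero] at h1
    exact_mod_cast h1.unique hasSum_zero
  refine ⟨u, p, su, fun t ht => ⟨cu t ht, pu t, fun x => du x t ht⟩, fun L u0 h0 hL =>
    ⟨contDiffOn_pi.mpr ju, jp, fun t _ => pu t, fun t _ => pp t, fun x t ht i => ?_, du, h0⟩⟩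
  have c1 : ContDiff ℝ ∞ fun x => derivWithin (fun s => u x s i) J t := ((ju i).time hJ).slice ht
  have c2 : ContDiff ℝ ∞ fun x => ∑ j, u x t j * pd j (fun y => u y t i) x :=
    ContDiff.sum fun j _ => ((ju j).slice ht).mul (contDiff_pd ((ju i).slice ht) j)
  have c3 : ContDiff ℝ ∞ (pd i fun y => p y t) := contDiff_pd (jp.slice ht) i
  have h1 := hasSum_sc_smooth (g := fun x => derivWithin (fun s => u x s i) J t +
      ∑ j, u x t j * pd j (fun y => u y t i) x + pd i (fun y => p y t) x)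
    ((c1.add c2).add c3) (fun j x => by
      have e1 : (fun s => u (x + Pi.single j 1) s i) = fun s => u x s i := funext fun s => pui s i j x
      simp only [e1, (pp t).pd i j x, (pui t i).pd _ j x]
      congr 2
      exact Finset.sum_congr rfl fun l _ => congrArg (· * _) (pui t l j x)) x
  have h2 : ∀ k, sc (fun x => derivWithin (fun s => u x s i) J t +
      ∑ j, u x t j * pd j (fun y => u y t i) x + pd i (fun y => p y t) x) k =
      (-(A k (a t k))) i := fun k => by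
    obtain ⟨T, hT, hTI⟩ := hI t ht
    have h0 : (0 : ℝ) ≤ t := hI0 ht
    have tT : t ∈ Icc 0 T := ⟨h0, hT.le⟩
    have d1 := (ju i).hasDerivWithinAt_sc hJ hTI k tT
    have d2 : HasDerivWithinAt (fun s => a s k i) (FF A (a t) k i) (Icc 0 T) t :=
      ((EuclideanSpace.proj (𝕜 := ℂ) i).restrictScalars ℝ).hasFDerivAt.comp_hasDerivWithinAt t
        ((ha T (hTI ⟨h0.trans hT.le, le_rfl⟩)).deriv k t tT)
    have ee : ∀ s ∈ Icc 0 T, sc (fun x => u x s i) k = a s k i := fun s hs => by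
      rw [← fu s (hTI hs), fc_apply]
    have e1 := (uniqueDiffOn_Icc (h0.trans_lt hT) t tT).eq_deriv _ d1 (d2.congr ee (ee t tT))
    have e2 := congrArg (fun v : C3 => v i) (fc_transport (cu t ht) (pu t) (cu t ht) (pu t) k)
    simp only [fc_apply, fu t ht] at e2
    rw [sc_add (c1.add c2).continuous c3.continuous, sc_add c1.continuous c2.continuous, e1, e2,
      sc_pd (jp.slice ht) (pp t), sp t ht, FF, LP_apply]
    simp only [pS_apply, PiLp.sub_apply, PiLp.neg_apply, PiLp.smul_apply, smul_eq_mul, cxi]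
    push_cast
    linear_combination (2 * Real.pi * (k i : ℂ) * ((ax k : ℂ) ^ 2)⁻¹ * dt (BB (a t) (a t) k) k) * I_mul_I
  simp only [h2] at h1
  exact_mod_cast h1.unique (hL t ht x i)

lemma hasSum_viscous (ν : ℝ) {v : R3 → R3} (hv : IsData v) (x : R3) (i : Fin 3) :
    HasSum (fun k => ek k x * (-(((ν * ax k ^ 2 : ℝ) : ℂ) • fc v k)) i)
      ((viscous ν v x i : ℝ) : ℂ) := by
  have hvi : ContDiff ℝ ∞ fun y => v y i := contDiff_pi.mp hv.smooth i
  have hpvi : Periodic3 fun y => v y i := fun j x => congrFun (hv.periodic j x) i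
  have h1 := hasSum_sc_smooth (g := fun x => viscous ν v x i)
    (contDiff_const.mul (ContDiff.sum fun j _ => contDiff_pd (contDiff_pd hvi j) j))
    (fun l x => by simp only [viscous, ((hpvi.pd _).pd _) l x]) x
  simpa only [← fc_apply, fc_viscous ν hv.smooth hv.periodic] using h1

end

end Pool.Agent.Work.MP_6bf1e5_an.B
end

-- merged part: Pool.Agent.Work.MP_6bf1e5_an.Sym.HClassic
section
/-!
The system with a matrix symbol: Fourier side, classical side, scaling of the viscosity.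
-/

open Set Filter Topology MeasureTheory Complex
open scoped InnerProductSpace ComplexConjugate ContDiff

namespace Pool.Agent.Work.MP_6bf1e5_an.B.Sz

noncomputable section

/-! Facts copied from `B.Hel`, `B.Final`, `Dec.Classic`, `Dec.Extra` (to keep the imports small). -/

/-- The identity multiplier. -/
def I1 (_ : Z3) : C3 →L[ℂ] C3 := ((1 : ℝ) : ℂ) • ContinuousLinearMap.id ℂ C3

lemma mult_I1 : Mult I1 := mult_scalar (φ := fun _ => 1) (C := 1) (m := 0) zero_le_one fun k => by simp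

lemma energy_eq {ν : ℝ} {A : Z3 → C3 →L[ℂ] C3} (hA : Diss ν A) {a : Z3 → C3}
    (ha : Rapid a) (da : DivFree a) (ra : IsReal a) :
    QQ I1 a (FF A a) = -QQ I1 a fun k => A k (a k) := by
  rw [QQ_FF hA mult_I1 0 1 ha da ra]
  have : (fun k => LP k (tf I1 0 1 a k)) = fun _ => 0 := by
    funext k; simp [tf, I1]
  rw [this]
  simp [TT, tt]

lemma QQ_I1_nonneg {ν : ℝ} {A : Z3 → C3 →L[ℂ] C3} (hA : Diss ν A) {a : Z3 → C3} (da : DivFree a) :
    0 ≤ QQ I1 a fun k => A k (a k) := tsum_nonneg fun k => by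
  rw [I1, re_inner_scalar, one_mul]
  have := hA.pos
  exact le_trans (by positivity) (hA.coer k _ (da k))

lemma Ico_extend {T : ℝ} : ∀ t ∈ Ico (0 : ℝ) T, ∃ S, t < S ∧ Icc 0 S ⊆ Ico 0 T := fun t ht =>
  ⟨(t + T) / 2, by linarith [ht.2], Icc_subset_Ico_right (by linarith [ht.2])⟩

lemma hasSum_real {c : Z3 → C3} (hc : Rapid c) (rc : IsReal c) (x : R3) (i : Fin 3) :
    HasSum (fun k => ek k x * c k i) (((∑' k, ek k x * c k i).re : ℝ) : ℂ) := by
  have s : Summable fun k => ek k x * c k i := by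
    refine Summable.of_norm_bounded hc.summable_norm fun k => ?_
    rw [norm_mul, norm_ek_eq, one_mul]
    exact PiLp.norm_apply_le _ _
  have e : conj (∑' k, ek k x * c k i) = ∑' k, ek k x * c k i := by
    rw [Complex.conj_tsum, ← (Equiv.neg Z3).tsum_eq]
    refine tsum_congr fun k => ?_
    simp only [Equiv.neg_apply, map_mul, ek_neg_index, rc k, Complex.conj_conj]
    simp
  rw [Complex.conj_eq_iff_re.mp e]
  exact s.hasSum

namespace G

lemma rapid_of_finite {a : Z3 → C3} (fin : {k | a k ≠ 0}.Finite) : Rapid a := fun s => by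
  have hs : Summable fun k => w k ^ s * ‖a k‖ := by
    refine summable_of_ne_finset_zero (s := fin.toFinset) fun k hk => ?_
    have : a k = 0 := by simpa using hk
    simp [this]
  exact ⟨_, Bd.of_tsum hs le_rfl⟩

lemma parseval_sc {g : R3 → ℝ} (hg : ContDiff ℝ ∞ g) (hp : Periodic3 g) :
    HasSum (fun k => ‖sc g k‖ ^ 2) (∫ x in Icc (0 : R3) 1, g x ^ 2) := by
  have h := Complex.reCLM.hasSum (hasSum_sc_mul hg hp hg.continuous 0)
  convert h using 1
  · funext k
    rw [zero_sub, sc_neg_index, Complex.mul_conj, reCLM_apply, ofReal_re, Complex.sq_norm]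
  · simp only [sc, neg_zero, ek_zero_index, one_mul, reCLM_apply]
    rw [integral_complex_ofReal, ofReal_re]
    exact integral_congr_ae (Eventually.of_forall fun x => pow_two (g x))

lemma hq_one (a : Z3 → C3) : hq 1 a = ∑' k, ax k ^ 2 * ‖a k‖ ^ 2 := tsum_congr fun k => by
  by_cases hk : k = 0
  · simp [ht, hk]
  · exact ht_nat 2 (by norm_num) a hk

lemma hq_two (a : Z3 → C3) (k : Z3) : ht 2 a k = ax k ^ 4 * ‖a k‖ ^ 2 := by
  by_cases hk : k = 0
  · simp [ht, hk]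
  · exact ht_nat 4 (by norm_num) a hk

lemma bessel_transport {v : R3 → R3} (hv : IsData v) {M : ℝ} (hM : ∀ x, ‖v x‖ ≤ M) :
    ∃ X, HasSum (fun k => ‖BB (fc v) (fc v) k‖ ^ 2) X ∧ X ≤ 3 * M ^ 2 * hq 1 (fc v) := by
  have sm : ∀ i, ContDiff ℝ ∞ fun x => v x i := fun i => contDiff_pi.mp hv.smooth i
  have pe : ∀ i, Periodic3 fun x => v x i := fun i j x => congrFun (hv.periodic j x) i
  obtain ⟨d, hd⟩ : ∃ d : Fin 3 → Fin 3 → R3 → ℝ, ∀ i j, d i j = pd j fun y => v y i :=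
    ⟨_, fun _ _ => rfl⟩
  have sd : ∀ i j, ContDiff ℝ ∞ (d i j) := fun i j => hd i j ▸ contDiff_pd (sm i) j
  have pp : ∀ i j, Periodic3 (d i j) := fun i j => hd i j ▸ (pe i).pd j
  have s1 : ∀ i, HasSum (fun k => ‖sc (fun x => ∑ j, v x j * d i j x) k‖ ^ 2)
      (∫ x in Icc (0 : R3) 1, (∑ j, v x j * d i j x) ^ 2) :=
    fun i => parseval_sc (ContDiff.sum fun j _ => (sm j).mul (sd i j)) fun l x => by
      simp only [hv.periodic l x, pp i _ l x]
  have s2 : HasSum (fun k => ∑ i, ∑ j, ‖sc (d i j) k‖ ^ 2)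
      (∑ i, ∑ j, ∫ x in Icc (0 : R3) 1, d i j x ^ 2) :=
    hasSum_sum fun i _ => hasSum_sum fun j _ => parseval_sc (sd i j) (pp i j)
  have s3 : HasSum (fun k => ∑ i, ‖sc (fun x => ∑ j, v x j * d i j x) k‖ ^ 2)
      (∑ i, ∫ x in Icc (0 : R3) 1, (∑ j, v x j * d i j x) ^ 2) := hasSum_sum fun i _ => s1 i
  have e3 : ∀ k, ‖BB (fc v) (fc v) k‖ ^ 2 = ∑ i, ‖sc (fun x => ∑ j, v x j * d i j x) k‖ ^ 2 := by
    intro k
    rw [← fc_transport hv.smooth hv.periodic hv.smooth hv.periodic, EuclideanSpace.norm_sq_eq]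
    simp only [fc_apply, hd]
  have e2 : ∀ k, ax k ^ 2 * ‖fc v k‖ ^ 2 = ∑ i, ∑ j, ‖sc (d i j) k‖ ^ 2 := by
    intro k
    rw [EuclideanSpace.norm_sq_eq, ax_sq, Finset.mul_sum]
    refine Finset.sum_congr rfl fun i _ => ?_
    rw [Finset.sum_mul]
    refine Finset.sum_congr rfl fun j _ => ?_
    rw [hd, sc_pd (sm i) (pe i), norm_mul, fc_apply]
    simp [mul_pow]
  refine ⟨_, by simp only [e3]; exact s3, ?_⟩
  rw [hq_one]
  simp only [e2]
  rw [s2.tsum_eq, Finset.mul_sum]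
  refine Finset.sum_le_sum fun i _ => ?_
  have ci : ∀ j, IntegrableOn (fun x => d i j x ^ 2) (Icc (0 : R3) 1) :=
    fun j => integrableOn_cube ((sd i j).continuous.pow 2)
  rw [← integral_finsetSum _ fun j _ => ci j, ← integral_const_mul]
  refine setIntegral_mono_on (integrableOn_cube ((continuous_finsetSum _ fun j _ =>
    (sm j).continuous.mul (sd i j).continuous).pow 2))
    ((integrable_finsetSum _ fun j _ => ci j).const_mul _) measurableSet_Icc fun x _ => ?_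
  refine (Finset.sum_mul_sq_le_sq_mul_sq _ _ _).trans (mul_le_mul_of_nonneg_right ?_
    (Finset.sum_nonneg fun j _ => sq_nonneg _))
  have : ∀ j, v x j ^ 2 ≤ M ^ 2 := fun j =>
    sq_le_sq' (neg_le_of_abs_le ((norm_le_pi_norm (v x) j).trans (hM x)))
      (le_of_abs_le ((norm_le_pi_norm (v x) j).trans (hM x)))
  simp only [Fin.sum_univ_three]
  linarith [this 0, this 1, this 2]

end G

/-- A real matrix acting on complex vectors. -/
def mL (M : M3) : C3 →L[ℂ] C3 :=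
  LinearMap.toContinuousLinearMap
    { toFun := fun v => WithLp.toLp 2 fun i => ∑ j, (M i j : ℂ) * v j
      map_add' := fun u v => by ext i; simp [mul_add, Finset.sum_add_distrib]
      map_smul' := fun c v => by ext i; simp [Finset.mul_sum, mul_left_comm] }

lemma mL_apply (M : M3) (v : C3) (i : Fin 3) : mL M v i = ∑ j, (M i j : ℂ) * v j := rfl

lemma mL_cj (M : M3) (v : C3) : mL M (cj v) = cj (mL M v) := by
  ext i; simp [mL_apply]

lemma inner_mL (M : M3) (u v : C3) :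
    ⟪u, mL M v⟫_ℂ = ∑ i, ∑ j, conj (u i) * (M i j : ℂ) * v j := by
  simp only [PiLp.inner_apply, mL_apply, RCLike.inner_apply, Finset.sum_mul]
  exact Finset.sum_congr rfl fun i _ => Finset.sum_congr rfl fun j _ => by ring

lemma re_inner_mL (M : M3) (v : C3) : (⟪v, mL M v⟫_ℂ).re =
    ∑ i, ∑ j, (v i).re * M i j * (v j).re + ∑ i, ∑ j, (v i).im * M i j * (v j).im := by
  rw [inner_mL]
  simp only [re_sum, ← Finset.sum_add_distrib]
  refine Finset.sum_congr rfl fun i _ => Finset.sum_congr rfl fun j _ => ?_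
  simp

lemma normsq_C3 (v : C3) : ‖v‖ ^ 2 = ∑ i, (v i).re ^ 2 + ∑ i, (v i).im ^ 2 := by
  rw [EuclideanSpace.norm_sq_eq, ← Finset.sum_add_distrib]
  refine Finset.sum_congr rfl fun i _ => ?_
  rw [Complex.sq_norm, Complex.normSq_apply]; ring

lemma norm_mL_le (M : M3) (v : C3) : ‖mL M v‖ ≤ 9 * ‖M‖ * ‖v‖ := by
  have h : ∀ i, ‖mL M v i‖ ≤ 3 * (‖M‖ * ‖v‖) := fun i => by
    rw [mL_apply]
    refine (norm_sum_le _ _).trans ?_
    have : ∀ j, ‖(M i j : ℂ) * v j‖ ≤ ‖M‖ * ‖v‖ := fun j => by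
      rw [norm_mul, Complex.norm_real]
      exact mul_le_mul ((norm_le_pi_norm (M i) j).trans (norm_le_pi_norm M i))
        (PiLp.norm_apply_le v j) (norm_nonneg _) (norm_nonneg _)
    simp only [Fin.sum_univ_three]
    linarith [this 0, this 1, this 2]
  refine (norm_C3_le_sum _).trans ?_
  simp only [Fin.sum_univ_three]
  linarith [h 0, h 1, h 2]

/-- The frequency `2 π k`. -/
def fq (k : Z3) : R3 := fun l => 2 * Real.pi * k l

lemma fq_neg (k : Z3) : fq (-k) = -fq k := by ext l; simp [fq]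

lemma sum_fq_sq (k : Z3) : ∑ i, fq k i ^ 2 = ax k ^ 2 := (ax_sq k).symm

lemma norm_fq_le (k : Z3) : ‖fq k‖ ≤ ax k :=
  (pi_norm_le_iff_of_nonneg (ax_nonneg k)).mpr fun j => abs_xi_le k j

/-- The properties of the symbol used by the local theory. -/
structure Wk (D : R3 → M3) : Prop where
  even : ∀ ξ, D (-ξ) = D ξ
  lower : ∀ (k : Z3) (v : R3), ax k ^ 2 * ∑ i, v i ^ 2 ≤ ∑ i, ∑ j, v i * D (fq k) i j * v j
  grow : ∃ C : ℝ, 0 ≤ C ∧ ∀ k, ‖D (fq k)‖ ≤ C * w k ^ 3

lemma wk_of {α C : ℝ} {D : R3 → M3} (hD : IsSymbol α C D) (h1 : 1 ≤ α) (h2 : α ≤ 5 / 4) :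
    Wk D := by
  refine ⟨hD.even, fun k v => le_trans ?_ (hD.lower _ v), ?_⟩
  · refine mul_le_mul_of_nonneg_right ?_ (by positivity)
    rw [sum_fq_sq]
    by_cases hk : k = 0
    · rw [hk, ax_zero]
      have : (0 : ℝ) ^ 2 = 0 := by norm_num
      rw [this]; exact Real.rpow_nonneg le_rfl _
    · have h3 : 1 ≤ ax k ^ 2 := one_le_pow₀ (one_le_ax hk)
      calc ax k ^ 2 = (ax k ^ 2) ^ (1 : ℝ) := (Real.rpow_one _).symm
        _ ≤ _ := Real.rpow_le_rpow_of_exponent_le h3 h1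
  · obtain ⟨K, hK⟩ := hD.deriv 0
    have K0 : 0 ≤ K := by
      have := (norm_nonneg _).trans (hK 0)
      simpa using this
    refine ⟨K, K0, fun k => ?_⟩
    have h3 := hK (fq k)
    rw [norm_iteratedFDeriv_zero] at h3
    refine h3.trans (mul_le_mul_of_nonneg_left ?_ K0)
    have h4 : 1 ≤ 1 + ‖fq k‖ := by linarith only [norm_nonneg (fq k)]
    calc (1 + ‖fq k‖) ^ (2 * α - (0 : ℕ)) ≤ (1 + ‖fq k‖) ^ ((3 : ℕ) : ℝ) :=
          Real.rpow_le_rpow_of_exponent_le h4 (by push_cast; linarith only [h2])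
      _ = (1 + ‖fq k‖) ^ 3 := Real.rpow_natCast _ _
      _ ≤ w k ^ 3 := pow_le_pow_left₀ (by positivity) (by unfold w; linarith [norm_fq_le k]) 3

/-- The symbol `ν D(2 π k)`. -/
def DS (ν : ℝ) (D : R3 → M3) (k : Z3) : C3 →L[ℂ] C3 := (ν : ℂ) • mL (D (fq k))

/-- The projected symbol. -/
def AS (ν : ℝ) (D : R3 → M3) (k : Z3) : C3 →L[ℂ] C3 := (LP k).comp (DS ν D k)

variable {ν : ℝ} {D : R3 → M3}

lemma DS_apply (k : Z3) (v : C3) : DS ν D k v = (ν : ℂ) • mL (D (fq k)) v := rfl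

lemma AS_apply (k : Z3) (v : C3) : AS ν D k v = LP k (DS ν D k v) := rfl

lemma DS_real (hD : Wk D) (k : Z3) (v : C3) :
    DS ν D (-k) (cj v) = cj (DS ν D k v) := by
  rw [DS_apply, DS_apply, fq_neg, hD.even, mL_cj, cj_smul, conj_ofReal]

lemma DS_growth (hD : Wk D) (ν : ℝ) :
    ∃ C : ℝ, 0 ≤ C ∧ ∀ k v, ‖DS ν D k v‖ ≤ C * w k ^ 3 * ‖v‖ := by
  obtain ⟨C, C0, hC⟩ := hD.grow
  refine ⟨|ν| * (9 * C), by positivity, fun k v => ?_⟩
  rw [DS_apply, norm_smul, Complex.norm_real, Real.norm_eq_abs, mul_assoc, mul_assoc]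
  refine mul_le_mul_of_nonneg_left ((norm_mL_le _ _).trans ?_) (abs_nonneg _)
  have := hC k
  nlinarith only [this, norm_nonneg v]

lemma DS_coer (hD : Wk D) (hν : 0 ≤ ν) (k : Z3) (v : C3) :
    ν * ax k ^ 2 * ‖v‖ ^ 2 ≤ (⟪v, DS ν D k v⟫_ℂ).re := by
  rw [DS_apply, inner_smul_right, re_ofReal_mul, re_inner_mL, normsq_C3, mul_assoc, mul_add]
  exact mul_le_mul_of_nonneg_left
    (add_le_add (hD.lower _ fun i => (v i).re) (hD.lower _ fun i => (v i).im)) hν

theorem diss_AS (hD : Wk D) (hν : 0 < ν) : Diss ν (AS ν D) := by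
  obtain ⟨C, C0, hC⟩ := DS_growth hD ν
  exact ⟨hν, fun k v hv => by rw [AS_apply, inner_LP hv]; exact DS_coer hD hν.le k v,
    ⟨C, 3, C0, fun k v => (norm_LP_le _ _).trans (hC k v)⟩, fun k v _ => dt_LP _ _,
    fun k v => by rw [AS_apply, AS_apply, DS_real hD, LP_cj]⟩

lemma hasSum_symDiss (hD : Wk D) (ν : ℝ) {v : R3 → R3} (hv : IsData v) (x : R3)
    (i : Fin 3) : HasSum (fun k => ek k x * (-(DS ν D k (fc v k))) i)
      ((symDiss ν D v x i : ℝ) : ℂ) := by
  obtain ⟨rp, re, -, -⟩ := hv.fourier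
  obtain ⟨C, C0, hC⟩ := DS_growth hD 1
  have s := ((hasSum_real (c := fun k => DS 1 D k (fc v k)) (rp.map C0 hC)
    (fun k => by beta_reduce; rw [re k]; exact DS_real hD k _) x i).mul_left (ν : ℂ)).neg
  unfold symDiss
  push_cast
  simp only [DS_apply, ofReal_one, one_smul, mL_apply] at s
  refine s.congr_fun fun k => ?_
  simp only [DS_apply, PiLp.neg_apply, PiLp.smul_apply, mL_apply, smul_eq_mul]
  ring

lemma fc_symDiss (hD : Wk D) (ν : ℝ) {v : R3 → R3} (hv : IsData v) :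
    fc (symDiss ν D v) = fun k => -(DS ν D k (fc v k)) := by
  obtain ⟨C, C0, hC⟩ := DS_growth hD ν
  refine fc_of_hasSum ?_ (hasSum_symDiss hD ν hv)
  simpa using (hv.fourier.1.map C0 hC).summable_norm

/-- Classical solutions are Fourier-side solutions. -/
theorem isSol_symDiss (hD : Wk D) {u0 : R3 → R3} {J : Set ℝ} {u : R3 → ℝ → R3}
    {p : R3 → ℝ → ℝ} (h : IsSolutionOn (symDiss ν D) u0 J u p) (hJ : UniqueDiffOn ℝ J)
    {a b : ℝ} (hab : Icc a b ⊆ J) : IsSol (AS ν D) (fun s => fc fun x => u x s) a b := by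
  have hdiv : ∀ s ∈ Icc a b, DivFree (fc fun x => u x s) := fun s hs =>
    (h.isData_slice (hab hs)).fourier.2.2.1
  refine ⟨bd_fc_of_JS hJ isCompact_Icc hab h.js h.periodic_u, fun s _ => isReal_fc _, hdiv,
    fun k s hs => ?_⟩
  have h1 : HasDerivWithinAt (fun s => fc (fun x => u x s) k)
      (fc (fun x i => derivWithin (fun s => u x s i) J s) k) (Icc a b) s :=
    hasDerivWithinAt_C3 fun i => (h.js i).hasDerivWithinAt_sc hJ hab k hs
  have h2 := ((LP k).restrictScalars ℝ).hasFDerivAt.comp_hasDerivWithinAt s h1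
  have e : (LP k).restrictScalars ℝ (fc (fun x i => derivWithin (fun s => u x s i) J s) k)
      = FF (AS ν D) (fc fun x => u x s) k := by
    rw [h.fourier_momentum hJ (hab hs), fc_symDiss hD ν (h.isData_slice (hab hs)),
      ContinuousLinearMap.coe_restrictScalars', map_add, map_sub, map_neg, map_smul, LP_cxi,
      smul_zero, sub_zero, map_neg, FF, sub_eq_add_neg, AS_apply]
  rw [e] at h2
  exact h2.congr (fun r hr => (LP_of_div (hdiv r hr k)).symm) (LP_of_div (hdiv s hs k)).symm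

/-- Fourier-side solutions are classical solutions. -/
theorem classical (hD : Wk D) (hν : 0 < ν) {a : ℝ → Z3 → C3}
    {J : Set ℝ} (hI0 : J ⊆ Ici 0) (hI : ∀ t ∈ J, ∃ T, t < T ∧ Icc 0 T ⊆ J)
    (ha : ∀ T ∈ J, IsSol (AS ν D) a 0 T) :
    ∃ (u : R3 → ℝ → R3) (p : R3 → ℝ → ℝ), (∀ t ∈ J, (fc fun x => u x t) = a t) ∧
      IsSolutionOn (symDiss ν D) (fun x => u x 0) J u p := by
  have hA := diss_AS hD hν
  obtain ⟨C, C0, hC⟩ := DS_growth hD ν
  have hJ : UniqueDiffOn ℝ J := fun t ht => by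
    obtain ⟨T, hT, hTI⟩ := hI t ht
    have h0 : (0 : ℝ) ≤ t := hI0 ht
    exact (uniqueDiffOn_Icc (h0.trans_lt hT) t ⟨h0, hT.le⟩).mono hTI
  have tm : ∀ t ∈ J, t ∈ Icc 0 t := fun t ht => ⟨hI0 ht, le_rfl⟩
  have s1 : ∀ i, ∀ T ∈ J, ∀ n, Sm T n fun t k => a t k i := fun i T hT n =>
    Sm.map (Φ := fun _ => (EuclideanSpace.proj (𝕜 := ℂ) i).restrictScalars ℝ) (C := 1) (m := 0)
      zero_le_one (fun k v => by simpa using PiLp.norm_apply_le v i) ((ha T hT).sm hA n)
  have s2 : ∀ T ∈ J, ∀ n, Sm T n fun t k => pS k (BB (a t) (a t) k + DS ν D k (a t k)) :=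
    fun T hT n => Sm.map zero_le_one norm_pS_le ((((ha T hT).sm hA n).bb ((ha T hT).sm hA n)).add
      (Sm.map (Φ := fun k => (DS ν D k).restrictScalars ℝ) C0 hC ((ha T hT).sm hA n)))
  set u : R3 → ℝ → R3 := fun x t i => (ser (fun t k => a t k i) (x, t)).re with hu
  set p : R3 → ℝ → ℝ := fun x t =>
    (ser (fun t k => pS k (BB (a t) (a t) k + DS ν D k (a t k))) (x, t)).re with hp
  have ju : ∀ i, JS J fun x t => u x t i := fun i => js_ser hI0 hI (s1 i)
  have jp : JS J p := js_ser hI0 hI s2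
  have su : ∀ t ∈ J, ∀ x i, HasSum (fun k => ek k x * a t k i) ((u x t i : ℝ) : ℂ) := by
    intro t ht x i
    obtain ⟨M, hM⟩ := (s1 i t ht 0).1 4
    exact hasSum_re (hM t (tm t ht))
      (fun k => by beta_reduce; rw [(ha t ht).real t (tm t ht) k]; simp) x
  have sp : ∀ t ∈ J, sc (fun x => p x t) = fun k => pS k (BB (a t) (a t) k + DS ν D k (a t k)) := by
    intro t ht
    obtain ⟨M, hM⟩ := (s2 t ht 0).1 4
    obtain ⟨N, hN⟩ := (ha t ht).rapid (tm t ht) 1
    have r := (ha t ht).real t (tm t ht)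
    refine sc_of_hasSum (hM t (tm t ht)).summable_norm fun x =>
      hasSum_re (hM t (tm t ht)) (fun k => ?_) x
    beta_reduce
    rw [BB_real (hN.mono (Nat.zero_le 1)) hN r r k, r k, DS_real hD, ← map_add, pS_apply, pS_apply,
      dt_neg_right, dt_cj, ax_neg]
    simp
  have pu : ∀ t, Periodic3 fun x => u x t := fun t j x => by
    funext i; simp only [hu, ser, ek_periodic _ j x]
  have pp : ∀ t, Periodic3 fun x => p x t := fun t j x => by
    simp only [hp, ser, ek_periodic _ j x]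
  have fu : ∀ t ∈ J, (fc fun x => u x t) = a t := fun t ht =>
    fc_of_hasSum ((ha t ht).rapid (tm t ht)).summable_norm (su t ht)
  have cu : ∀ t ∈ J, ContDiff ℝ ∞ fun x => u x t := fun t ht =>
    contDiff_pi.mpr fun i => (ju i).slice ht
  have pui : ∀ t i, Periodic3 fun x => u x t i := fun t i j x => congrFun (pu t j x) i
  have du : ∀ x, ∀ t ∈ J, ∑ i, pd i (fun y => u y t i) x = 0 := by
    intro x t ht
    have c1 : ∀ i, ContDiff ℝ ∞ (pd i fun y => u y t i) := fun i => contDiff_pd ((ju i).slice ht) i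
    have h1 := hasSum_sc_smooth (g := fun x => ∑ i, pd i (fun y => u y t i) x)
      (ContDiff.sum fun i _ => c1 i)
      (fun j x => Finset.sum_congr rfl fun i _ => (pui t i).pd i j x) x
    have h2 : ∀ k, sc (fun x => ∑ i, pd i (fun y => u y t i) x) k = 0 := fun k => by
      rw [sc_sum fun i => (c1 i).continuous]
      simp only [sc_pd ((ju _).slice ht) (pui t _), ← fc_apply (fun x => u x t), fu t ht]
      have := (ha t ht).div t (tm t ht) k
      rw [dt_eq] at this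
      rw [← mul_zero I, ← this, Finset.mul_sum]
      exact Finset.sum_congr rfl fun j _ => by ring
    simp only [h2, mul_zero] at h1
    exact_mod_cast h1.unique hasSum_zero
  refine ⟨u, p, fu,
    ⟨contDiffOn_pi.mpr ju, jp, fun t _ => pu t, fun t _ => pp t, fun x t ht i => ?_, du,
      fun _ => rfl⟩⟩
  have c1 : ContDiff ℝ ∞ fun x => derivWithin (fun s => u x s i) J t := ((ju i).time hJ).slice ht
  have c2 : ContDiff ℝ ∞ fun x => ∑ j, u x t j * pd j (fun y => u y t i) x :=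
    ContDiff.sum fun j _ => ((ju j).slice ht).mul (contDiff_pd ((ju i).slice ht) j)
  have c3 : ContDiff ℝ ∞ (pd i fun y => p y t) := contDiff_pd (jp.slice ht) i
  have h1 := hasSum_sc_smooth (g := fun x => derivWithin (fun s => u x s i) J t +
      ∑ j, u x t j * pd j (fun y => u y t i) x + pd i (fun y => p y t) x)
    ((c1.add c2).add c3) (fun j x => by
      have e1 : (fun s => u (x + Pi.single j 1) s i) = fun s => u x s i := funext fun s => pui s i j x
      simp only [e1, (pp t).pd i j x, (pui t i).pd _ j x]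
      congr 2
      exact Finset.sum_congr rfl fun l _ => congrArg (· * _) (pui t l j x)) x
  have h2 : ∀ k, sc (fun x => derivWithin (fun s => u x s i) J t +
      ∑ j, u x t j * pd j (fun y => u y t i) x + pd i (fun y => p y t) x) k =
      (-(DS ν D k (a t k))) i := fun k => by
    obtain ⟨T, hT, hTI⟩ := hI t ht
    have h0 : (0 : ℝ) ≤ t := hI0 ht
    have tT : t ∈ Icc 0 T := ⟨h0, hT.le⟩
    have d1 := (ju i).hasDerivWithinAt_sc hJ hTI k tT
    have d2 : HasDerivWithinAt (fun s => a s k i) (FF (AS ν D) (a t) k i) (Icc 0 T) t :=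
      ((EuclideanSpace.proj (𝕜 := ℂ) i).restrictScalars ℝ).hasFDerivAt.comp_hasDerivWithinAt t
        ((ha T (hTI ⟨h0.trans hT.le, le_rfl⟩)).deriv k t tT)
    have ee : ∀ s ∈ Icc 0 T, sc (fun x => u x s i) k = a s k i := fun s hs => by
      rw [← fu s (hTI hs), fc_apply]
    have e1 := (uniqueDiffOn_Icc (h0.trans_lt hT) t tT).eq_deriv _ d1 (d2.congr ee (ee t tT))
    have e2 := congrArg (fun v : C3 => v i) (fc_transport (cu t ht) (pu t) (cu t ht) (pu t) k)
    simp only [fc_apply, fu t ht] at e2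
    rw [sc_add (c1.add c2).continuous c3.continuous, sc_add c1.continuous c2.continuous, e1, e2,
      sc_pd (jp.slice ht) (pp t), sp t ht, FF, AS_apply, LP_apply, LP_apply]
    simp only [pS_apply, PiLp.sub_apply, PiLp.neg_apply, PiLp.smul_apply, smul_eq_mul, cxi,
      dt_add_left]
    push_cast
    linear_combination (2 * Real.pi * (k i : ℂ) * ((ax k : ℂ) ^ 2)⁻¹ *
      (dt (BB (a t) (a t) k) k + dt (DS ν D k (a t k)) k)) * I_mul_I
  simp only [h2] at h1
  have hd : IsData fun x => u x t := ⟨cu t ht, pu t, fun x => du x t ht⟩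
  have h3 := hasSum_symDiss hD ν hd x i
  rw [fu t ht] at h3
  exact_mod_cast h1.unique h3

lemma H1_sup {A : Z3 → C3 →L[ℂ] C3} (hA : Diss ν A) {v : R3 → R3} (hv : IsData v) {M : ℝ}
    (hM : ∀ x, ‖v x‖ ≤ M) :
    2 * QQ H1 (fc v) (FF A (fc v)) + ν * hq 2 (fc v) ≤ 3 * M ^ 2 / ν * QQ H1 (fc v) (fc v) := by
  have hν := hA.pos
  obtain ⟨rp, re, dv, -⟩ := hv.fourier
  obtain ⟨X, hX, hX'⟩ := G.bessel_transport hv hM
  obtain ⟨a, ha⟩ : ∃ a, a = fc v := ⟨_, rfl⟩
  rw [← ha] at rp re dv hX hX' ⊢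
  have rF : Rapid (FF A a) := fun s => by
    obtain ⟨C, m, hC, hg⟩ := hA.growth
    obtain ⟨N, hN⟩ := rp (s + 1)
    obtain ⟨N', hN'⟩ := rp.map hC hg s
    exact ⟨_, (Bd_BB (hN.mono (Nat.le_succ s)) hN).LP.neg.sub hN'⟩
  have e0 : QQ I1 a (FF A a) ≤ 0 := by
    rw [energy_eq hA rp dv re]
    exact neg_nonpos.mpr (QQ_I1_nonneg hA dv)
  have e1 := hasSum_le (fun k => ?_) (((mult_H1.summable rp rF).hasSum.mul_left 2).add
    ((rp.summable_ht 2).hasSum.mul_left ν))
    (((mult_I1.summable rp rF).hasSum.mul_left 2).add (hX.div_const ν))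
  · have e2 : hq 1 a ≤ QQ H1 a a := by
      refine (rp.summable_ht 1).tsum_le_tsum (fun k => ?_) (mult_H1.summable rp rp)
      rw [H1, re_inner_scalar, re_inner_self]
      by_cases hk : k = 0
      · simp [ht, hk]
      · rw [ht_nat 2 (by norm_num) a hk]
        linarith only [sq_nonneg ‖a k‖]
    have e3 : X / ν ≤ 3 * M ^ 2 / ν * QQ H1 a a := by
      rw [div_mul_eq_mul_div]
      exact div_le_div_of_nonneg_right
        (hX'.trans (mul_le_mul_of_nonneg_left e2 (by positivity))) hν.le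
    change 2 * QQ H1 a _ + ν * hq 2 a ≤ 2 * QQ I1 a _ + _ at e1
    linarith
  · rw [H1, I1, re_inner_scalar, re_inner_scalar, G.hq_two, FF, inner_sub_right, inner_neg_right,
      inner_LP (dv k), sub_re, neg_re]
    have b0 := mul_le_mul_of_nonneg_left (hA.coer k _ (dv k)) (sq_nonneg (ax k))
    have b1 : -(⟪a k, BB a a k⟫_ℂ).re ≤ ‖a k‖ * ‖BB a a k‖ :=
      (neg_le_abs _).trans ((abs_re_le_norm _).trans (norm_inner_le_norm _ _))
    have b2 := mul_le_mul_of_nonneg_left b1 (sq_nonneg (ax k))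
    have b3 : 2 * (ax k ^ 2 * (‖a k‖ * ‖BB a a k‖)) ≤
        ν * (ax k ^ 4 * ‖a k‖ ^ 2) + ‖BB a a k‖ ^ 2 / ν := by
      rw [← sub_nonneg]
      have : ν * (ax k ^ 4 * ‖a k‖ ^ 2) + ‖BB a a k‖ ^ 2 / ν -
          2 * (ax k ^ 2 * (‖a k‖ * ‖BB a a k‖)) = (ν * (ax k ^ 2 * ‖a k‖) - ‖BB a a k‖) ^ 2 / ν := by
        field_simp; ring
      rw [this]; positivity
    linarith

lemma norm_le_tsum {v : R3 → R3} (hv : IsData v) (x : R3) : ‖v x‖ ≤ ∑' k, ‖fc v k‖ := by
  obtain ⟨rp, -, -, hs⟩ := hv.fourier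
  refine (pi_norm_le_iff_of_nonneg (tsum_nonneg fun _ => norm_nonneg _)).2 fun i => ?_
  rw [← Complex.norm_real]
  refine (hs x i).norm_le_of_bounded rp.summable_norm.hasSum fun k => ?_
  rw [norm_mul, norm_ek_eq, one_mul]
  exact PiLp.norm_apply_le _ i

/-- All Fourier-side solutions with data `a0` have bounded life span and obey a self-similar
bound. -/
def Bound (A : Z3 → C3 →L[ℂ] C3) (a0 : Z3 → C3) (γ : ℝ) : Prop :=
  ∃ K Tm : ℝ, ∀ (a : ℝ → Z3 → C3) (T : ℝ), a 0 = a0 → IsSol A a 0 T →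
    T ≤ Tm ∧ ∀ t ∈ Ico 0 T, ∑' k, ‖a t k‖ ≤ K * (T - t) ^ γ

/-- If there is no global Fourier-side solution then the classical solution blows up. -/
theorem blowup (hD : Wk D) (hν : 0 < ν) {a0 : Z3 → C3}
    (fin : {k | a0 k ≠ 0}.Finite) (re : IsReal a0) (dv : DivFree a0) {γ : ℝ}
    (hB : Bound (AS ν D) a0 γ) :
    ∃ u0 : R3 → R3, IsData u0 ∧ {k | fc u0 k ≠ 0}.Finite ∧
      (∃ T > 0, ∃ u p, IsSolutionOn (symDiss ν D) u0 (Ico 0 T) u p ∧
        (∀ t ∈ Ico 0 T, HasDerivWithinAt (fun s => energy fun x => u x s)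
          (-(2 * ν * dissip D fun x => u x t)) (Ico 0 T) t) ∧
        (∃ K : ℝ, ∀ t ∈ Ico 0 T, ∀ x, ‖u x t‖ ≤ K * (T - t) ^ γ) ∧
        ∀ M : ℝ, ∃ t ∈ Ico 0 T, ∃ x, M < ‖u x t‖) ∧
      ¬∃ u p, IsSolutionOn (symDiss ν D) u0 (Ici 0) u p := by
  have hA := diss_AS hD hν
  obtain ⟨K, Tm, hB⟩ := hB
  have H : ¬∃ a : ℝ → Z3 → C3, a 0 = a0 ∧ ∀ T, IsSol (AS ν D) a 0 T := by
    rintro ⟨a, h0, ha⟩
    linarith [(hB a (Tm + 1) h0 (ha _)).1]
  obtain ⟨a, a00, ha⟩ := hA.maximal dv re (G.rapid_of_finite fin)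
  obtain ⟨Ts, hTs, ha, hl⟩ := ha.resolve_left fun h => H ⟨a, a00, h⟩
  obtain ⟨u, p, fu, hu⟩ := classical hD hν (J := Ico 0 Ts) Ico_subset_Ici_self Ico_extend
    fun S hS => ha S hS.2
  have z : (0 : ℝ) ∈ Ico 0 Ts := ⟨le_rfl, hTs⟩
  have f0 : (fc fun x => u x 0) = a0 := (fu 0 z).trans a00
  refine ⟨fun x => u x 0, hu.isData_slice z, by rwa [f0],
    ⟨Ts, hTs, u, p, hu, fun t ht => ?_, ⟨K * 2⁻¹ ^ γ, fun t ht x => ?_⟩, fun M => ?_⟩, ?_⟩
  · obtain ⟨T, tT, hT⟩ := exists_between ht.2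
    have s := ha T hT
    have tm : t ∈ Icc 0 T := ⟨ht.1, tT.le⟩
    have nb : Icc 0 T ∈ 𝓝[Ico 0 Ts] t :=
      mem_nhdsWithin.mpr ⟨Iio T, isOpen_Iio, tT, fun r hr => ⟨hr.2.1, hr.1.le⟩⟩
    have d := (s.hasDeriv_QQ hA mult_I1 tm).mono_of_mem_nhdsWithin nb
    have hF : ∀ v, energy v = QQ I1 (fc v) (fc v) := fun v => tsum_congr fun k => by
      rw [I1, re_inner_scalar, re_inner_self]; simp
    have hE : -(2 * ν * dissip D fun x => u x t) = 2 * QQ I1 (a t) (FF (AS ν D) (a t)) := by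
      rw [energy_eq hA (s.rapid tm) (s.div t tm) (s.real t tm), dissip, fu t ht, QQ, mul_neg,
        mul_assoc, ← tsum_mul_left]
      congr 2
      refine tsum_congr fun k => ?_
      rw [I1, re_inner_scalar, AS_apply, inner_LP (s.div t tm k), DS_apply, inner_smul_right,
        re_ofReal_mul, inner_mL, one_mul]
      rfl
    rw [hE]
    exact d.congr (fun r hr => by rw [hF, fu r hr]) (by rw [hF, fu t ht])
  · have h1 := (hB a ((t + Ts) / 2) a00 (ha _ (by linarith only [ht.2]))).2 t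
      ⟨ht.1, by linarith [ht.2]⟩
    have h2 := norm_le_tsum (hu.isData_slice ht) x
    rw [fu t ht] at h2
    refine h2.trans (h1.trans (le_of_eq ?_))
    rw [mul_assoc, ← Real.mul_rpow (by norm_num) (by linarith [ht.2])]
    congr 2
    ring
  · by_contra hc
    push Not at hc
    obtain ⟨Bd, B0, hBd⟩ := osgood (QQ H1 (a 0) (a 0)) (3 * M ^ 2 / ν * Ts) (by (clear * - hν hTs; positivity))
    refine hA.no_blowup hTs (K := Bd / ν) (by positivity) ha hl fun T hT => ?_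
    have s := ha T hT.2
    have y0 : ∀ t ∈ Icc 0 T, 0 ≤ QQ H1 (a t) (a t) := fun t ht =>
      (sq_nonneg _).trans (QQ_H1_ge (s.rapid ht))
    have k := (hBd T _ _ _ (fun _ => 3 * M ^ 2 / ν) hT.1 rfl
      (fun t ht => s.hasDeriv_QQ hA mult_H1 ht)
      (s.continuousOn_QQ_FF hA mult_H1) (continuousOn_const.mul (s.continuousOn_hq 2)) y0
      (fun t _ => mul_nonneg hν.le (hq_nonneg _ _)) (fun t _ => by positivity) (fun t ht => ?_) ?_).2
    · rw [div_eq_inv_mul Bd, ENNReal.ofReal_mul (by positivity)]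
      refine le_trans ?_ (mul_le_mul_right k _)
      rw [← lintegral_const_mul' _ _ ENNReal.ofReal_ne_top]
      refine setLIntegral_mono' measurableSet_Ioo fun t ht => ?_
      rw [← ENNReal.ofReal_mul (by positivity), Pi.mul_apply, inv_mul_cancel_left₀ hν.ne']
      exact ENNReal.ofReal_le_ofReal ((s.rapid (Ioo_subset_Icc_self ht)).hq_mono (by norm_num))
    · have tm : t ∈ Ico 0 Ts := ⟨ht.1, ht.2.trans_lt hT.2⟩
      have := H1_sup hA (hu.isData_slice tm) (hc t tm)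
      rw [fu t tm] at this
      exact this.trans (mul_le_mul_of_nonneg_left (le_log_form (y0 t ht)) (by positivity))
    · rw [setLIntegral_const, Real.volume_Ioo, ← ENNReal.ofReal_mul (by positivity), sub_zero]
      exact ENNReal.ofReal_le_ofReal (mul_le_mul_of_nonneg_left hT.2.le (by positivity))
  · rintro ⟨u', p', h'⟩
    refine H ⟨fun s => fc fun x => u' x s, ?_, fun T =>
      isSol_symDiss hD h' (uniqueDiffOn_Ici 0) Icc_subset_Ici_self⟩
    have e : (fun x => u' x 0) = fun x => u x 0 := funext h'.initial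
    beta_reduce
    rw [e, f0]

lemma BB_smul (c : ℝ) (a : Z3 → C3) (k : Z3) :
    BB (fun k => (c : ℂ) • a k) (fun k => (c : ℂ) • a k) k = ((c : ℂ) * c) • BB a a k := by
  unfold BB
  rw [← tsum_const_smul'']
  refine tsum_congr fun p => ?_
  rw [dt_smul_left, smul_smul, smul_smul]
  congr 1; ring

/-- Scaling of the viscosity. -/
theorem isSol_scale (hν : 0 < ν) {a : ℝ → Z3 → C3} {T : ℝ} (s : IsSol (AS ν D) a 0 (ν⁻¹ * T)) :
    IsSol (AS 1 D) (fun t k => ((ν⁻¹ : ℝ) : ℂ) • a (ν⁻¹ * t) k) 0 T := by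
  have hi : 0 < ν⁻¹ := inv_pos.mpr hν
  have m : ∀ t ∈ Icc 0 T, ν⁻¹ * t ∈ Icc 0 (ν⁻¹ * T) := fun t ht =>
    ⟨mul_nonneg hi.le ht.1, mul_le_mul_of_nonneg_left ht.2 hi.le⟩
  refine ⟨fun n => ?_, fun t ht k => ?_, fun t ht k => ?_, fun k t ht => ?_⟩
  · obtain ⟨M, hM⟩ := s.bd n
    exact ⟨_, fun t ht => Bd.of_growth (s := n) (m := 0) (C := ν⁻¹) (hM _ (m t ht)) hi.le
      fun k => by simp [norm_smul, abs_of_pos hν]⟩
  · beta_reduce
    rw [s.real _ (m t ht) k, cj_smul, conj_ofReal]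
  · beta_reduce
    rw [dt_smul_left, s.div _ (m t ht) k, mul_zero]
  · have d1 : HasDerivWithinAt (fun t : ℝ => ν⁻¹ * t) ν⁻¹ (Icc 0 T) t := by
      simpa using ((hasDerivAt_id t).const_mul ν⁻¹).hasDerivWithinAt
    have d2 := ((s.deriv k _ (m t ht)).scomp t d1 m).const_smul ((ν⁻¹ : ℝ) : ℂ)
    refine d2.congr_deriv ?_
    have e : ((ν⁻¹ : ℝ) : ℂ) * ν = 1 := by
      rw [← ofReal_mul, inv_mul_cancel₀ hν.ne', ofReal_one]
    rw [FF, FF, BB_smul, AS_apply, AS_apply, DS_apply, DS_apply, map_smul, map_smul, map_smul,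
      map_smul, map_smul, ← Complex.coe_smul, smul_smul, smul_sub, smul_neg, smul_smul, mul_assoc,
      e, mul_one, ofReal_one, one_smul]

/-- The final reduction: it suffices to exclude global Fourier-side solutions for `ν = 1`. -/
theorem blowup_all (hD : Wk D) {a0 : Z3 → C3} (fin : {k | a0 k ≠ 0}.Finite)
    (re : IsReal a0) (dv : DivFree a0) {γ : ℝ} (H : Bound (AS 1 D) a0 γ) (ν : ℝ) (hν : 0 < ν) :
    ∃ u0 : R3 → R3, IsData u0 ∧ {k | fc u0 k ≠ 0}.Finite ∧
      (∃ T > 0, ∃ u p, IsSolutionOn (symDiss ν D) u0 (Ico 0 T) u p ∧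
        (∀ t ∈ Ico 0 T, HasDerivWithinAt (fun s => energy fun x => u x s)
          (-(2 * ν * dissip D fun x => u x t)) (Ico 0 T) t) ∧
        (∃ K : ℝ, ∀ t ∈ Ico 0 T, ∀ x, ‖u x t‖ ≤ K * (T - t) ^ γ) ∧
        ∀ M : ℝ, ∃ t ∈ Ico 0 T, ∃ x, M < ‖u x t‖) ∧
      ¬∃ u p, IsSolutionOn (symDiss ν D) u0 (Ici 0) u p := by
  refine blowup hD hν (a0 := fun k => (ν : ℂ) • a0 k) (fin.subset fun k hk h0 => hk ?_)
    (fun k => ?_) (fun k => ?_) ?_
  · simp [h0]
  · beta_reduce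
    rw [re k, cj_smul, conj_ofReal]
  · rw [dt_smul_left, dv k, mul_zero]
  · obtain ⟨K, Tm, H⟩ := H
    refine ⟨ν * K * ν ^ γ, ν⁻¹ * Tm, fun a T a0' ha => ?_⟩
    obtain ⟨h1, h2⟩ := H _ (ν * T) (by
      funext k
      rw [mul_zero, a0', smul_smul, ← ofReal_mul, inv_mul_cancel₀ hν.ne', ofReal_one, one_smul])
      (isSol_scale (a := a) hν (by rwa [inv_mul_cancel_left₀ hν.ne']))
    refine ⟨(le_inv_mul_iff₀ hν).2 h1, fun t ht => ?_⟩
    have h3 := h2 (ν * t) ⟨mul_nonneg hν.le ht.1, mul_lt_mul_of_pos_left ht.2 hν⟩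
    simp only [inv_mul_cancel_left₀ hν.ne', norm_smul, Complex.norm_real,
      Real.norm_of_nonneg (inv_pos.2 hν).le] at h3
    rw [tsum_mul_left, inv_mul_le_iff₀ hν, ← mul_sub,
      Real.mul_rpow hν.le (sub_pos.2 ht.2).le] at h3
    exact h3.trans (le_of_eq (by ring))

end

end Pool.Agent.Work.MP_6bf1e5_an.B.Sz
end
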